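import Pool.Agent.H18.Tk.ExactG
import Pool.Agent.H18.Tj.FinalT

/-!
# Module G (TK): the main theorem

As `final_T` in `Pool/Agent/H18/Tj/FinalT.lean` with `exact_gen` in place of `exact_all`.  `w = bw r d' s b`,
`b l = d' - m' (J l)`; `∑ w = ∑ b + (r + 1 - s) d' ≥ d' + D` by `hsum`; at least three coordinates of `Fin (r + 1)` have
`D ≤ w i`: the others are among the `l < s` with `d' < m' (J l) + D`, at most `r - 2`.
-/

namespace Pool.Agent.H18.Tk

open Finset Function Pool.Agent.H18.Ex Pool.Agent.H18.Fat Pool.Agent.H18.Pr Pool.Agent.H18.Tj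

private theorem FinalK_Lx_one {ι : Type} [Fintype ι] [DecidableEq ι] (w : ι → ℕ) :
    Lx w 1 = 1 := by
  have h1 : Ex.Rg 0 w = {fun _ => 0} := by
    ext a
    rw [Ex.mem_Rg, mem_singleton]
    refine ⟨fun h => ?_, fun h => ?_⟩
    · funext i
      have h2 : a i ≤ ∑ l, a l := single_le_sum (fun _ _ => Nat.zero_le _) (mem_univ i)
      omega
    · subst h
      exact ⟨fun _ => Nat.zero_le _, sum_const_zero⟩
  unfold Lx
  rw [if_neg one_ne_zero, Nat.sub_self, h1, card_singleton]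

/-- The dimension of the reduced system. -/
private theorem FinalK_dim {r k d' s M : ℕ} (hr : 2 ≤ r) (hM : 1 ≤ M) (m' : Fin k → ℕ)
    (J : Fin s ↪ Fin k) (hs1 : s ≤ r + 1) (hm : ∀ i, (∀ l, J l ≠ i) → m' i ≤ M)
    (hJ : ∀ l, m' (J l) ≤ d') (hMd : M ≤ d')
    (hex : ∀ S : Multiset ℕ, (∀ m ∈ S, m ≤ M) →
      (Ex.Rg d' (bw r d' s fun l => d' - m' (J l))).card ≤
        (S.map (Lx (bw r d' s fun l => d' - m' (J l)))).sum →
      GM (Ex.Rg d' (bw r d' s fun l => d' - m' (J l))) (S.map Kind.free)) :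
    ForGeneralPoints r k fun p =>
      (Module.finrank ℂ (fatForms r d' p m') : ℤ) =
        max 0 ((cnt r s (fun l => d' - m' (J l)) d' : ℤ) -
          ∑ i ∈ univ.filter (fun i => (∀ l, J l ≠ i) ∧ 1 ≤ m' i),
            (cnt r s (fun l => d' - m' (J l)) (m' i - 1) : ℤ)) := by
  have hsum : ∑ i ∈ univ.filter (fun i => (∀ l, J l ≠ i) ∧ 1 ≤ m' i),
      (cnt r s (fun l => d' - m' (J l)) (m' i - 1) : ℤ) =
      ((∑ i ∈ univ.filter (fun i => ∀ l, J l ≠ i),
        Lx (bw r d' s fun l => d' - m' (J l)) (m' i) : ℕ) : ℤ) := by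
    rw [Nat.cast_sum, ← filter_filter, sum_filter]
    refine sum_congr rfl fun i hi => ?_
    have hi1 : ∀ l, J l ≠ i := (mem_filter.1 hi).2
    have hi2 := hm i hi1
    unfold Lx
    by_cases h0 : m' i = 0
    · rw [if_neg (by omega), if_pos h0, Nat.cast_zero]
    · rw [if_pos (by omega), if_neg h0, count_eq r s d' (m' i - 1) hs1 (by omega)]
  rw [hsum, count_eq r s d' d' hs1 le_rfl]
  generalize hLdef : ∑ i ∈ univ.filter (fun i => ∀ l, J l ≠ i),
    Lx (bw r d' s fun l => d' - m' (J l)) (m' i) = L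
  generalize hNdef : (Ex.Rg d' (bw r d' s fun l => d' - m' (J l))).card = N
  have hup := upper (r := r) (d := d') (by omega) hs1 m' J hJ (N - L) (hex
    (((univ.filter fun i => ∀ l, J l ≠ i).val.map m') + Multiset.replicate (N - L) 1)
    (by
      intro x hx
      rcases Multiset.mem_add.1 hx with hx | hx
      · obtain ⟨i, hi, rfl⟩ := Multiset.mem_map.1 hx
        have hi' : i ∈ univ.filter fun i => ∀ l, J l ≠ i := hi
        exact hm i (mem_filter.1 hi').2
      · rw [Multiset.eq_of_mem_replicate hx]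
        exact hM)
    (by
      rw [Multiset.map_add, Multiset.sum_add, Multiset.map_map, Multiset.map_replicate,
        Multiset.sum_replicate, FinalK_Lx_one, hNdef]
      have h3 : (Multiset.map (Lx (bw r d' s fun l => d' - m' (J l)) ∘ m')
          (univ.filter fun i => ∀ l, J l ≠ i).val).sum = L := hLdef
      rw [h3, smul_eq_mul, mul_one]
      omega))
  have hlo := lower (r := r) (d := d') (by omega) hs1 m' J hJ
    fun i hi => (hm i hi).trans hMd
  refine (hup.and hlo).mono fun p hp => ?_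
  obtain ⟨h1, h2⟩ := hp
  rw [hLdef, hNdef] at h2
  omega

/-- The sum of the widths. -/
private theorem FinalK_sum_gen {n d s : ℕ} (hs : s ≤ n) (b : Fin s → ℕ) :
    ∑ i : Fin n, (if h : i.val < s then b ⟨i.val, h⟩ else d) = ∑ l, b l + (n - s) * d := by
  obtain ⟨t, rfl⟩ := Nat.exists_eq_add_of_le hs
  rw [Fin.sum_univ_add, Nat.add_sub_cancel_left]
  congr 1
  · refine sum_congr rfl fun i _ => ?_
    rw [dif_pos (show (Fin.castAdd t i).val < s from i.2)]
    rfl
  · have h1 : ∀ i : Fin t, (if h : (Fin.natAdd s i).val < s then b ⟨(Fin.natAdd s i).val, h⟩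
        else d) = d := by
      intro i
      rw [dif_neg (by simp only [Fin.val_natAdd]; omega)]
    rw [sum_congr rfl fun i _ => h1 i, sum_const, card_univ, Fintype.card_fin, smul_eq_mul]

/-- The sum of the widths. -/
private theorem FinalK_sum {r d s : ℕ} (hs : s ≤ r + 1) (b : Fin s → ℕ) :
    ∑ i, bw r d s b i = ∑ l, b l + (r + 1 - s) * d :=
  FinalK_sum_gen hs b

/-- Three long coordinates. -/
private theorem FinalK_three {r d s D : ℕ} (hs : s ≤ r + 1) (b : Fin s → ℕ) (hD : D ≤ d)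
    (hc : (univ.filter fun l => b l < D).card + 2 ≤ r) :
    ∃ x y z : Fin (r + 1), x ≠ y ∧ y ≠ z ∧ x ≠ z ∧ D ≤ bw r d s b x ∧ D ≤ bw r d s b y ∧
      D ≤ bw r d s b z := by
  have h1 : (univ.filter fun i => ¬ D ≤ bw r d s b i).card ≤
      (univ.filter fun l => b l < D).card := by
    have h2 : (univ.filter fun i => ¬ D ≤ bw r d s b i) ⊆
        (univ.filter fun l => b l < D).image fun l => (⟨l.val, l.2.trans_le hs⟩ : Fin (r + 1)) := by
      intro i hi
      have h3 := (mem_filter.1 hi).2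
      unfold bw at h3
      split_ifs at h3 with h4
      · exact mem_image.2 ⟨⟨i.val, h4⟩, mem_filter.2 ⟨mem_univ _, not_le.1 h3⟩, rfl⟩
      · exact absurd hD h3
    exact (card_le_card h2).trans card_image_le
  have h2 := card_filter_add_card_filter_not (s := (univ : Finset (Fin (r + 1))))
    (fun i => D ≤ bw r d s b i)
  rw [card_univ, Fintype.card_fin] at h2
  obtain ⟨x, hx, y, hy, z, hz, hxy, hxz, hyz⟩ := two_lt_card.1
    (show 2 < (univ.filter fun i => D ≤ bw r d s b i).card by omega)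
  exact ⟨x, y, z, hxy, hyz, hxz, (mem_filter.1 hx).2, (mem_filter.1 hy).2, (mem_filter.1 hz).2⟩

theorem final_K (r : ℕ) (hr : 2 ≤ r) : ∃ K E : ℕ, ∀ M : ℕ, 1 ≤ M →
    ∀ (k d d' s : ℕ) (m m' : Fin k → ℕ) (J : Fin s ↪ Fin k),
    Cremona r d m d' m' → s ≤ r + 1 → (∀ i, (∀ l, J l ≠ i) → m' i ≤ M) →
    (∀ l, m' (J l) ≤ d') → K * M ^ E ≤ d' → ∑ l, m' (J l) + K * M ^ E ≤ r * d' →
    (univ.filter fun l => d' < m' (J l) + K * M ^ E).card + 2 ≤ r →
    ForGeneralPoints r k fun p =>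
      (Module.finrank ℂ (fatForms r d p m) : ℤ) =
        max 0 ((cnt r s (fun l => d' - m' (J l)) d' : ℤ) -
          ∑ i ∈ univ.filter (fun i => (∀ l, J l ≠ i) ∧ 1 ≤ m' i),
            (cnt r s (fun l => d' - m' (J l)) (m' i - 1) : ℤ)) ∧
      (¬ ImposesMaximalConditions r d p m ↔
        0 < (cnt r s (fun l => d' - m' (J l)) d' : ℤ) -
          ∑ i ∈ univ.filter (fun i => (∀ l, J l ≠ i) ∧ 1 ≤ m' i),
            (cnt r s (fun l => d' - m' (J l)) (m' i - 1) : ℤ) ∧
        ((d + r).choose r : ℤ) - ∑ i, ((m i + r - 1).choose r : ℤ) <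
          (cnt r s (fun l => d' - m' (J l)) d' : ℤ) -
            ∑ i ∈ univ.filter (fun i => (∀ l, J l ≠ i) ∧ 1 ≤ m' i),
              (cnt r s (fun l => d' - m' (J l)) (m' i - 1) : ℤ)) := by
  obtain ⟨D, hD, hex⟩ := exact_gen (ι := Fin (r + 1)) (r + 1) (by rw [Fintype.card_fin])
  obtain ⟨K, E, hKE⟩ := hD
  refine ⟨K + 1, E + 1, fun M hM k d d' s m m' J hcr hs hm hJ hK hsum hc => ?_⟩
  have hp1 : 1 ≤ M ^ E := Nat.one_le_pow _ _ hM
  have hDK : D M ≤ (K + 1) * M ^ (E + 1) := by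
    refine (hKE M hM).trans ?_
    rw [pow_succ]
    nlinarith [Nat.zero_le (K * M ^ E), Nat.mul_le_mul_left (K * M ^ E) hM,
      Nat.mul_le_mul hp1 hM]
  have hMK : M ≤ (K + 1) * M ^ (E + 1) := by
    rw [pow_succ]
    calc M = 1 * (1 * M) := by ring
      _ ≤ (K + 1) * (M ^ E * M) :=
        Nat.mul_le_mul (by omega) (Nat.mul_le_mul_right M hp1)
  generalize (K + 1) * M ^ (E + 1) = Q at hK hsum hc hDK hMK
  obtain ⟨x, y, z, hxy, hyz, hxz, hx, hy, hz⟩ := FinalK_three (r := r) (d := d') (D := Q) hs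
    (fun l => d' - m' (J l)) hK (by
      refine (Nat.add_le_add_right (card_le_card ?_) 2).trans hc
      intro l hl
      have h1 := (mem_filter.1 hl).2
      refine mem_filter.2 ⟨mem_univ _, ?_⟩
      have h2 := hJ l
      omega)
  have hws : d' + Q ≤ ∑ i, bw r d' s (fun l => d' - m' (J l)) i := by
    rw [FinalK_sum hs]
    have h1 : ∑ l, (d' - m' (J l)) + ∑ l, m' (J l) = s * d' := by
      rw [← sum_add_distrib, sum_congr rfl fun l _ => Nat.sub_add_cancel (hJ l), sum_const,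
        card_univ, Fintype.card_fin, smul_eq_mul]
    have h2 : s * d' + (r + 1 - s) * d' = (r + 1) * d' := by
      rw [← Nat.add_mul, Nat.add_sub_cancel' hs]
    have h3 : (r + 1) * d' = r * d' + d' := Nat.succ_mul _ _
    omega
  refine Ub.final_of_dim (by omega) hcr _ (FinalK_dim hr hM m' J hs hm hJ (hMK.trans hK)
    fun S hS hle => ?_)
  have h := hex M hM x y z hxy hyz hxz _ d' (hDK.trans hx) (hDK.trans hy) (hDK.trans hz)
    (hDK.trans hK) ((Nat.add_le_add_left hDK d').trans hws) S hS 0 le_rfl (by omega)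
  rwa [Multiset.replicate_zero, add_zero] at h

end Pool.Agent.H18.Tk
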