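import Pool.Agent.H18.Tk.EndP

/-!
# Module C10 (TK): the schedule

`n1` steps in the direction `true` and `n - n1` steps in the direction `false`, evenly distributed, below `n`; above `n` all
steps are in the direction `true`.
* `ctB_true`: induction on `j` (`ct_succ`): `(j + 1) n1 / n - j n1 / n ∈ {0, 1}` since `n1 ≤ n`.  `ctB_false`: `ct true + ct false = j`
  (induction).  `ctB_top`: induction on `t`.
* `windowB`: let `l = dir (j + 1)`.  If `l = true` and `j ≤ n`: `i n1 / n = j n1 / n`, so `(j - i) n1 < n`; the other steps in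
  `(i, j]` are in the direction `false`, there are `j - i ≤ n / n1` of them.  If `j > n` then `dir j = true`, so `i = j`.  If
  `l = false` then `j + 1 ≤ n`, and `ct false i = ct false j` gives `j n1 / n = i n1 / n + (j - i)`, so
  `(j - i) (n - n1) < n ≤ 3 (n - n1)` and `j - i ≤ 2`.
* `tailB`: `p = n / n1 + 3`, `p n1 ≥ n`: `(t + 1) p n1 / n ≥ t p n1 / n + 1`; for `false`: a window of length `p ≥ 4` without a step
  in the direction `false` would give `p (n - n1) < n ≤ 3 (n - n1)`.  So `ct l (t p) ≥ t` by induction on `t`.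
* `ctB_end`: `(M + 1) p n1 / n ≤ (M + 1) (n + 3 n1) / n ≤ 4 (M + 1)` (`(n / n1) n1 ≤ n`).
-/

namespace Pool.Agent.H18.Tk

open Finset Function

/-- The schedule. -/
def dirB (n1 n : ℕ) (j : ℕ) : Bool :=
  if n < j then true else decide (j * n1 / n ≠ (j - 1) * n1 / n)

private theorem Bres_ct_succ (dir : ℕ → Bool) (l : Bool) (j : ℕ) :
    ct dir l (j + 1) = ct dir l j + (if dir (j + 1) = l then 1 else 0) := by
  unfold ct
  rw [Finset.range_add_one, Finset.filter_insert]
  by_cases h : dir (j + 1) = l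
  · rw [if_pos h, if_pos h, Finset.card_insert_of_notMem]
    intro hm
    have := (Finset.mem_filter.1 hm).1
    simp at this
  · rw [if_neg h, if_neg h, Nat.add_zero]

private theorem Bres_ct_zero (dir : ℕ → Bool) (l : Bool) : ct dir l 0 = 0 := by
  unfold ct
  simp

private theorem Bres_sum (dir : ℕ → Bool) (j : ℕ) : ct dir true j + ct dir false j = j := by
  induction j with
  | zero => rw [Bres_ct_zero, Bres_ct_zero]
  | succ j ih =>
    rw [Bres_ct_succ, Bres_ct_succ]
    cases dir (j + 1) <;> simp <;> omega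

private theorem Bres_le (dir : ℕ → Bool) (l : Bool) {i j : ℕ} (h : i ≤ j) :
    ct dir l i ≤ ct dir l j := by
  induction j, h using Nat.le_induction with
  | base => exact le_refl _
  | succ j _ ih => rw [Bres_ct_succ]; omega

private theorem Bres_floor {n1 n : ℕ} (hn : 0 < n) (h1 : n1 ≤ n) (j : ℕ) :
    (j + 1) * n1 / n = j * n1 / n ∨ (j + 1) * n1 / n = j * n1 / n + 1 := by
  have ha : j * n1 / n ≤ (j + 1) * n1 / n := by
    apply Nat.div_le_div_right
    apply Nat.mul_le_mul_right
    omega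
  have hb : (j + 1) * n1 / n ≤ j * n1 / n + 1 := by
    calc (j + 1) * n1 / n ≤ (j * n1 + n) / n := by
          apply Nat.div_le_div_right
          rw [Nat.add_mul, Nat.one_mul]
          omega
      _ = j * n1 / n + 1 := Nat.add_div_right _ hn
  omega

theorem ctB_true {n1 n : ℕ} (hn : 0 < n) (h1 : n1 ≤ n) (j : ℕ) (hj : j ≤ n) :
    ct (dirB n1 n) true j = j * n1 / n := by
  induction j with
  | zero => rw [Bres_ct_zero]; simp
  | succ j ih =>
    rw [Bres_ct_succ, ih (by omega)]
    have hd : dirB n1 n (j + 1) = decide ((j + 1) * n1 / n ≠ j * n1 / n) := by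
      unfold dirB
      rw [if_neg (by omega), Nat.add_sub_cancel]
    rw [hd]
    rcases Bres_floor hn h1 j with h | h
    · rw [h]; simp
    · rw [h]; simp

theorem ctB_false {n1 n : ℕ} (hn : 0 < n) (h1 : n1 ≤ n) (j : ℕ) (hj : j ≤ n) :
    ct (dirB n1 n) false j = j - j * n1 / n := by
  have h := Bres_sum (dirB n1 n) j
  rw [ctB_true hn h1 j hj] at h
  omega

theorem ctB_top {n1 n : ℕ} (hn : 0 < n) (h1 : n1 ≤ n) (t : ℕ) :
    ct (dirB n1 n) true (n + t) = n1 + t ∧ ct (dirB n1 n) false (n + t) = n - n1 := by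
  induction t with
  | zero =>
    have hq : n * n1 / n = n1 := Nat.mul_div_cancel_left _ hn
    constructor
    · rw [Nat.add_zero, Nat.add_zero, ctB_true hn h1 n le_rfl, hq]
    · rw [Nat.add_zero, ctB_false hn h1 n le_rfl, hq]
  | succ t ih =>
    have hd : dirB n1 n (n + t + 1) = true := by
      unfold dirB
      rw [if_pos (by omega)]
    obtain ⟨ih1, ih2⟩ := ih
    constructor
    · rw [← Nat.add_assoc, Bres_ct_succ, hd, ih1]; simp; omega
    · rw [← Nat.add_assoc, Bres_ct_succ, hd, ih2]; simp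

theorem windowB {n1 n2 : ℕ} (h1 : 1 ≤ n1) (h2 : n1 ≤ 2 * n2) (i j : ℕ) (hij : i ≤ j)
    (h : ct (dirB n1 (n1 + n2)) (dirB n1 (n1 + n2) (j + 1)) i =
      ct (dirB n1 (n1 + n2)) (dirB n1 (n1 + n2) (j + 1)) j) :
    ct (dirB n1 (n1 + n2)) true (j + 1) - ct (dirB n1 (n1 + n2)) true i ≤ 2 ∧
    ct (dirB n1 (n1 + n2)) false (j + 1) - ct (dirB n1 (n1 + n2)) false i ≤
      (n1 + n2) / n1 := by
  have hn : 0 < n1 + n2 := by omega
  have hle : n1 ≤ n1 + n2 := by omega
  have hq1 : 1 ≤ (n1 + n2) / n1 := by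
    rw [Nat.le_div_iff_mul_le (by omega)]; omega
  have hs := Bres_ct_succ (dirB n1 (n1 + n2))
  cases hl : dirB n1 (n1 + n2) (j + 1) with
  | true =>
    rw [hl] at h
    have ht := hs true j
    have hf := hs false j
    rw [hl] at ht hf
    simp only [if_true] at ht
    have hf' : ct (dirB n1 (n1 + n2)) false (j + 1) = ct (dirB n1 (n1 + n2)) false j := by
      rw [hf]; simp
    refine ⟨by omega, ?_⟩
    rw [hf']
    by_cases hj : j ≤ n1 + n2
    · have e1 := ctB_true hn hle j hj
      have e2 := ctB_true hn hle i (by omega)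
      have hqi : i * n1 / (n1 + n2) = j * n1 / (n1 + n2) := by rw [← e1, ← e2]; exact h
      have s1 := Bres_sum (dirB n1 (n1 + n2)) j
      have s2 := Bres_sum (dirB n1 (n1 + n2)) i
      have hd : ct (dirB n1 (n1 + n2)) false j - ct (dirB n1 (n1 + n2)) false i = j - i := by
        omega
      rw [hd, Nat.le_div_iff_mul_le (by omega)]
      have a1 := Nat.lt_mul_div_succ (j * n1) hn
      have a2 := Nat.mul_div_le (i * n1) (n1 + n2)
      rw [hqi] at a2
      rw [Nat.sub_mul]
      rw [Nat.mul_add, Nat.mul_one] at a1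
      omega
    · have hij' : i = j := by
        by_contra hne
        have hlt : i ≤ j - 1 := by omega
        have hm := Bres_le (dirB n1 (n1 + n2)) true hlt
        have hs2 := hs true (j - 1)
        have hd : dirB n1 (n1 + n2) (j - 1 + 1) = true := by
          unfold dirB
          rw [if_pos (by omega)]
        rw [hd] at hs2
        simp only [if_true] at hs2
        have hj1 : j - 1 + 1 = j := by omega
        rw [hj1] at hs2
        omega
      subst hij'
      omega
  | false =>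
    rw [hl] at h
    have ht := hs true j
    have hf := hs false j
    rw [hl] at ht hf
    simp only [if_true] at hf
    have ht' : ct (dirB n1 (n1 + n2)) true (j + 1) = ct (dirB n1 (n1 + n2)) true j := by
      rw [ht]; simp
    have hj : j + 1 ≤ n1 + n2 := by
      by_contra hc
      have hd : dirB n1 (n1 + n2) (j + 1) = true := by
        unfold dirB
        rw [if_pos (by omega)]
      rw [hd] at hl
      exact Bool.noConfusion hl
    refine ⟨?_, by omega⟩
    rw [ht']
    have e1 := ctB_true hn hle j (by omega)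
    have e2 := ctB_true hn hle i (by omega)
    have s1 := Bres_sum (dirB n1 (n1 + n2)) j
    have s2 := Bres_sum (dirB n1 (n1 + n2)) i
    have hd : ct (dirB n1 (n1 + n2)) true j - ct (dirB n1 (n1 + n2)) true i = j - i := by
      omega
    rw [hd]
    have hq : j * n1 / (n1 + n2) = i * n1 / (n1 + n2) + (j - i) := by
      rw [← e1, ← e2]; omega
    have a1 := Nat.lt_mul_div_succ (i * n1) hn
    have a2 := Nat.mul_div_le (j * n1) (n1 + n2)
    rw [hq] at a2
    obtain ⟨k, rfl⟩ := Nat.exists_eq_add_of_le hij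
    rw [Nat.add_sub_cancel_left] at a2 ⊢
    by_contra hk
    have hk3 : 3 ≤ k := by omega
    -- `k (n1 + n2) < k n1 + n1 + n2`
    have a3 : k * (n1 + n2) < k * n1 + (n1 + n2) := by
      have b1 : (n1 + n2) * (i * n1 / (n1 + n2) + k) =
          (n1 + n2) * (i * n1 / (n1 + n2)) + k * (n1 + n2) := by ring
      have b2 : (i + k) * n1 = i * n1 + k * n1 := by ring
      have b3 : (n1 + n2) * (i * n1 / (n1 + n2) + 1) =
          (n1 + n2) * (i * n1 / (n1 + n2)) + (n1 + n2) := by ring
      omega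
    have a4 : 3 * n2 ≤ k * n2 := Nat.mul_le_mul_right _ hk3
    have a5 : k * (n1 + n2) = k * n1 + k * n2 := by ring
    omega

theorem tailB {n1 n2 : ℕ} (M : ℕ) (h1 : 1 ≤ n1) (h2 : n1 ≤ 2 * n2)
    (hM : (M + 1) * ((n1 + n2) / n1 + 3) ≤ n1 + n2) (l : Bool) :
    M ≤ ct (dirB n1 (n1 + n2)) l (M * ((n1 + n2) / n1 + 3)) ∧
    ct (dirB n1 (n1 + n2)) l (M * ((n1 + n2) / n1 + 3)) <
      ct (dirB n1 (n1 + n2)) l ((M + 1) * ((n1 + n2) / n1 + 3)) := by
  have hn : 0 < n1 + n2 := by omega
  have hle : n1 ≤ n1 + n2 := by omega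
  have hq1 : 1 ≤ (n1 + n2) / n1 := by
    rw [Nat.le_div_iff_mul_le (by omega)]; omega
  obtain ⟨p, hp⟩ : ∃ p, p = (n1 + n2) / n1 + 3 := ⟨_, rfl⟩
  rw [← hp] at hM ⊢
  have hp4 : 4 ≤ p := by omega
  have hpn : n1 + n2 ≤ p * n1 := by
    have := Nat.lt_mul_div_succ (n1 + n2) (show 0 < n1 by omega)
    have h3 : p * n1 = n1 * ((n1 + n2) / n1 + 1) + 2 * n1 := by rw [hp]; ring
    omega
  have hpm : p * n1 ≤ (p - 1) * (n1 + n2) := by
    obtain ⟨r, rfl⟩ : ∃ r, p = r + 1 := ⟨p - 1, by omega⟩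
    rw [Nat.add_sub_cancel]
    have h4 : 3 * n2 ≤ r * n2 := Nat.mul_le_mul_right _ (by omega)
    have h5 : (r + 1) * n1 = r * n1 + n1 := by ring
    have h6 : r * (n1 + n2) = r * n1 + r * n2 := by ring
    omega
  have hMp : M * p ≤ n1 + n2 := by
    have : (M + 1) * p = M * p + p := by ring
    omega
  have f1 : M ≤ M * p * n1 / (n1 + n2) := by
    rw [Nat.le_div_iff_mul_le hn, Nat.mul_assoc]
    exact Nat.mul_le_mul_left _ hpn
  have f2 : M * p * n1 / (n1 + n2) + 1 ≤ (M + 1) * p * n1 / (n1 + n2) := by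
    rw [← Nat.add_div_right _ hn]
    apply Nat.div_le_div_right
    have : (M + 1) * p * n1 = M * p * n1 + p * n1 := by ring
    omega
  have f3 : M * p * n1 / (n1 + n2) ≤ M * (p - 1) := by
    apply Nat.div_le_of_le_mul
    calc M * p * n1 = M * (p * n1) := by ring
      _ ≤ M * ((p - 1) * (n1 + n2)) := Nat.mul_le_mul_left _ hpm
      _ = (n1 + n2) * (M * (p - 1)) := by ring
  have f4 : (M + 1) * p * n1 / (n1 + n2) ≤ M * p * n1 / (n1 + n2) + (p - 1) := by
    rw [← Nat.add_mul_div_right _ _ hn]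
    apply Nat.div_le_div_right
    have : (M + 1) * p * n1 = M * p * n1 + p * n1 := by ring
    omega
  have g1 : M * p = M * (p - 1) + M := by
    obtain ⟨r, rfl⟩ : ∃ r, p = r + 1 := ⟨p - 1, by omega⟩
    rw [Nat.add_sub_cancel]; ring
  have g2 : (M + 1) * p = M * p + p := by ring
  cases l with
  | true =>
    rw [ctB_true hn hle _ hMp, ctB_true hn hle _ hM]
    exact ⟨f1, by omega⟩
  | false =>
    rw [ctB_false hn hle _ hMp, ctB_false hn hle _ hM]
    exact ⟨by omega, by omega⟩

theorem ctB_end {n1 n2 : ℕ} (M : ℕ) (h1 : 1 ≤ n1)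
    (hM : (M + 1) * ((n1 + n2) / n1 + 3) ≤ n1 + n2) :
    ct (dirB n1 (n1 + n2)) true ((M + 1) * ((n1 + n2) / n1 + 3)) ≤ 4 * (M + 1) := by
  have hn : 0 < n1 + n2 := by omega
  have hle : n1 ≤ n1 + n2 := by omega
  rw [ctB_true hn hle _ hM]
  apply Nat.div_le_of_le_mul
  have h3 : ((n1 + n2) / n1 + 3) * n1 ≤ 4 * (n1 + n2) := by
    have := Nat.mul_div_le (n1 + n2) n1
    have h4 : ((n1 + n2) / n1 + 3) * n1 = n1 * ((n1 + n2) / n1) + 3 * n1 := by ring
    omega
  calc (M + 1) * ((n1 + n2) / n1 + 3) * n1 = (M + 1) * (((n1 + n2) / n1 + 3) * n1) := by ring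
    _ ≤ (M + 1) * (4 * (n1 + n2)) := Nat.mul_le_mul_left _ h3
    _ = (n1 + n2) * (4 * (M + 1)) := by ring

end Pool.Agent.H18.Tk
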