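import Mathlib

/-!
# Module C9 (TK): the numbers of steps

`R = w2 / w1 + 1` (so `R ≥ 2`, `w2 < R w1`, `R w1 ≤ 2 w2`), `β = 4 B R`, `σ' = σ - (M + 1)`,
`n1 = min (w1 - (M + 1) - B) ((σ' - β) / 2)`, `n2 = min (w2 - β) (σ' - β - n1)`, `a = w1 - (M + 1) - n1`, `b = w2 - n2`,
`s = σ' - n1 - n2`, `g = (n1 + n2) / n1`, `J = (M + 1) (g + 3)`.  (Checked numerically.)  `β w1 ≤ 8 B w2`, so
`β ≤ w2 / 8`; `b ≥ β`, `s ≥ β`, and `b = β` or `s = β`.
* If `n1 = w1 - (M + 1) - B`: `a = B`, `n1 ≥ (31 / 32) w1`, `n2 ≤ w2 ≤ R w1`, `g ≤ 2 R + 1 ≤ 3 R`, `Q g ≤ (B / 2) 3 R ≤ β`;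
  `J ≤ (M + 1) (3 R + 3) ≤ 6 B R`; `min a … + 1 ≤ B + 4 (M + 1) + 1 ≤ 6 B`, `min b s + J + 1 ≤ 4 B R + 6 B R + 1 ≤ 11 B R`:
  the product is at most `66 B² R ≤ 132 B² w2 / w1`, and `C (132 B² w2 / w1 + X) ≤ w2`.
* If `n1 = (σ' - β) / 2 < w1 - (M + 1) - B`: `n2 ≤ n1 + 1`, `g ≤ 3`; `n1 ≥ (2 / 5) w2`, so `R ≤ 3`; `J ≤ 6 B R`; either
  `s = β`, or `b = β` and `s ≤ 2 β` (`w2 - β ≤ n1 + 1`, `w2 ≥ w1 > n1 + B + M + 1`, `σ' ≤ 2 n1 + 1 + β`): the product is at
  most `(15 B R) (11 B R) ≤ 1485 B²`, and `C (1485 B² + X) ≤ w1 ≤ w2`.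
* `n1 ≤ 2 n2`: if `n2 = σ' - β - n1` then `n2 ≥ n1`; if `n2 = w2 - β` then `n2 ≥ (7 / 8) w2`, `n1 ≤ w1 ≤ w2`.
* `J ≤ n1 + n2`: `(M + 1) (g + 3) ≤ 4 (M + 1) g ≤ n1 g ≤ n1 + n2`.
-/

namespace Pool.Agent.H18.Tk

/-- The bound. -/
def dC (B C X : ℕ) : ℕ := 3000 * C * B ^ 2 + 2 * C * X + 100 * B + 8

/-- The final assembly: `g = (n1 + n2) / n1` is at most `G`. -/
private theorem ChooseN_fin (M B Q C X w2 n1 n2 a b s β G K : ℕ) (_hB : 1 ≤ B) (hQB : 2 * Q ≤ B)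
    (hMB : M + 1 ≤ B) (hn1 : 4 * B ≤ n1) (hG : (n1 + n2) / n1 ≤ G) (hβG : B * G ≤ 2 * β)
    (hb : β ≤ b) (hs : β ≤ s) (hbs : b = β ∨ s = β)
    (hK : min (a + 4 * (M + 1)) (s + B * (G + 3)) + 1 ≤ K)
    (hfin : C * (K * (β + B * (G + 3) + 1) + X) ≤ w2) :
    Q * ((n1 + n2) / n1) ≤ b ∧ Q * ((n1 + n2) / n1) ≤ s ∧
      (M + 1) * ((n1 + n2) / n1 + 3) ≤ n1 + n2 ∧
      C * ((min (a + 4 * (M + 1)) (s + (M + 1) * ((n1 + n2) / n1 + 3)) + 1) *
        (min b s + (M + 1) * ((n1 + n2) / n1 + 3) + 1) + X) ≤ w2 := by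
  have hn0 : 0 < n1 := by omega
  obtain ⟨g, hg⟩ : ∃ g, g = (n1 + n2) / n1 := ⟨_, rfl⟩
  have hg1 : 1 ≤ g := by
    rw [hg]
    exact Nat.div_pos (by omega) hn0
  have hg2 : g * n1 ≤ n1 + n2 := by
    rw [hg]
    exact Nat.div_mul_le_self _ _
  rw [← hg] at hG ⊢
  have hQ : Q * g ≤ β := by
    have h1 : 2 * (Q * g) ≤ B * G := by
      calc 2 * (Q * g) = (2 * Q) * g := by ring
        _ ≤ B * G := Nat.mul_le_mul hQB hG
    omega
  have hJ : (M + 1) * (g + 3) ≤ B * (G + 3) := Nat.mul_le_mul hMB (by omega)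
  refine ⟨hQ.trans hb, hQ.trans hs, ?_, ?_⟩
  · have h1 : (M + 1) * (g + 3) ≤ B * (4 * g) := Nat.mul_le_mul hMB (by omega)
    have h2 : B * (4 * g) = g * (4 * B) := by ring
    have h3 : g * (4 * B) ≤ g * n1 := Nat.mul_le_mul_left _ hn1
    omega
  · refine le_trans (Nat.mul_le_mul_left _ (Nat.add_le_add_right (Nat.mul_le_mul ?_ ?_) _)) hfin
    · refine le_trans (Nat.add_le_add_right (min_le_min le_rfl (Nat.add_le_add_left hJ _)) _) hK
    · have h1 : min b s ≤ β := by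
        rcases hbs with h | h
        · exact (min_le_left _ _).trans h.le
        · exact (min_le_right _ _).trans h.le
      omega

theorem choose_n (M B Q C X w1 w2 σ : ℕ) (hQB : 2 * Q ≤ B) (hMB : M + 1 ≤ B)
    (hD : dC B C X ≤ w1) (h12 : w1 ≤ w2) (h2 : w2 ≤ σ) :
    ∃ n1 n2 a b s : ℕ, a + n1 + (M + 1) = w1 ∧ b + n2 = w2 ∧ s + n1 + n2 + (M + 1) = σ ∧
      1 ≤ n1 ∧ n1 ≤ 2 * n2 ∧ B ≤ a ∧ B ≤ b ∧ B ≤ s ∧
      Q * ((n1 + n2) / n1) ≤ b ∧ Q * ((n1 + n2) / n1) ≤ s ∧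
      (M + 1) * ((n1 + n2) / n1 + 3) ≤ n1 + n2 ∧
      C * ((min (a + 4 * (M + 1)) (s + (M + 1) * ((n1 + n2) / n1 + 3)) + 1) *
        (min b s + (M + 1) * ((n1 + n2) / n1 + 3) + 1) + X) ≤ w2 := by
  unfold dC at hD
  have hB : 1 ≤ B := by omega
  have hw1 : 0 < w1 := by omega
  have hBw : 100 * B + 8 ≤ w1 := by omega
  obtain ⟨R, hR⟩ : ∃ R, R = w2 / w1 + 1 := ⟨_, rfl⟩
  have hR2 : 2 ≤ R := by
    have h := Nat.div_pos h12 hw1
    omega
  have hRlt : w2 < R * w1 := by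
    rw [hR, mul_comm]
    exact Nat.lt_mul_div_succ w2 hw1
  have hRle : R * w1 ≤ 2 * w2 := by
    have h := Nat.div_mul_le_self w2 w1
    rw [hR, add_mul, one_mul]
    omega
  obtain ⟨β, hβ⟩ : ∃ β, β = 4 * B * R := ⟨_, rfl⟩
  have hBR : B ≤ B * R := Nat.le_mul_of_pos_right _ (by omega)
  have hBR2 : 2 * B ≤ B * R := by
    rw [mul_comm]
    exact Nat.mul_le_mul_left _ hR2
  have hβ4 : β = 4 * (B * R) := by rw [hβ]; ring
  have hβw : 25 * β ≤ 2 * w2 := by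
    have h1 : B * (100 * β) ≤ B * (8 * w2) := by
      calc B * (100 * β) = (100 * B) * β := by ring
        _ ≤ w1 * β := Nat.mul_le_mul_right _ (by omega)
        _ = (4 * B) * (R * w1) := by rw [hβ]; ring
        _ ≤ (4 * B) * (2 * w2) := Nat.mul_le_mul_left _ hRle
        _ = B * (8 * w2) := by ring
    have h2 := Nat.le_of_mul_le_mul_left h1 hB
    omega
  have hCB : 3000 * C * B ^ 2 + 2 * C * X ≤ w1 := by omega
  rcases le_total (w1 - (M + 1) - B) ((σ - (M + 1) - β) / 2) with hA | hA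
  · -- the first case
    have hfin : C * (6 * B * (β + B * (2 * R + 1 + 3) + 1) + X) ≤ w2 := by
      have h1 : β + B * (2 * R + 1 + 3) + 1 ≤ 11 * (B * R) := by
        have h3 : B * (2 * R + 1 + 3) = 2 * (B * R) + 4 * B := by ring
        rw [h3]
        omega
      have h2 : 6 * B * (β + B * (2 * R + 1 + 3) + 1) ≤ 66 * (B ^ 2 * R) := by
        calc 6 * B * (β + B * (2 * R + 1 + 3) + 1) ≤ 6 * B * (11 * (B * R)) :=
              Nat.mul_le_mul_left _ h1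
          _ = 66 * (B ^ 2 * R) := by ring
      have h3 : C * (6 * B * (β + B * (2 * R + 1 + 3) + 1) + X) ≤ 66 * (C * B ^ 2 * R) + C * X := by
        calc C * (6 * B * (β + B * (2 * R + 1 + 3) + 1) + X) ≤ C * (66 * (B ^ 2 * R) + X) :=
              Nat.mul_le_mul_left _ (by omega)
          _ = 66 * (C * B ^ 2 * R) + C * X := by ring
      have h4 : 3000 * (C * B ^ 2 * R) ≤ 2 * w2 := by
        calc 3000 * (C * B ^ 2 * R) = R * (3000 * C * B ^ 2) := by ring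
          _ ≤ R * w1 := Nat.mul_le_mul_left _ (by omega)
          _ ≤ 2 * w2 := hRle
      have h5 : 2 * (C * X) ≤ w2 := by
        have h6 : 2 * (C * X) = 2 * C * X := by ring
        omega
      omega
    have hG : ∀ n1 n2 : ℕ, n1 = w1 - (M + 1) - B → n2 ≤ w2 → (n1 + n2) / n1 ≤ 2 * R + 1 := by
      intro n1 n2 h1 h2
      have h3 : w1 ≤ 2 * n1 := by omega
      have h4 : n1 + n2 ≤ (2 * R + 1) * n1 := by
        have h5 : R * w1 ≤ R * (2 * n1) := Nat.mul_le_mul_left _ h3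
        have h6 : (2 * R + 1) * n1 = R * (2 * n1) + n1 := by ring
        omega
      exact Nat.div_le_of_le_mul (by rw [mul_comm]; exact h4)
    have hβG : B * (2 * R + 1) ≤ 2 * β := by
      have h3 : B * (2 * R + 1) = 2 * (B * R) + B := by ring
      omega
    rcases le_total (w2 - β) (σ - (M + 1) - β - (w1 - (M + 1) - B)) with hn | hn
    · refine ⟨w1 - (M + 1) - B, w2 - β, B, β, σ - (M + 1) - (w1 - (M + 1) - B) - (w2 - β),
        by omega, by omega, by omega, by omega, by omega, by omega, by omega, by omega, ?_⟩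
      refine ChooseN_fin M B Q C X w2 _ _ _ _ _ β (2 * R + 1) (6 * B) hB hQB hMB (by omega)
        (hG _ _ rfl (by omega)) hβG (by omega) (by omega) (by omega) ?_ hfin
      refine le_trans (Nat.add_le_add_right (min_le_left _ _) _) ?_
      omega
    · refine ⟨w1 - (M + 1) - B, σ - (M + 1) - β - (w1 - (M + 1) - B), B,
        w2 - (σ - (M + 1) - β - (w1 - (M + 1) - B)), β,
        by omega, by omega, by omega, by omega, by omega, by omega, by omega, by omega, ?_⟩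
      refine ChooseN_fin M B Q C X w2 _ _ _ _ _ β (2 * R + 1) (6 * B) hB hQB hMB (by omega)
        (hG _ _ rfl (by omega)) hβG (by omega) (by omega) (by omega) ?_ hfin
      refine le_trans (Nat.add_le_add_right (min_le_left _ _) _) ?_
      omega
  · -- the second case
    obtain ⟨n1, hn1⟩ : ∃ n1, n1 = (σ - (M + 1) - β) / 2 := ⟨_, rfl⟩
    have hn1a : 2 * n1 ≤ σ - (M + 1) - β := by omega
    have hn1b : σ - (M + 1) - β ≤ 2 * n1 + 1 := by omega
    have hn1c : 2 * w2 ≤ 5 * n1 := by omega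
    have hR3 : R ≤ 3 := by
      have h1 : w2 / w1 ≤ 2 := by
        have h2 : w2 / w1 < 3 := by
          rw [Nat.div_lt_iff_lt_mul hw1]
          omega
        omega
      omega
    have hBR3 : B * R ≤ 3 * B := by
      rw [mul_comm 3 B]
      exact Nat.mul_le_mul_left _ hR3
    have hfin : C * (45 * B * (β + B * (3 + 3) + 1) + X) ≤ w2 := by
      have h1 : β + B * (3 + 3) + 1 ≤ 33 * B := by omega
      have h2 : 45 * B * (β + B * (3 + 3) + 1) ≤ 1485 * B ^ 2 := by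
        calc 45 * B * (β + B * (3 + 3) + 1) ≤ 45 * B * (33 * B) := Nat.mul_le_mul_left _ h1
          _ = 1485 * B ^ 2 := by ring
      have h3 : C * (45 * B * (β + B * (3 + 3) + 1) + X) ≤ 1485 * (C * B ^ 2) + C * X := by
        calc C * (45 * B * (β + B * (3 + 3) + 1) + X) ≤ C * (1485 * B ^ 2 + X) :=
              Nat.mul_le_mul_left _ (by omega)
          _ = 1485 * (C * B ^ 2) + C * X := by ring
      have h4 : 3000 * C * B ^ 2 = 3000 * (C * B ^ 2) := by ring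
      have h5 : 2 * C * X = 2 * (C * X) := by ring
      omega
    have hG : ∀ n2 : ℕ, n2 ≤ n1 + 1 → (n1 + n2) / n1 ≤ 3 := by
      intro n2 h2
      exact Nat.div_le_of_le_mul (by omega)
    have hβG : B * 3 ≤ 2 * β := by omega
    rw [← hn1] at hA
    rcases le_total (w2 - β) (σ - (M + 1) - β - n1) with hn | hn
    · refine ⟨n1, w2 - β, w1 - (M + 1) - n1, β, σ - (M + 1) - n1 - (w2 - β),
        by omega, by omega, by omega, by omega, by omega, by omega, by omega, by omega, ?_⟩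
      refine ChooseN_fin M B Q C X w2 _ _ _ _ _ β 3 (45 * B) hB hQB hMB (by omega)
        (hG _ (by omega)) hβG (by omega) (by omega) (by omega) ?_ hfin
      refine le_trans (Nat.add_le_add_right (min_le_right _ _) _) ?_
      omega
    · refine ⟨n1, σ - (M + 1) - β - n1, w1 - (M + 1) - n1, w2 - (σ - (M + 1) - β - n1), β,
        by omega, by omega, by omega, by omega, by omega, by omega, by omega, by omega, ?_⟩
      refine ChooseN_fin M B Q C X w2 _ _ _ _ _ β 3 (45 * B) hB hQB hMB (by omega)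
        (hG _ (by omega)) hβG (by omega) (by omega) (by omega) ?_ hfin
      refine le_trans (Nat.add_le_add_right (min_le_right _ _) _) ?_
      omega

end Pool.Agent.H18.Tk
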