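import Pool.Agent.H18.Tj.CntA

/-!
# Module T1 (TK): the number of exponents varies slowly with the degree if all coordinates but two are thin

`cnt_thin_up`: the `a ∈ Rg (σ + 1) w` with `a h ≥ 1` are mapped injectively to `Rg σ w` by `a ↦ a - e_h`; the others have
`a h = 0` and are determined by their coordinates other than `h`, `c`.  `cnt_thin_dn`: the `a ∈ Rg σ w` with `a h < w h` are
mapped to `Rg (σ + 1) w` by `a ↦ a + e_h`; the others have `a h = w h` and are again determined by their coordinates other
than `h`, `c`.  See `cnt_thin` in `Pool/Agent/H18/Tj/CntL.lean`.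
-/

namespace Pool.Agent.H18.Tk

open Finset Function Pool.Agent.H18.Ex Pool.Agent.H18.Tj

variable {ι : Type} [Fintype ι] [DecidableEq ι]

private theorem CntT_upd {a : ι → ℕ} (h : ι) (x : ℕ) :
    ∑ i, update a h x i = x + ∑ i ∈ univ.erase h, a i := by
  have h1 := sum_update_of_mem (mem_univ h) a x
  have h3 : (univ : Finset ι) \ {h} = univ.erase h := sdiff_singleton_eq_erase _ _
  rw [h3] at h1
  exact h1

private theorem CntT_det {h c : ι} {σ θ q x : ℕ} {w : ι → ℕ} (hc : h ≠ c)
    (hq : Fintype.card ι ≤ q) (hθ : 1 ≤ θ) (hthin : ∀ i, i ≠ h → i ≠ c → w i < θ) :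
    ((Rg σ w).filter fun a => a h = x).card ≤ θ ^ q := by
  have hcard : (Fintype.piFinset fun _ : ι => range θ).card ≤ θ ^ q := by
    rw [Fintype.card_piFinset, prod_const, card_range, card_univ]
    exact Nat.pow_le_pow_right hθ hq
  refine le_trans ?_ hcard
  refine card_le_card_of_injOn (fun a => update (update a h 0) c 0) ?_ ?_
  · intro a ha
    rw [mem_coe, mem_filter, mem_Rg] at ha
    obtain ⟨⟨ha1, ha2⟩, ha3⟩ := ha
    rw [mem_coe, Fintype.mem_piFinset]
    intro i
    rw [mem_range]
    beta_reduce
    by_cases hi : i = c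
    · subst hi
      rw [update_self]
      exact hθ
    · rw [update_of_ne hi]
      by_cases hi' : i = h
      · subst hi'
        rw [update_self]
        exact hθ
      · rw [update_of_ne hi']
        exact lt_of_le_of_lt (ha1 i) (hthin i hi' hi)
  · intro a ha b hb hab
    rw [mem_coe, mem_filter, mem_Rg] at ha hb
    have hne : ∀ i, i ≠ c → a i = b i := by
      intro i hi
      by_cases hi' : i = h
      · subst hi'
        rw [ha.2, hb.2]
      · have h1 := congrFun hab i
        simpa only [update_of_ne hi, update_of_ne hi'] using h1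
    funext i
    by_cases hi : i = c
    · subst hi
      have h1 := add_sum_erase univ a (mem_univ i)
      have h2 := add_sum_erase univ b (mem_univ i)
      have h3 : ∑ x ∈ univ.erase i, a x = ∑ x ∈ univ.erase i, b x :=
        sum_congr rfl fun x hx => hne x (ne_of_mem_erase hx)
      have h4 := ha.1.2
      have h5 := hb.1.2
      omega
    · exact hne i hi

theorem cnt_thin_up {h c : ι} (hc : h ≠ c) {σ θ q : ℕ} {w : ι → ℕ} (hq : Fintype.card ι ≤ q)
    (hθ : 1 ≤ θ) (hthin : ∀ i, i ≠ h → i ≠ c → w i < θ) :
    (Rg (σ + 1) w).card ≤ (Rg σ w).card + θ ^ q := by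
  rw [← card_filter_add_card_filter_not (s := Rg (σ + 1) w) (fun a => a h ≠ 0)]
  refine Nat.add_le_add ?_ ?_
  · refine card_le_card_of_injOn (fun a => update a h (a h - 1)) ?_ ?_
    · intro a ha
      rw [mem_coe, mem_filter, mem_Rg] at ha
      obtain ⟨⟨ha1, ha2⟩, ha3⟩ := ha
      rw [mem_coe, mem_Rg]
      beta_reduce
      refine ⟨fun i => ?_, ?_⟩
      · by_cases hi : i = h
        · subst hi
          rw [update_self]
          exact (Nat.sub_le _ _).trans (ha1 _)
        · rw [update_of_ne hi]
          exact ha1 i
      · have h2 := add_sum_erase univ a (mem_univ h)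
        rw [CntT_upd]
        have h4 : 1 ≤ a h := Nat.one_le_iff_ne_zero.2 ha3
        omega
    · intro a ha b hb hab
      rw [mem_coe, mem_filter] at ha hb
      funext i
      have h1 := congrFun hab i
      by_cases hi : i = h
      · subst hi
        simp only [update_self] at h1
        have h4 : 1 ≤ a i := Nat.one_le_iff_ne_zero.2 ha.2
        have h5 : 1 ≤ b i := Nat.one_le_iff_ne_zero.2 hb.2
        omega
      · simpa only [update_of_ne hi] using h1
  · have h1 : ((Rg (σ + 1) w).filter fun a => ¬ a h ≠ 0) =
        (Rg (σ + 1) w).filter fun a => a h = 0 := by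
      refine filter_congr fun a _ => ?_
      rw [not_not]
    rw [h1]
    exact CntT_det hc hq hθ hthin

theorem cnt_thin_dn {h c : ι} (hc : h ≠ c) {σ θ q : ℕ} {w : ι → ℕ} (hq : Fintype.card ι ≤ q)
    (hθ : 1 ≤ θ) (hthin : ∀ i, i ≠ h → i ≠ c → w i < θ) :
    (Rg σ w).card ≤ (Rg (σ + 1) w).card + θ ^ q := by
  rw [← card_filter_add_card_filter_not (s := Rg σ w) (fun a => a h ≠ w h)]
  refine Nat.add_le_add ?_ ?_
  · refine card_le_card_of_injOn (fun a => update a h (a h + 1)) ?_ ?_
    · intro a ha
      rw [mem_coe, mem_filter, mem_Rg] at ha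
      obtain ⟨⟨ha1, ha2⟩, ha3⟩ := ha
      rw [mem_coe, mem_Rg]
      beta_reduce
      refine ⟨fun i => ?_, ?_⟩
      · by_cases hi : i = h
        · subst hi
          rw [update_self]
          have h4 := ha1 i
          omega
        · rw [update_of_ne hi]
          exact ha1 i
      · have h2 := add_sum_erase univ a (mem_univ h)
        rw [CntT_upd]
        omega
    · intro a ha b hb hab
      funext i
      have h1 := congrFun hab i
      by_cases hi : i = h
      · subst hi
        simp only [update_self] at h1
        omega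
      · simpa only [update_of_ne hi] using h1
  · have h1 : ((Rg σ w).filter fun a => ¬ a h ≠ w h) =
        (Rg σ w).filter fun a => a h = w h := by
      refine filter_congr fun a _ => ?_
      rw [not_not]
    rw [h1]
    exact CntT_det hc hq hθ hthin

end Pool.Agent.H18.Tk
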