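import Pool.Agent.H18.Tj.CntL
import Pool.Agent.H18.Tj.LensL

/-!
# Project TK (MP_1dafdd_ag): definitions

The states of a Horace system are numbered from below along one path: the step from the state `k + 1` to
the state `k` is along the hyperplane `dir (k + 1)`.  Everything else is as in project TJ
(`Pool/Agent/H18/Tj`), whose `Lens`, `trT`, `flT`, `cE`, `Lx`, `NE` are used.

`wS δ dir w₀ j`: the widths of the state `j` of the concrete system: `w₀` plus, for every coordinate, the number of the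
steps along it below the state `j`; its degree is `σ₀ + j`.
`hS l j`: the size of the trace of the state `j` on `x_{δ l} = 0`.  `pS l j = hS l i` for the largest `i ≤ j` with
`dir i = l` (`0` if there is none): the size of the trace at the next step along `l`.
-/

namespace Pool.Agent.H18.Tk

open Finset Function Pool.Agent.H18.Ex Pool.Agent.H18.Tj

section

variable {Λ : Type} [Fintype Λ]

/-- Length of the free points. -/
def nszP {M : ℕ} (L : Lens M) (c : Cfg Λ) : ℕ := (c.N.map L.hi).sum + c.s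

/-- Total length. -/
def szP {M : ℕ} (L : Lens M) (c : Cfg Λ) : ℕ := nszP L c + ∑ l, flT L (c.Φ l)

end

/-- An abstract Horace system along a path. -/
structure SysP (Λ : Type) [DecidableEq Λ] : Type where
  /-- the configuration kills the space of the state `k` -/
  K : ℕ → Cfg Λ → Prop
  /-- the direction of the step from the state `k` to the state `k - 1` -/
  dir : ℕ → Λ
  /-- the size of the trace in this direction -/
  F : ℕ → ℕ
  /-- the size -/
  R : ℕ → ℕ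
  /-- the points with multiplicities `S` kill the trace -/
  tr : ℕ → Multiset ℕ → Prop
  mono : ∀ (k : ℕ) (c c' : Cfg Λ), c.N ≤ c'.N → c.s ≤ c'.s → (∀ l, c.Φ l ≤ c'.Φ l) →
    K k c → K k c'
  one : ∀ (k : ℕ) (N : Multiset ℕ) (s : ℕ) (Φ : Λ → Multiset (ℕ × ℕ)), K k ⟨N, s + 1, Φ⟩ →
    K k ⟨1 ::ₘ N, s, Φ⟩
  count : ∀ k, R (k + 1) = R k + F (k + 1)
  step : ∀ (k : ℕ) (N I : Multiset ℕ) (μ t s u : ℕ) (Φ : Λ → Multiset (ℕ × ℕ)), 1 ≤ μ →
    (∀ x ∈ Φ (dir (k + 1)), x.2 ≤ x.1) →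
    tr (k + 1) ((Φ (dir (k + 1))).map Prod.fst + I + Multiset.replicate (t + u) 1) →
    K k ⟨N, s, update Φ (dir (k + 1)) (shf (Φ (dir (k + 1))) + I.map (fun m => (m - 1, 1)) +
      Multiset.replicate t (μ, 2))⟩ →
    K (k + 1) ⟨N + I + Multiset.replicate t μ, s + u, Φ⟩
  bridge : ∀ (k : ℕ) (N : Multiset ℕ) (s s₀ : ℕ) (Φ : Λ → Multiset (ℕ × ℕ)),
    K (k + 1) ⟨N, s + s₀, Φ⟩ →
    K k ⟨N, s, update Φ (dir (k + 1)) (shf (Φ (dir (k + 1))))⟩ →
    K (k + 1) ⟨N, s, update Φ (dir (k + 1)) (Φ (dir (k + 1)) + Multiset.replicate s₀ (1, 1))⟩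
  full : ∀ (k : ℕ) (N : Multiset ℕ) (s : ℕ) (Φ : Λ → Multiset (ℕ × ℕ)), (∀ m ∈ N, 1 ≤ m) →
    R k ≤ N.card + s → K k ⟨N, s, Φ⟩

/-- The number of the steps along `l` below the state `j`. -/
def ct {Λ : Type} [DecidableEq Λ] (dir : ℕ → Λ) (l : Λ) (j : ℕ) : ℕ :=
  ((range j).filter fun i => dir (i + 1) = l).card

section

variable {Λ : Type} [Fintype Λ] [DecidableEq Λ]

/-- The trace of the state `k` is killed by points of multiplicity at most `M` and at least `w` simple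
points as soon as the lengths suffice. -/
def GxP {M : ℕ} (L : Lens M) (Y : SysP Λ) (w k : ℕ) : Prop :=
  ∀ S : Multiset ℕ, (∀ m ∈ S, m ≤ M) → ∀ x : ℕ, w ≤ x → Y.F k ≤ (S.map L.lo).sum + x →
    Y.tr k (S + Multiset.replicate x 1)

/-- The numerical properties of the states `0, …, kt`; `P l k` bounds the trace at the next step along
`l`. -/
structure NumP {M : ℕ} (L : Lens M) (Y : SysP Λ) (E kt : ℕ) (P : Λ → ℕ → ℕ) : Prop where
  hM : 1 ≤ M
  hΛ : Fintype.card Λ ≤ 2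
  hE : 2 * cE L ≤ E
  floor : ∀ l k, k ≤ kt → cE L ≤ P l k
  low : ∀ l k, k ≤ kt → E * P l k ≤ Y.R k
  top : ∀ k, k + 1 ≤ kt → P (Y.dir (k + 1)) (k + 1) = Y.F (k + 1)
  keep : ∀ l k, k + 1 ≤ kt → l ≠ Y.dir (k + 1) → P l (k + 1) ≤ P l k
  slow : ∀ k, k + 1 ≤ kt → E * Y.F (k + 1) ≤ E * P (Y.dir (k + 1)) k + Y.F (k + 1)
  gd : ∀ k, k + 1 ≤ kt → GxP L Y (Y.F (k + 1) / E + 1) (k + 1)

/-- The forced conditions are bounded. -/
def InvP {M : ℕ} (L : Lens M) (P : Λ → ℕ → ℕ) (k : ℕ) (c : Cfg Λ) : Prop :=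
  ∀ l, 2 * M * trT L (c.Φ l) ≤ (2 * M - 1) * P l k

end

/-! ### The concrete system -/

section

variable {Λ : Type} [DecidableEq Λ] {ι : Type} [DecidableEq ι]

/-- The widths of the state `j`. -/
def wS (δ : Λ → ι) (dir : ℕ → Λ) (w₀ : ι → ℕ) (j : ℕ) : ι → ℕ :=
  fun i => w₀ i + ((range j).filter fun t => δ (dir (t + 1)) = i).card

variable [Fintype ι]

/-- The size of the trace of the state `j` on `x_{δ l} = 0`. -/
def hS (δ : Λ → ι) (dir : ℕ → Λ) (σ₀ : ℕ) (w₀ : ι → ℕ) (l : Λ) (j : ℕ) : ℕ :=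
  (Rg (σ₀ + j) (update (wS δ dir w₀ j) (δ l) 0)).card

/-- The size of the trace at the next step along `l`. -/
def pS (δ : Λ → ι) (dir : ℕ → Λ) (σ₀ : ℕ) (w₀ : ι → ℕ) (l : Λ) : ℕ → ℕ
  | 0 => hS δ dir σ₀ w₀ l 0
  | j + 1 => if dir (j + 1) = l then hS δ dir σ₀ w₀ l (j + 1) else pS δ dir σ₀ w₀ l j

/-- The conditions of a configuration. -/
def kindsS [Fintype Λ] (δ : Λ → ι) (c : Cfg Λ) : Multiset (Kind ι) :=
  c.N.map Kind.free + Multiset.replicate c.s (Kind.free 1) +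
    ∑ l, (c.Φ l).map fun x => Kind.forced (δ l) x.1 x.2

/-- Near-exactness of all regions with the widths `w`. -/
def NEr (M E D : ℕ) (w : ι → ℕ) : Prop :=
  ∀ σ, D ≤ σ → σ + D ≤ ∑ i, w i → ∀ x₀, (Rg σ w).card ≤ E * x₀ → NE M x₀ σ w

end

end Pool.Agent.H18.Tk
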