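import Pool.Agent.H18.Tk.StepP
import Pool.Agent.H18.Tj.PhaseT

/-!
# Module P3a (TK): configurations with few points of multiplicity at least two

Compare `clean`, `few` in `Pool/Agent/H18/Tj/PhaseT.lean`.
* `cleanP`: induction on `k`, `step_invP` with `I₀ = 0`.  For `k = 0` (`ct _ _ 0 = 0`): `Φ = 0`, `N = 0`, so
  `s = szP ≥ R 0` and `Y.full`.  Step: `ct dir l (k + 1) = ct dir l k` for `l ≠ d` and `ct dir d (k + 1) = ct dir d k + 1`,
  `Function.iterate_succ_apply`.
* `fewP`: induction on `k`; if `dir k = l` (`k = k' + 1`), the step gives `N = 0` (`top`), then `cleanP` at the state `k' ≥ j0`: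
  `shf^[ct l' k'] = 0` as `ct l' k' ≥ ct l' j0 ≥ M` (`shf_iterate`).  Otherwise the step gives a configuration with at most
  as many points (`keep`: `P l k ≤ P l k'`), and `ct l k' = ct l k > ct l j0`, in particular `k' ≥ j0`.
  (`k = j0` is impossible by `hct`.)
-/

namespace Pool.Agent.H18.Tk

open Finset Function Pool.Agent.H18.Ex Pool.Agent.H18.Tj

theorem ct_succ {Λ : Type} [DecidableEq Λ] (dir : ℕ → Λ) (l : Λ) (j : ℕ) :
    ct dir l (j + 1) = ct dir l j + if dir (j + 1) = l then 1 else 0 := by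
  unfold ct
  rw [Finset.range_add_one, Finset.filter_insert]
  split_ifs with h
  · rw [Finset.card_insert_of_notMem]
    simp
  · simp

theorem ct_mono {Λ : Type} [DecidableEq Λ] (dir : ℕ → Λ) (l : Λ) {i j : ℕ} (h : i ≤ j) :
    ct dir l i ≤ ct dir l j := by
  unfold ct
  exact Finset.card_le_card (Finset.filter_subset_filter _ (Finset.range_subset_range.2 h))

variable {Λ : Type} [Fintype Λ] [DecidableEq Λ]

variable {M : ℕ} {L : Lens M} {Y : SysP Λ} {E kt : ℕ} {P : Λ → ℕ → ℕ}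

private theorem EndP_step0 (H : NumP L Y E kt P) (k : ℕ) (hkt : k + 1 ≤ kt) (c : Cfg Λ)
    (hc : c.OK M) (htr : InvP L P (k + 1) c) (hsz : Y.R (k + 1) ≤ szP L c) :
    ∃ c' : Cfg Λ, c'.OK M ∧ (Y.K k c' → Y.K (k + 1) c) ∧
      InvP L P k c' ∧ Y.R k ≤ szP L c' ∧
      (4 * M * L.lo M * c.N.card ≤ Y.F (k + 1) → c'.N = 0) ∧
      (c.N = 0 → c'.N = 0 ∧ c'.Φ (Y.dir (k + 1)) = shf (c.Φ (Y.dir (k + 1)))) ∧
      (∀ l, l ≠ Y.dir (k + 1) → c'.Φ l = c.Φ l) ∧ c'.N.card ≤ c.N.card := by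
  obtain ⟨c', h1, h2, h3, h4, -, -, h7, h8, -, h10, h11, -⟩ :=
    step_invP H k hkt c hc htr hsz 0 (Multiset.zero_le _)
      (by simpa using room_zeroP H k hkt c htr)
  exact ⟨c', h1, h2, h3, h4, h7, h8, h10, h11⟩

private theorem EndP_shf_zero : shf 0 = 0 := rfl

private theorem EndP_iter_zero (r : ℕ) : shf^[r] 0 = 0 := by
  induction r with
  | zero => rfl
  | succ r ih => rw [Function.iterate_succ_apply, EndP_shf_zero, ih]

private theorem EndP_iter {S : Multiset (ℕ × ℕ)}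
    (hS : ∀ x ∈ S, 1 ≤ x.2 ∧ x.2 ≤ 2 ∧ x.2 ≤ x.1 ∧ x.1 ≤ M) {r : ℕ} (hr : M ≤ r) :
    shf^[r] S = 0 := by
  obtain ⟨t, rfl⟩ := Nat.exists_eq_add_of_le' hr
  rw [Function.iterate_add_apply, shf_iterate hS, EndP_iter_zero]

theorem cleanP (H : NumP L Y E kt P) : ∀ k, k ≤ kt → ∀ c : Cfg Λ, c.OK M → c.N = 0 →
    (∀ l, shf^[ct Y.dir l k] (c.Φ l) = 0) → InvP L P k c → Y.R k ≤ szP L c → Y.K k c := by
  intro k
  induction k with
  | zero =>
    intro _ c _ hN hΦ _ hsz
    have hΦ' : ∀ l, c.Φ l = 0 := by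
      intro l
      have h := hΦ l
      have h0 : ct Y.dir l 0 = 0 := by simp [ct]
      rw [h0] at h
      simpa using h
    have hs : szP L c = c.s := by
      unfold szP nszP
      rw [hN, Finset.sum_eq_zero (fun l _ => by rw [hΦ' l]; simp [flT])]
      simp
    rw [hs] at hsz
    refine Y.full 0 c.N c.s c.Φ (by simp [hN]) ?_
    omega
  | succ k ih =>
    intro hkt c hc hN hΦ htr hsz
    obtain ⟨c', h1, h2, h3, h4, -, h8, h10, -⟩ := EndP_step0 H k hkt c hc htr hsz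
    obtain ⟨hN', hΦ'⟩ := h8 hN
    refine h2 (ih (by omega) c' h1 hN' ?_ h3 h4)
    intro l
    have h := hΦ l
    rw [ct_succ] at h
    by_cases hl : l = Y.dir (k + 1)
    · subst hl
      rw [if_pos rfl, Function.iterate_succ_apply] at h
      rw [hΦ']
      exact h
    · rw [if_neg (fun h' => hl h'.symm), Nat.add_zero] at h
      rw [h10 l hl]
      exact h

theorem fewP (H : NumP L Y E kt P) (j0 : ℕ) (hj0 : ∀ l, M ≤ ct Y.dir l j0) (l : Λ) :
    ∀ k, j0 ≤ k → k ≤ kt → ct Y.dir l j0 < ct Y.dir l k → ∀ c : Cfg Λ, c.OK M →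
      InvP L P k c → Y.R k ≤ szP L c → 4 * M * L.lo M * c.N.card ≤ P l k → Y.K k c := by
  intro k
  induction k with
  | zero =>
    intro _ _ hct
    have h0 : ct Y.dir l 0 = 0 := by simp [ct]
    omega
  | succ k ih =>
    intro hk hkt hct c hc htr hsz hN
    have hjk : j0 ≤ k := by
      by_contra hcon
      have h : j0 = k + 1 := by omega
      rw [h] at hct
      exact lt_irrefl _ hct
    obtain ⟨c', h1, h2, h3, h4, h7, -, -, h11⟩ := EndP_step0 H k hkt c hc htr hsz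
    refine h2 ?_
    by_cases hl : Y.dir (k + 1) = l
    · have hF : 4 * M * L.lo M * c.N.card ≤ Y.F (k + 1) := by
        rw [← H.top k hkt, hl]
        exact hN
      refine cleanP H k (by omega) c' h1 (h7 hF) ?_ h3 h4
      intro l'
      exact EndP_iter (h1.hΦ l') ((hj0 l').trans (ct_mono Y.dir l' hjk))
    · rw [ct_succ, if_neg hl, Nat.add_zero] at hct
      refine ih hjk (by omega) hct c' h1 h3 h4 ?_
      calc 4 * M * L.lo M * c'.N.card ≤ 4 * M * L.lo M * c.N.card := Nat.mul_le_mul_left _ h11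
        _ ≤ P l (k + 1) := hN
        _ ≤ P l k := H.keep l k hkt (fun h => hl h.symm)

end Pool.Agent.H18.Tk
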