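import Pool.Agent.H18.Tk.EndP

/-!
# Module P3b (TK): the two endings

Compare `endA`, `endB` in `Pool/Agent/H18/Tj/PhaseT.lean`.
* `endAP`: induction on `k` from `jE`; for `k = jE` the hypothesis `hs` says `szP < s`, impossible.  Otherwise one step
  (`I₀ = 0`) from `k + 1` to `k ≥ jE`; either `s` is unchanged and the induction hypothesis applies (`Y.count`), or
  `4 M a card N' ≤ P (dir (k + 1)) k` and `fewP` with `l = dir (k + 1)` applies at the state `k ≥ jE` (`ct_mono`).
* `endBP`: induction on `k` from `jE`; for `k = jE`: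
  `b (card N + s) ≥ nszP ≥ szP - M ∑_l trT (Φ l) ≥ R + (b + 2 M) R - 2 M R ≥ b R` (`InvP`, `P l k ≤ R k` by `low` and
  `E ≥ 1`, `hΛ`), so `card N + s ≥ R` (`Y.full`; `b = L.hi M ≥ 1`).  Step: the surplus is unchanged.
-/

namespace Pool.Agent.H18.Tk

open Finset Function Pool.Agent.H18.Ex Pool.Agent.H18.Tj

variable {Λ : Type} [Fintype Λ] [DecidableEq Λ]

variable {M : ℕ} {L : Lens M} {Y : SysP Λ} {E kt : ℕ} {P : Λ → ℕ → ℕ}

theorem endAP (H : NumP L Y E kt P) (j0 jE : ℕ) (hj : j0 ≤ jE) (hj0 : ∀ l, M ≤ ct Y.dir l j0)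
    (hjE : ∀ l, ct Y.dir l j0 < ct Y.dir l jE) :
    ∀ k, jE ≤ k → k ≤ kt → ∀ c : Cfg Λ, c.OK M → InvP L P k c → Y.R k ≤ szP L c →
      szP L c + Y.R jE < c.s + Y.R k → Y.K k c := by
  intro k hk
  induction k, hk using Nat.le_induction with
  | base =>
    intro _ c _ _ _ hs
    exfalso
    have h : c.s ≤ szP L c := by
      unfold szP nszP
      omega
    omega
  | succ k hk ih =>
    intro hkt c hc hinv hsz hs
    have hroom := room_zeroP H k hkt c hinv
    obtain ⟨c', h1, h2, h3, h4, h5, h6, -, -, -, -, -, -⟩ :=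
      step_invP H k hkt c hc hinv hsz 0 (Multiset.zero_le _) (by simpa using hroom)
    have hcount := Y.count k
    rcases h6 with h6 | h6
    · exact h2 (ih (by omega) c' h1 h3 h4 (by omega))
    · refine h2 (fewP H j0 hj0 (Y.dir (k + 1)) k (by omega) (by omega) ?_ c' h1 h3 h4 h6)
      exact lt_of_lt_of_le (hjE _) (ct_mono Y.dir _ hk)

theorem endBP (H : NumP L Y E kt P) (jE : ℕ) :
    ∀ k, jE ≤ k → k ≤ kt → ∀ c : Cfg Λ, c.OK M → InvP L P k c →
      Y.R k + (L.hi M + 2 * M) * Y.R jE ≤ szP L c → Y.K k c := by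
  intro k hk
  induction k, hk using Nat.le_induction with
  | base =>
    intro hkt c hc hinv hsz
    refine Y.full jE c.N c.s c.Φ (fun m hm => le_trans (by norm_num) (hc.hN m hm).1) ?_
    have hM := H.hM
    have hb : 1 ≤ L.hi M := L.hi_pos hM
    have hE1 : 1 ≤ E := by
      refine le_trans ?_ H.hE
      have h0 : 0 < cE L := by
        unfold cE
        positivity
      omega
    have hfl : ∀ l, flT L (c.Φ l) ≤ M * Y.R jE := by
      intro l
      have hPR : P l jE ≤ Y.R jE :=
        le_trans (Nat.le_mul_of_pos_left _ hE1) (H.low l jE hkt)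
      have hT : trT L (c.Φ l) ≤ P l jE := by
        have h1 : (2 * M) * trT L (c.Φ l) ≤ (2 * M) * P l jE :=
          le_trans (hinv l) (Nat.mul_le_mul_right _ (Nat.sub_le _ _))
        exact Nat.le_of_mul_le_mul_left h1 (by omega)
      exact le_trans (flT_le L (c.Φ l) (hc.hΦ l)) (Nat.mul_le_mul_left _ (hT.trans hPR))
    have hflsum : ∑ l, flT L (c.Φ l) ≤ 2 * M * Y.R jE := by
      have h1 : ∑ l, flT L (c.Φ l) ≤ (Finset.univ : Finset Λ).card • (M * Y.R jE) :=
        Finset.sum_le_card_nsmul _ _ _ fun l _ => hfl l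
      rw [Finset.card_univ, smul_eq_mul] at h1
      have h2 : Fintype.card Λ * (M * Y.R jE) ≤ 2 * (M * Y.R jE) :=
        Nat.mul_le_mul_right _ H.hΛ
      rw [mul_assoc]
      exact h1.trans h2
    have hN : (c.N.map L.hi).sum ≤ L.hi M * c.N.card := by
      have h1 : (c.N.map L.hi).sum ≤ (c.N.map L.hi).card • L.hi M := by
        refine Multiset.sum_le_card_nsmul _ _ ?_
        intro x hx
        obtain ⟨m, hm, rfl⟩ := Multiset.mem_map.1 hx
        exact L.hi_mono (hc.hN m hm).2
      rw [Multiset.card_map, smul_eq_mul, mul_comm] at h1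
      exact h1
    have hsum : Y.R jE + (L.hi M + 2 * M) * Y.R jE ≤
        L.hi M * c.N.card + c.s + 2 * M * Y.R jE := by
      refine le_trans hsz ?_
      unfold szP nszP
      omega
    have h2 : L.hi M * Y.R jE ≤ L.hi M * (c.N.card + c.s) := by
      have h3 : c.s ≤ L.hi M * c.s := Nat.le_mul_of_pos_left _ hb
      nlinarith
    exact Nat.le_of_mul_le_mul_left h2 hb
  | succ k hk ih =>
    intro hkt c hc hinv hsz
    have hsz1 : Y.R (k + 1) ≤ szP L c := le_trans (Nat.le_add_right _ _) hsz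
    have hroom := room_zeroP H k hkt c hinv
    obtain ⟨c', h1, h2, h3, h4, h5, -, -, -, -, -, -, -⟩ :=
      step_invP H k hkt c hc hinv hsz1 0 (Multiset.zero_le _) (by simpa using hroom)
    have hcount := Y.count k
    exact h2 (ih (by omega) c' h1 h3 (by omega))

end Pool.Agent.H18.Tk
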