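import Pool.Agent.H18.Tk.Defs
import Pool.Agent.H18.Ex.Box

/-!
# Module C11 (TK): sizes

* `card_small`: `card_le_prod` (`Pool/Agent/H18/Ex/Box.lean`); split off the factors for `l`, `l'`, and `min (w i) σ ≤ w i`.
* `facet_big`: `box_lower` (same file) with `D = 1` and `N + 1` = the number of the active coordinates (`≥ 3`, as `o`, `l`, `l'`
  are active; `w o ≥ w l'`): `∏_{i active, ≠ o, l} w i ≤ N ^ (N - 1) fc σ w l`.  The factor for `l'` is `w l'`; for the other
  active `i` we have `w i + 1 ≤ 2 w i`, the inactive ones contribute `1`; there are at most `q` factors, and `N ≤ q`.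
-/

namespace Pool.Agent.H18.Tk

open Finset Function Pool.Agent.H18.Ex Pool.Agent.H18.Tj

variable {ι : Type} [Fintype ι] [DecidableEq ι]

theorem card_small (o l l' : ι) (hlo : l ≠ o) (hl'o : l' ≠ o) (hll' : l ≠ l') (σ : ℕ)
    (w : ι → ℕ) : (Rg σ w).card ≤ (min (w l) σ + 1) * (min (w l') σ + 1) *
      ∏ i ∈ univ.filter (fun i => i ≠ o ∧ i ≠ l ∧ i ≠ l'), (w i + 1) := by
  refine (card_le_prod o σ w).trans ?_
  have h1 : l ∈ univ.erase o := mem_erase.2 ⟨hlo, mem_univ _⟩
  have h2 : l' ∈ (univ.erase o).erase l := mem_erase.2 ⟨hll'.symm, mem_erase.2 ⟨hl'o, mem_univ _⟩⟩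
  rw [← mul_prod_erase _ _ h1, ← mul_prod_erase _ _ h2, mul_assoc]
  refine Nat.mul_le_mul_left _ (Nat.mul_le_mul_left _ ?_)
  have h3 : ((univ.erase o).erase l).erase l' =
      univ.filter (fun i => i ≠ o ∧ i ≠ l ∧ i ≠ l') := by
    ext i
    simp only [mem_erase, mem_univ, mem_filter, true_and, and_true]
    tauto
  rw [h3]
  exact prod_le_prod (fun _ _ => Nat.zero_le _) fun i _ => by
    have := min_le_left (w i) σ
    omega

theorem facet_big {q : ℕ} (hq : Fintype.card ι ≤ q) (o l l' : ι) (hlo : l ≠ o) (hl'o : l' ≠ o)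
    (hll' : l ≠ l') (σ : ℕ) (w : ι → ℕ) (hwo : ∀ i, w i ≤ w o) (hwσ : ∀ i, w i ≤ σ)
    (h2 : 2 * σ ≤ ∑ i, w i) (hl : 0 < w l) (hl' : 0 < w l') :
    w l' * ∏ i ∈ univ.filter (fun i => i ≠ o ∧ i ≠ l ∧ i ≠ l'), (w i + 1) ≤
      (2 * q) ^ q * fc σ w l := by
  have ho : 0 < w o := hl.trans_le (hwo l)
  -- the active coordinates
  have hA3 : 3 ≤ (univ.filter fun i => 0 < w i).card := by
    have hsub : ({o, l, l'} : Finset ι) ⊆ univ.filter fun i => 0 < w i := by
      intro i hi
      simp only [mem_insert, mem_singleton] at hi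
      simp only [mem_filter, mem_univ, true_and]
      rcases hi with rfl | rfl | rfl <;> assumption
    have hc : ({o, l, l'} : Finset ι).card = 3 := by
      rw [card_insert_of_notMem, card_insert_of_notMem, card_singleton]
      · simpa using hll'
      · simp only [mem_insert, mem_singleton, not_or]
        exact ⟨hlo.symm, hl'o.symm⟩
    rw [← hc]
    exact card_le_card hsub
  obtain ⟨N, hN⟩ : ∃ N, (univ.filter fun i => 0 < w i).card = N + 1 :=
    ⟨(univ.filter fun i => 0 < w i).card - 1, by omega⟩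
  have hN2 : 2 ≤ N := by omega
  have hNq : N + 1 ≤ q := by
    rw [← hN]
    exact (card_le_univ _).trans hq
  have hNrm : Nrm N 1 o σ w := ⟨hN, ho, hwo, hwσ, h2, fun i hi => hi⟩
  have hbox := box_lower N hN2 1 o l σ w hNrm hlo hl
  -- split off `l'`
  have hl'mem : l' ∈ univ.filter (fun i => 0 < w i ∧ i ≠ o ∧ i ≠ l) := by
    simp only [mem_filter, mem_univ, true_and]
    exact ⟨hl', hl'o, hll'.symm⟩
  rw [← mul_prod_erase _ _ hl'mem] at hbox
  set P := (univ.filter (fun i => 0 < w i ∧ i ≠ o ∧ i ≠ l)).erase l' with hP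
  have hPcard : P.card ≤ N := by
    have h1 : P.card ≤ ((univ.filter fun i => 0 < w i)).card - 1 := by
      have hs : P ⊆ (univ.filter fun i => 0 < w i).erase l := by
        intro i hi
        simp only [hP, mem_erase, mem_filter, mem_univ, true_and] at hi ⊢
        exact ⟨hi.2.2.2, hi.2.1⟩
      have hlm : l ∈ univ.filter fun i => 0 < w i := by
        simp only [mem_filter, mem_univ, true_and]
        exact hl
      rw [← card_erase_of_mem hlm]
      exact card_le_card hs
    omega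
  have hprod : ∏ i ∈ univ.filter (fun i => i ≠ o ∧ i ≠ l ∧ i ≠ l'), (w i + 1) =
      ∏ i ∈ P, (w i + 1) := by
    symm
    refine prod_subset ?_ ?_
    · intro i hi
      simp only [hP, mem_erase, mem_filter, mem_univ, true_and] at hi ⊢
      exact ⟨hi.2.2.1, hi.2.2.2, hi.1⟩
    · intro i hi hi'
      simp only [hP, mem_erase, mem_filter, mem_univ, true_and] at hi hi'
      have h0 : w i = 0 := by
        by_contra hne
        exact hi' ⟨hi.2.2, Nat.pos_of_ne_zero hne, hi.1, hi.2.1⟩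
      rw [h0, zero_add]
  have hP2 : ∏ i ∈ P, (w i + 1) ≤ 2 ^ N * ∏ i ∈ P, w i := by
    calc ∏ i ∈ P, (w i + 1) ≤ ∏ i ∈ P, (2 * w i) := by
          refine prod_le_prod (fun _ _ => Nat.zero_le _) fun i hi => ?_
          simp only [hP, mem_erase, mem_filter, mem_univ, true_and] at hi
          have := hi.2.1
          omega
      _ = 2 ^ P.card * ∏ i ∈ P, w i := by rw [prod_mul_distrib, prod_const]
      _ ≤ 2 ^ N * ∏ i ∈ P, w i :=
          Nat.mul_le_mul_right _ (Nat.pow_le_pow_right (by norm_num) hPcard)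
  rw [hprod]
  calc w l' * ∏ i ∈ P, (w i + 1) ≤ w l' * (2 ^ N * ∏ i ∈ P, w i) :=
        Nat.mul_le_mul_left _ hP2
    _ = 2 ^ N * (w l' * ∏ i ∈ P, w i) := by ring
    _ ≤ 2 ^ N * (N ^ (N - 1) * fc σ w l) := Nat.mul_le_mul_left _ hbox
    _ = 2 ^ N * N ^ (N - 1) * fc σ w l := by ring
    _ ≤ (2 * q) ^ q * fc σ w l := by
        refine Nat.mul_le_mul_right _ ?_
        rw [mul_pow]
        refine Nat.mul_le_mul (Nat.pow_le_pow_right (by norm_num) (by omega)) ?_
        calc N ^ (N - 1) ≤ q ^ (N - 1) := Nat.pow_le_pow_left (by omega) _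
          _ ≤ q ^ q := Nat.pow_le_pow_right (by omega) (by omega)

end Pool.Agent.H18.Tk
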