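import Pool.Agent.H18.Tk.Defs
import Pool.Agent.H18.Ex.Refl

/-!
# Module C5 (TK): the bottom slab

The region `Rg (σ - t) (update w l (w l - t))` is in bijection with `{a ∈ Rg σ w : t ≤ a l}` (subtract `t e_l`), and by
`a ↦ w - a` (`refl_mem`, `refl_mem'`, `refl_refl` in `Pool/Agent/H18/Ex/Refl.lean`) with
`{a ∈ Rg (∑ w - σ) w : a l < w l - t + 1}`.  Apply `frac` (`Pool/Agent/H18/Ex/Frac.lean`) with `N = q`, `v = w l`,
`k = w l - t + 1` (`w l ≤ σ ≤ ∑ w - σ`), and `card_reflect`.
-/

namespace Pool.Agent.H18.Tk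

open Finset Function Pool.Agent.H18.Ex Pool.Agent.H18.Tj

variable {ι : Type} [Fintype ι] [DecidableEq ι]

theorem slab {q : ℕ} (hq : Fintype.card ι ≤ q) (l : ι) (σ : ℕ) (w : ι → ℕ) (t : ℕ)
    (ht : t ≤ w l) (hwσ : w l ≤ σ) (h2 : 2 * σ ≤ ∑ i, w i) (hk : 2 * (w l - t + 1) ≤ w l) :
    (Rg (σ - t) (update w l (w l - t))).card * w l ≤
      2 * q ^ 2 * (w l - t + 1) * (Rg σ w).card := by
  classical
  have hq1 : 1 ≤ q := by
    have h : 0 < Fintype.card ι := Fintype.card_pos_iff.2 ⟨l⟩
    omega
  have hcard : (univ.filter fun i => 0 < w i).card ≤ q + 1 := by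
    have h := card_filter_le (univ : Finset ι) (fun i => 0 < w i)
    rw [card_univ] at h
    omega
  have hmem : ∀ b ∈ Rg (σ - t) (update w l (w l - t)), update b l (b l + t) ∈ Rg σ w := by
    intro b hb
    rw [mem_Rg] at hb ⊢
    obtain ⟨hb1, hb2⟩ := hb
    constructor
    · intro i
      have h3 := hb1 i
      by_cases hi : i = l
      · subst hi
        rw [update_self] at h3 ⊢
        omega
      · rw [update_of_ne hi] at h3 ⊢
        exact h3
    · have h3 := sum_update_of_mem (mem_univ l) b (b l + t)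
      have h4 := sum_update_of_mem (mem_univ l) b (b l)
      rw [update_eq_self] at h4
      omega
  have hle : (Rg (σ - t) (update w l (w l - t))).card ≤
      ((Rg (∑ i, w i - σ) w).filter fun x => x l < w l - t + 1).card := by
    refine card_le_card_of_injOn (fun b i => w i - update b l (b l + t) i) ?_ ?_
    · intro b hb
      have hb' : b ∈ Rg (σ - t) (update w l (w l - t)) := hb
      refine mem_coe.2 (mem_filter.2 ⟨refl_mem (hmem b hb'), ?_⟩)
      change w l - update b l (b l + t) l < w l - t + 1
      rw [update_self]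
      omega
    · intro b hb b' hb' h
      have hb1 : b ∈ Rg (σ - t) (update w l (w l - t)) := hb
      have hb1' : b' ∈ Rg (σ - t) (update w l (w l - t)) := hb'
      have h3 := (mem_Rg.1 (hmem b hb1)).1
      have h4 := (mem_Rg.1 (hmem b' hb1')).1
      funext i
      have h5 : w i - update b l (b l + t) i = w i - update b' l (b' l + t) i := congrFun h i
      have h6 := h3 i
      have h7 := h4 i
      by_cases hi : i = l
      · subst hi
        rw [update_self] at h5 h6 h7
        rw [update_self] at h5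
        omega
      · rw [update_of_ne hi] at h5 h6 h7
        rw [update_of_ne hi] at h5
        omega
  have h3 := frac q hq1 (∑ i, w i - σ) w l (w l - t + 1) (w l) hcard le_rfl (by omega) hk
  rw [card_reflect σ w (by omega)] at h3
  exact (Nat.mul_le_mul_right _ hle).trans h3

/-- The facets have margins in normalised regions. -/
theorem margin_nrm (l o : ι) (hlo : l ≠ o) (σ : ℕ) (w : ι → ℕ) (hwo : ∀ i, w i ≤ w o)
    (h2 : 2 * σ ≤ ∑ i, w i) (u : ι) (huo : u ≠ o) (hul : u ≠ l) :
    2 * σ + w u ≤ 2 * ∑ i, update w l 0 i := by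
  have h3 := sum_update_of_mem (mem_univ l) w 0
  have h4 := sum_update_of_mem (mem_univ l) w (w l)
  rw [update_eq_self] at h4
  have h5 : w o + w u ≤ ∑ x ∈ univ \ {l}, w x := by
    have h6 : ({o, u} : Finset ι) ⊆ univ \ {l} := by
      intro x hx
      rw [mem_insert, mem_singleton] at hx
      rw [mem_sdiff, mem_singleton]
      refine ⟨mem_univ _, ?_⟩
      rcases hx with rfl | rfl
      · exact fun h => hlo h.symm
      · exact hul
    have h7 := sum_le_sum_of_subset (f := w) h6
    rwa [sum_pair huo.symm] at h7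
  have h8 := hwo l
  omega

end Pool.Agent.H18.Tk
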