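import Pool.Agent.H18.Tk.NumS
import Pool.Agent.H18.Tk.MainPT
import Pool.Agent.H18.Tk.Slab
import Pool.Agent.H18.Tk.ChooseN
import Pool.Agent.H18.Tk.Bres
import Pool.Agent.H18.Tk.SizeK

/-!
# Module C12 (TK): exactness of normalised regions with three long coordinates

`B = bK q M E' D'`, `Q = 2 q³ E'`, `C = cQ q M (2 q)^q`, `X = M^(q + 1) + 1`; `n1, n2, a, b, s` from `choose_n` for `w l1`,
`w l2`, `σ`; `n = n1 + n2`, `p = n / n1 + 3`.  The path of `sysC` with `Λ = Bool`, `δ true = l1`, `δ false = l2`, `dir = dirB n1 n`,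
`w₀ = update (update w l1 a) l2 b`, `σ₀ = s`, `kt = n + (M + 1)`: its state `kt` is `Rg σ w` (`wS_apply`, `wS_other`,
`ctB_top`).
* `num_sysC` with `E := E'`, `D := D'`, `l₁ = true`, `u true = l2`, `u false = l1`: `hlo`: `w (δ l) ≤ w o`; `hmar`:
  `margin_nrm` with `u`, `w (u l) ≥ w l1 ≥ 2 B`; `hwin`: `windowB`, `2 Q ≤ B`, `Q (n / n1) ≤ b, s`; `hex`: the coordinates `o` and
  `δ d'`, `d' ≠ d = dir (j + 1)`, have width at least `B ≥ D'` (`le_wS`).
* `exact_of_path` with `j0 = M p`, `jE = (M + 1) p`, `l₁ = true` (`tailB`; `hpre`: `i > n`).  `hC`: with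
  `Π = ∏_{i ≠ o, l1, l2} (w i + 1)`: `R jE ≤ (min (a + 4 (M + 1)) (s + jE) + 1) (min b s + jE + 1) Π` by `card_small` (`ctB_end`,
  `ct false jE ≤ jE`, `min (b + jE) (s + jE) = min b s + jE`; the widths `wS jE i` for `i ≠ l1, l2` are `w i`);
  `F kt = fc σ w l1`, `w l2 Π ≤ (2 q)^q F kt` (`facet_big`); `cE L ≤ cQ q M` (`cE_le`), `hi M ≤ M^q ≤ M^(q+1)` (`hi_wS`, `Lx_le_pow`);
  so `(2 q)^q cE L (R jE + hi M + 1) ≤ C (… + X) Π ≤ w l2 Π ≤ (2 q)^q F kt`.
* `NE M 0 σ w`: apply the result to `S + replicate x 1` (`Lx_one`), `hi m = Lx w m` (`hi_wS` at the state `kt`).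
-/

namespace Pool.Agent.H18.Tk

open Finset Function Pool.Agent.H18.Ex Pool.Agent.H18.Tj

variable {ι : Type} [Fintype ι] [DecidableEq ι]

/-- The bound. -/
def dN (q M E' D' : ℕ) : ℕ :=
  dC (bK q M E' D') (cQ q M * (2 * q) ^ q) (M ^ (q + 1) + 1)

theorem exact_nrm {q M E' D' : ℕ} (hq : Fintype.card ι ≤ q) (hM : 1 ≤ M) (o l1 l2 : ι)
    (h1o : l1 ≠ o) (h2o : l2 ≠ o) (hll : l1 ≠ l2) (w : ι → ℕ) (σ : ℕ) (hwo : ∀ i, w i ≤ w o)
    (hwσ : ∀ i, w i ≤ σ) (h2 : 2 * σ ≤ ∑ i, w i) (hE' : 2 * cQ q M ≤ E')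
    (hle : w l1 ≤ w l2) (hl : dN q M E' D' ≤ w l1)
    (hex : ∀ h c : ι, h ≠ c → ∀ w' : ι → ℕ, D' ≤ w' h → D' ≤ w' c → NEr M E' D' w') :
    NE M 0 σ w := by
  classical
  set B := bK q M E' D' with hBdef
  set Q := 2 * q ^ 3 * E' with hQdef
  have hQB : 2 * Q ≤ B := by
    rw [hBdef, hQdef]
    unfold bK
    have : 2 * (2 * q ^ 3 * E') = 4 * q ^ 3 * E' := by ring
    omega
  have hMB : M + 1 ≤ B := by
    rw [hBdef]
    unfold bK
    omega
  have hDB : D' ≤ B := by
    rw [hBdef]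
    unfold bK
    omega
  have h100 : 100 * B ≤ w l1 := by
    refine le_trans ?_ hl
    unfold dN dC
    omega
  obtain ⟨n1, n2, a, b, s, ha, hb, hs, hn1, hn12, hBa, hBb, hBs, hQb, hQs, hMn, hCw⟩ :=
    choose_n M B Q (cQ q M * (2 * q) ^ q) (M ^ (q + 1) + 1) (w l1) (w l2) σ hQB hMB hl hle
      (hwσ l2)
  obtain ⟨kt, hkt⟩ : ∃ kt, kt = n1 + n2 + (M + 1) := ⟨_, rfl⟩
  obtain ⟨p, hp⟩ : ∃ p, p = (n1 + n2) / n1 + 3 := ⟨_, rfl⟩
  rw [← hp] at hMn hCw
  -- the system
  let δ : Bool → ι := fun t => if t = true then l1 else l2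
  have hδ1 : δ true = l1 := by simp [δ]
  have hδ2 : δ false = l2 := by simp [δ]
  have hδ : Injective δ := by
    intro x y hxy
    cases x <;> cases y
    · rfl
    · rw [hδ1, hδ2] at hxy
      exact absurd hxy.symm hll
    · rw [hδ1, hδ2] at hxy
      exact absurd hxy hll
    · rfl
  let u : Bool → ι := fun t => if t = true then l2 else l1
  have hu1 : u true = l2 := by simp [u]
  have hu2 : u false = l1 := by simp [u]
  have hδo : ∀ l, δ l ≠ o := by
    intro l
    cases l
    · rw [hδ2]; exact h2o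
    · rw [hδ1]; exact h1o
  have huo : ∀ l, o ≠ u l := by
    intro l
    cases l
    · rw [hu2]; exact h1o.symm
    · rw [hu1]; exact h2o.symm
  have huδ : ∀ l, u l ≠ δ l := by
    intro l
    cases l
    · rw [hu2, hδ2]; exact hll
    · rw [hu1, hδ1]; exact hll.symm
  obtain ⟨w₀, hw₀⟩ : ∃ w₀ : ι → ℕ, w₀ = update (update w l1 a) l2 b := ⟨_, rfl⟩
  have hw1 : w₀ l1 = a := by
    rw [hw₀, update_of_ne hll, update_self]
  have hw2 : w₀ l2 = b := by
    rw [hw₀, update_self]
  have hwi : ∀ i, i ≠ l1 → i ≠ l2 → w₀ i = w i := by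
    intro i hi1 hi2
    rw [hw₀, update_of_ne hi2, update_of_ne hi1]
  have hwo' : w₀ o = w o := hwi o h1o.symm h2o.symm
  set dir := dirB n1 (n1 + n2) with hdir
  have hnpos : 0 < n1 + n2 := by omega
  have htop := ctB_top (n1 := n1) (n := n1 + n2) hnpos (by omega) (M + 1)
  rw [← hdir, ← hkt] at htop
  have hS1 : ∀ j, wS δ dir w₀ j l1 = a + ct dir true j := by
    intro j
    have h := wS_apply hδ dir w₀ true j
    rw [hδ1, hw1] at h
    exact h
  have hS2 : ∀ j, wS δ dir w₀ j l2 = b + ct dir false j := by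
    intro j
    have h := wS_apply hδ dir w₀ false j
    rw [hδ2, hw2] at h
    exact h
  have hSi : ∀ j i, i ≠ l1 → i ≠ l2 → wS δ dir w₀ j i = w i := by
    intro j i hi1 hi2
    rw [wS_other dir w₀ (fun l => ?_) j, hwi i hi1 hi2]
    cases l
    · rw [hδ2]; exact hi2.symm
    · rw [hδ1]; exact hi1.symm
  have hStop : wS δ dir w₀ kt = w := by
    funext i
    by_cases hi1 : i = l1
    · subst hi1
      rw [hS1, htop.1]
      omega
    · by_cases hi2 : i = l2
      · subst hi2
        rw [hS2, htop.2]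
        omega
      · exact hSi kt i hi1 hi2
  have hσ : s + kt = σ := by omega
  have hdirtop : ∀ i, kt ≤ i + M → i ≤ kt → dir i = true := by
    intro i hi1 hi2
    rw [hdir]
    unfold dirB
    rw [if_pos (by omega)]
  have hBo : B ≤ w₀ o := by
    rw [hwo']
    have := hwo l1
    omega
  have hBδ : ∀ l, B ≤ w₀ (δ l) := by
    intro l
    cases l
    · rw [hδ2, hw2]; exact hBb
    · rw [hδ1, hw1]; exact hBa
  have hBu : ∀ l, B ≤ w₀ (u l) := by
    intro l
    cases l
    · rw [hu2, hw1]; exact hBa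
    · rw [hu1, hw2]; exact hBb
  have h1 : M ≤ update w₀ (δ true) 0 o := by
    rw [update_of_ne (hδo true).symm]
    omega
  have h2' : M ≤ update w₀ (δ true) 0 (u true) := by
    rw [update_of_ne (huδ true)]
    have := hBu true
    omega
  have H := num_sysC hq hM (Λ := Bool) (kt := kt) (E := E') (D := D') (by simp) δ hδ dir s w₀ true
    o u hδo huo huδ hE' hBs hBo hBu hBδ
    (by
      intro l
      rw [hStop, hwo']
      exact hwo _)
    (by
      intro l
      rw [hStop, hσ]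
      have h3 := margin_nrm (δ l) o (hδo l) σ w hwo h2 (u l) (huo l).symm (huδ l)
      have h4 : w l1 ≤ w (u l) := by
        cases l
        · rw [hu2]
        · rw [hu1]; exact hle
      change σ + B ≤ _
      omega)
    (by
      intro j _ i hij hct l
      have h3 := windowB hn1 hn12 i j hij hct
      rw [← hdir] at h3
      change Q * _ ≤ _ ∧ Q * _ ≤ _
      cases l
      · rw [hδ2, hw2]
        exact ⟨(Nat.mul_le_mul_left _ h3.2).trans hQb, (Nat.mul_le_mul_left _ h3.2).trans hQs⟩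
      · rw [hδ1, hw1]
        have h4 : Q * (ct dir true (j + 1) - ct dir true i) ≤ Q * 2 :=
          Nat.mul_le_mul_left _ h3.1
        have h5 : Q * 2 ≤ B := by omega
        exact ⟨h4.trans (h5.trans hBa), h4.trans (h5.trans hBs)⟩)
    (by
      intro j _
      refine hex o (u (dir (j + 1))) (huo _) _ ?_ ?_
      · rw [update_of_ne (hδo _).symm]
        exact hDB.trans (hBo.trans (le_wS δ dir w₀ _ _))
      · rw [update_of_ne (huδ _)]
        exact hDB.trans ((hBu _).trans (le_wS δ dir w₀ _ _)))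
    h1 h2'
  have hhi : ∀ m ≤ M, (lensOf M (update w₀ (δ true) 0) o (u true) (huo true) h1 h2').hi m =
      Lx w m := by
    intro m hm
    rw [hi_wS hδ dir w₀ (fun l => le_trans (by omega) (hBδ l)) hm true kt o (u true) (huo true)
      h1 h2', hStop]
  have hRkt : (sysC δ hδ dir s w₀).R kt = (Rg σ w).card := by
    change (Rg (s + kt) (wS δ dir w₀ kt)).card = _
    rw [hStop, hσ]
  have hFkt : (sysC δ hδ dir s w₀).F kt = fc σ w l1 := by
    change (Rg (s + kt) (update (wS δ dir w₀ kt) (δ (dir kt)) 0)).card = _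
    rw [hStop, hσ, hdirtop kt (by omega) le_rfl, hδ1]
    rfl
  have hq1 : 1 ≤ q := le_trans (Fintype.card_pos_iff.2 ⟨o⟩) hq
  have hC : cE (lensOf M (update w₀ (δ true) 0) o (u true) (huo true) h1 h2') *
      ((sysC δ hδ dir s w₀).R ((M + 1) * p) +
        (lensOf M (update w₀ (δ true) 0) o (u true) (huo true) h1 h2').hi M + 1) ≤
      (sysC δ hδ dir s w₀).F kt := by
    rw [hFkt, hhi M le_rfl]
    have h3 := cE_le hM hq (update w₀ (δ true) 0) o (u true) (huo true) h1 h2'
    have h4 : Lx w M ≤ M ^ (q + 1) := by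
      have h6 := Lx_le_pow (w := w) hq ⟨o⟩ (le_refl M) hM
      refine h6.trans ?_
      exact Nat.pow_le_pow_right hM (by omega)
    obtain ⟨T0, hT0⟩ : ∃ T0, T0 = ∏ i ∈ univ.filter (fun i => i ≠ o ∧ i ≠ l1 ∧ i ≠ l2), (w i + 1) :=
      ⟨_, rfl⟩
    have hT1 : 1 ≤ T0 := by
      rw [hT0]
      exact Finset.prod_pos fun i _ => Nat.succ_pos _
    have h5 : (sysC δ hδ dir s w₀).R ((M + 1) * p) ≤
        (min (a + 4 * (M + 1)) (s + (M + 1) * p) + 1) * (min b s + (M + 1) * p + 1) * T0 := by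
      have h6 := card_small o l1 l2 h1o h2o hll (s + (M + 1) * p) (wS δ dir w₀ ((M + 1) * p))
      have h7 : ∏ i ∈ univ.filter (fun i => i ≠ o ∧ i ≠ l1 ∧ i ≠ l2),
          (wS δ dir w₀ ((M + 1) * p) i + 1) = T0 := by
        rw [hT0]
        refine Finset.prod_congr rfl fun i hi => ?_
        have h8 := (Finset.mem_filter.1 hi).2
        rw [hSi _ i h8.2.1 h8.2.2]
      rw [h7, hS1, hS2] at h6
      change (Rg (s + (M + 1) * p) (wS δ dir w₀ ((M + 1) * p))).card ≤ _
      refine h6.trans (Nat.mul_le_mul_right _ (Nat.mul_le_mul ?_ ?_))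
      · have h9 := ctB_end (n1 := n1) (n2 := n2) M hn1 (by rw [← hp]; exact hMn)
        rw [← hp, ← hdir] at h9
        omega
      · have h9 : ct dir false ((M + 1) * p) ≤ (M + 1) * p := by
          unfold ct
          refine (Finset.card_filter_le _ _).trans ?_
          rw [Finset.card_range]
        omega
    have h6 := facet_big hq o l1 l2 h1o h2o hll σ w hwo hwσ h2 (by omega) (by omega)
    rw [← hT0] at h6
    refine Nat.le_of_mul_le_mul_left (c := (2 * q) ^ q) ?_ (by positivity)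
    refine le_trans ?_ h6
    refine le_trans ?_ (Nat.mul_le_mul_right T0 hCw)
    have h7 : (sysC δ hδ dir s w₀).R ((M + 1) * p) + Lx w M + 1 ≤
        ((min (a + 4 * (M + 1)) (s + (M + 1) * p) + 1) * (min b s + (M + 1) * p + 1) +
          (M ^ (q + 1) + 1)) * T0 := by
      have h8 : M ^ (q + 1) + 1 ≤ (M ^ (q + 1) + 1) * T0 := Nat.le_mul_of_pos_right _ hT1
      rw [add_mul _ (M ^ (q + 1) + 1) T0]
      omega
    calc (2 * q) ^ q * (cE (lensOf M (update w₀ (δ true) 0) o (u true) (huo true) h1 h2') *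
          ((sysC δ hδ dir s w₀).R ((M + 1) * p) + Lx w M + 1))
        ≤ (2 * q) ^ q * (cQ q M *
          (((min (a + 4 * (M + 1)) (s + (M + 1) * p) + 1) * (min b s + (M + 1) * p + 1) +
          (M ^ (q + 1) + 1)) * T0)) := Nat.mul_le_mul_left _ (Nat.mul_le_mul h3 h7)
      _ = _ := by ring
  unfold NE
  intro S hS x _ hsum
  have hS' : ∀ m ∈ S + Multiset.replicate x 1, m ≤ M := by
    intro m hm
    rcases Multiset.mem_add.1 hm with h | h
    · exact hS m h
    · rw [Multiset.eq_of_mem_replicate h]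
      exact hM
  have htail := fun l => tailB (n1 := n1) (n2 := n2) M hn1 hn12 (by rw [← hp]; exact hMn) l
  rw [← hp, ← hdir] at htail
  have hmain := exact_of_path H true (M * p) ((M + 1) * p) (Nat.mul_le_mul_right _ (by omega))
    (by omega) (fun l => (htail l).1) (fun l => (htail l).2) hdirtop hC
    (S + Multiset.replicate x 1) hS' (by
      rw [hRkt]
      have h3 : ((S + Multiset.replicate x 1).map
          (lensOf M (update w₀ (δ true) 0) o (u true) (huo true) h1 h2').hi).sum =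
          ((S + Multiset.replicate x 1).map (Lx w)).sum := by
        congr 1
        exact Multiset.map_congr rfl fun m hm => hhi m (hS' m hm)
      rw [h3, Multiset.map_add, Multiset.sum_add, Multiset.map_replicate, Lx_one,
        Multiset.sum_replicate, smul_eq_mul, mul_one]
      exact hsum)
  have hK : GM (Rg (s + kt) (wS δ dir w₀ kt))
      (kindsS δ (⟨S + Multiset.replicate x 1, 0, fun _ => 0⟩ : Cfg Bool)) := hmain
  rw [hStop, hσ] at hK
  have hk : kindsS δ (⟨S + Multiset.replicate x 1, 0, fun _ => 0⟩ : Cfg Bool) =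
      (S + Multiset.replicate x 1).map Kind.free := by
    unfold kindsS
    simp
  rw [hk] at hK
  exact hK

end Pool.Agent.H18.Tk
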