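import Pool.Agent.H18.Tk.NearGen
import Pool.Agent.H18.Tk.ExactN

/-!
# Module C14 (TK): exactness of regions with three long coordinates

`near_gen` with `n = q`, `E = 2 cQ q` gives `D'`; `D` is the sum of `dN q M E' D'`, `M`, `1`.  `normalise` (with `h = a`, `c = b`), then
`exact_nrm` with `o` a coordinate of maximal width and two of the three coordinates `a, b, c` different from `o`, ordered
by width.
-/

namespace Pool.Agent.H18.Tk

open Finset Function Pool.Agent.H18.Ex Pool.Agent.H18.Pr Pool.Agent.H18.Tj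

variable {ι : Type} [Fintype ι] [DecidableEq ι]

theorem exact_gen (q : ℕ) (hq : Fintype.card ι ≤ q) :
    ∃ D : ℕ → ℕ, Pr.PolyB D ∧ ∀ M, 1 ≤ M → ∀ a b c : ι, a ≠ b → b ≠ c → a ≠ c →
    ∀ (w : ι → ℕ) (σ : ℕ), D M ≤ w a → D M ≤ w b → D M ≤ w c → D M ≤ σ →
      σ + D M ≤ ∑ i, w i → NE M 0 σ w := by
  have hE' : Pr.PolyB fun M => 2 * cQ q M := (Pr.PolyB.const 2).mul (polyB_cQ q)
  obtain ⟨D', hD', H⟩ := near_gen (ι := ι) q hq q (fun M => 2 * cQ q M) hE'
  refine ⟨fun M => dN q M (2 * cQ q M) (D' M) + M + 1, ?_, ?_⟩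
  · have h1 : Pr.PolyB fun M => dN q M (2 * cQ q M) (D' M) := by
      unfold dN
      exact polyB_dC (polyB_bK q hE' hD') ((polyB_cQ q).mul (Pr.PolyB.const _))
        ((Pr.PolyB.id.pow (q + 1)).add (Pr.PolyB.const 1))
    exact (h1.add Pr.PolyB.id).add (Pr.PolyB.const 1)
  · intro M hM a b c hab hbc hac w σ ha hb hc hσ hs
    simp only at ha hb hc hσ hs
    obtain ⟨g, hg⟩ : ∃ g, g = dN q M (2 * cQ q M) (D' M) := ⟨_, rfl⟩
    rw [← hg] at ha hb hc hσ hs
    obtain ⟨D, hD⟩ : ∃ D, D = g + M + 1 := ⟨_, rfl⟩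
    rw [← hD] at ha hb hc hσ hs
    obtain ⟨σ', w', k1, k2, k3, k4, k5, k6, k7⟩ := normalise (M := M) (D := D)
      (by omega) (by omega) a b hab σ w hσ ha hb hs
    refine k7 0 ?_
    obtain ⟨o, -, ho⟩ := exists_max_image univ w' ⟨a, mem_univ a⟩
    have ho' : ∀ i, w' i ≤ w' o := fun i => ho i (mem_univ i)
    have hex : ∀ h c : ι, h ≠ c → ∀ w'' : ι → ℕ, D' M ≤ w'' h → D' M ≤ w'' c →
        NEr M (2 * cQ q M) (D' M) w'' := fun h c hhc w'' h1 h2 =>
      H M hM h c hhc w'' ((card_le_univ _).trans hq) h1 h2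
    have key : ∀ l1 l2 : ι, l1 ≠ o → l2 ≠ o → l1 ≠ l2 → D ≤ w' l1 → D ≤ w' l2 →
        NE M 0 σ' w' := by
      intro l1 l2 h1 h2 h3 h4 h5
      rcases le_total (w' l1) (w' l2) with h6 | h6
      · exact exact_nrm hq hM o l1 l2 h1 h2 h3 w' σ' ho' k2 k3 le_rfl h6 (by omega) hex
      · exact exact_nrm hq hM o l2 l1 h2 h1 h3.symm w' σ' ho' k2 k3 le_rfl h6 (by omega) hex
    have ha' := k5 a ha
    have hb' := k5 b hb
    have hc' := k5 c hc
    by_cases hoa : o = a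
    · exact key b c (by rw [hoa]; exact hab.symm) (by rw [hoa]; exact hac.symm) hbc hb' hc'
    · by_cases hob : o = b
      · exact key a c (by rw [hob]; exact hab) (by rw [hob]; exact hbc.symm) hac ha' hc'
      · exact key a b (Ne.symm hoa) (Ne.symm hob) hab ha' hb'

end Pool.Agent.H18.Tk
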