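import Pool.Agent.H18.Tk.WS
import Pool.Agent.H18.Tj.LxL

/-!
# Module C3 (TK): the numbers `Lx w m` only depend on the widths up to `m - 1`

* `Lx_congr`: `Rg_min` for every coordinate; or directly: `b ≤ w`, `|b| = m - 1` iff `b ≤ min w (m - 1)`, `|b| = m - 1`.
* `Lx_swap`: by `Lx_congr` we may replace `w a`, `w b` by `m`, then exchange the coordinates `a` and `b`
  (`Equiv.swap`).
* `Lx_wS`: the widths in the directions `δ l` are at least `M ≥ m`.
* `hi_wS`: `Lx_sum`.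
-/

namespace Pool.Agent.H18.Tk

open Finset Function Pool.Agent.H18.Ex Pool.Agent.H18.Tj

variable {ι : Type} [Fintype ι] [DecidableEq ι]

private theorem LxC_succ (w : ι → ℕ) (k : ℕ) : Lx w (k + 1) = (Rg k w).card := by
  simp [Lx]

private theorem LxC_le {w : ι → ℕ} {k : ℕ} {a : ι → ℕ} (h : a ∈ Rg k w) (i : ι) : a i ≤ k := by
  rw [mem_Rg] at h
  rw [← h.2]
  exact single_le_sum (fun _ _ => Nat.zero_le _) (mem_univ i)

private theorem LxC_sub {w w' : ι → ℕ} {k : ℕ} (h : ∀ i, min (w i) (k + 1) = min (w' i) (k + 1)) :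
    Rg k w ⊆ Rg k w' := by
  intro a ha
  have h1 := LxC_le ha
  rw [mem_Rg] at ha ⊢
  refine ⟨fun i => ?_, ha.2⟩
  have h2 := ha.1 i
  have h3 := h1 i
  have h4 := h i
  omega

theorem Lx_congr {w w' : ι → ℕ} {m : ℕ} (h : ∀ i, min (w i) m = min (w' i) m) :
    Lx w m = Lx w' m := by
  rcases m with _ | k
  · rw [Lx_zero, Lx_zero]
  · rw [LxC_succ, LxC_succ]
    exact congrArg card (Subset.antisymm (LxC_sub h) (LxC_sub fun i => (h i).symm))

private theorem LxC_swap {a b : ι} {w : ι → ℕ} {k : ℕ} (ha : k ≤ w a) {x : ι → ℕ}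
    (hx : x ∈ Rg k (update w a 0)) : x ∘ Equiv.swap a b ∈ Rg k (update w b 0) := by
  have h1 := LxC_le hx
  rw [mem_Rg] at hx ⊢
  refine ⟨fun i => ?_, ?_⟩
  · rw [comp_apply]
    by_cases hb : i = b
    · subst hb
      rw [Equiv.swap_apply_right, update_self]
      have h2 := hx.1 a
      rw [update_self] at h2
      exact h2
    · rw [update_of_ne hb]
      by_cases hia : i = a
      · subst hia
        rw [Equiv.swap_apply_left]
        exact (h1 b).trans ha
      · rw [Equiv.swap_apply_of_ne_of_ne hia hb]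
        have h2 := hx.1 i
        rw [update_of_ne hia] at h2
        exact h2
  · rw [← hx.2]
    exact Equiv.sum_comp (Equiv.swap a b) x

theorem Lx_swap {a b : ι} {w : ι → ℕ} {m : ℕ} (ha : m ≤ w a) (hb : m ≤ w b) :
    Lx (update w a 0) m = Lx (update w b 0) m := by
  rcases m with _ | k
  · rw [Lx_zero, Lx_zero]
  · rw [LxC_succ, LxC_succ]
    refine card_nbij' (fun x => x ∘ Equiv.swap a b) (fun x => x ∘ Equiv.swap a b) ?_ ?_ ?_ ?_
    · intro x hx
      exact LxC_swap (by omega) hx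
    · intro x hx
      have h1 : x ∘ Equiv.swap b a ∈ Rg k (update w a 0) := LxC_swap (by omega) hx
      rw [Equiv.swap_comm b a] at h1
      exact h1
    · intro x _
      funext i
      simp
    · intro x _
      funext i
      simp

omit [Fintype ι] in
private theorem LxC_wS {Λ : Type} [DecidableEq Λ] {δ : Λ → ι} (dir : ℕ → Λ)
    (w₀ : ι → ℕ) {M m : ℕ} (hw : ∀ l, M ≤ w₀ (δ l)) (hm : m ≤ M) (j : ℕ) (i : ι) :
    min (wS δ dir w₀ j i) m = min (w₀ i) m := by
  by_cases hi : ∃ l, δ l = i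
  · obtain ⟨l, rfl⟩ := hi
    have h1 := le_wS δ dir w₀ j (δ l)
    have h2 := hw l
    omega
  · push Not at hi
    rw [wS_other dir w₀ hi j]

theorem Lx_wS {Λ : Type} [DecidableEq Λ] {δ : Λ → ι} (hδ : Injective δ) (dir : ℕ → Λ)
    (w₀ : ι → ℕ) {M m : ℕ} (hw : ∀ l, M ≤ w₀ (δ l)) (hm : m ≤ M) (l l' : Λ) (j : ℕ) :
    Lx (update (wS δ dir w₀ j) (δ l) 0) m = Lx (update w₀ (δ l') 0) m := by
  have h1 : Lx (update (wS δ dir w₀ j) (δ l) 0) m = Lx (update w₀ (δ l) 0) m := by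
    apply Lx_congr
    intro i
    by_cases hi : i = δ l
    · subst hi
      rw [update_self, update_self]
    · rw [update_of_ne hi, update_of_ne hi]
      exact LxC_wS dir w₀ hw hm j i
  rw [h1]
  exact Lx_swap (hm.trans (hw l)) (hm.trans (hw l'))

theorem hi_wS {Λ : Type} [DecidableEq Λ] {δ : Λ → ι} (hδ : Injective δ) (dir : ℕ → Λ)
    (w₀ : ι → ℕ) {M m : ℕ} (hw : ∀ l, M ≤ w₀ (δ l)) (hm : m ≤ M) (l : Λ) (j : ℕ) (h c : ι)
    (hhc : h ≠ c) (h1 : M ≤ update w₀ (δ l) 0 h) (h2 : M ≤ update w₀ (δ l) 0 c) :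
    (lensOf M (update w₀ (δ l) 0) h c hhc h1 h2).hi m = Lx (wS δ dir w₀ j) m := by
  have h3 : (lensOf M (update w₀ (δ l) 0) h c hhc h1 h2).hi m = Lx w₀ m :=
    Lx_sum (δ l) w₀ m (by have := hw l; omega)
  rw [h3]
  apply Lx_congr
  intro i
  exact (LxC_wS dir w₀ hw hm j i).symm

end Pool.Agent.H18.Tk
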