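import Pool.Agent.H18.Tk.EndQ
import Pool.Agent.H18.Tj.MainA

/-!
# Module P4a (TK): near-exactness

As `of_multiset`, `near_of_num` in `Pool/Agent/H18/Tj/MainA.lean`.
-/

namespace Pool.Agent.H18.Tk

open Finset Function Pool.Agent.H18.Ex Pool.Agent.H18.Tj

variable {Λ : Type} [Fintype Λ] [DecidableEq Λ]

variable {M : ℕ} {L : Lens M} {Y : SysP Λ} {E kt : ℕ} {P : Λ → ℕ → ℕ}

private theorem MainPA_split (S : Multiset ℕ) :
    S = (S.filter fun m => 2 ≤ m) + Multiset.replicate (S.count 1) 1 +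
      Multiset.replicate (S.count 0) 0 := by
  ext a
  simp only [Multiset.count_add, Multiset.count_filter, Multiset.count_replicate]
  rcases Nat.lt_or_ge a 2 with h | h
  · interval_cases a <;> simp
  · rw [if_pos h, if_neg (by omega), if_neg (by omega)]
    omega

private theorem MainPA_sum (L : Lens M) (S : Multiset ℕ) :
    (S.map L.hi).sum = ((S.filter fun m => 2 ≤ m).map L.hi).sum + S.count 1 := by
  have h := congrArg (fun T : Multiset ℕ => (T.map L.hi).sum) (MainPA_split S)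
  simp only [Multiset.map_add, Multiset.sum_add, Multiset.map_replicate,
    Multiset.sum_replicate, L.hi_one, L.hi_zero, smul_eq_mul, mul_one, mul_zero, add_zero] at h
  exact h

private theorem MainPA_le (S : Multiset ℕ) :
    (S.filter fun m => 2 ≤ m) + Multiset.replicate (S.count 1) 1 ≤ S := by
  conv_rhs => rw [MainPA_split S]
  exact Multiset.le_add_right _ _

omit [Fintype Λ] in
private theorem MainPA_one (Y : SysP Λ) (k : ℕ) (N : Multiset ℕ) (Φ : Λ → Multiset (ℕ × ℕ))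
    (n : ℕ) : ∀ x, Y.K k ⟨N, x + n, Φ⟩ → Y.K k ⟨N + Multiset.replicate n 1, x, Φ⟩ := by
  induction n with
  | zero =>
    intro x h
    simpa using h
  | succ n ih =>
    intro x h
    have h1 := ih (x + 1) (by rwa [show x + 1 + n = x + (n + 1) by omega])
    have h2 := Y.one k _ x Φ h1
    rwa [Multiset.replicate_succ, Multiset.add_cons]

theorem of_multisetP (L : Lens M) (Y : SysP Λ) (k : ℕ) (S : Multiset ℕ) (hS : ∀ m ∈ S, m ≤ M)
    (x : ℕ) : ∃ c : Cfg Λ, c.OK M ∧ (c.Φ = fun _ => 0) ∧ x ≤ c.s ∧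
      szP L c = (S.map L.hi).sum + x ∧ (Y.K k c → Y.K k ⟨S, x, fun _ => 0⟩) := by
  refine ⟨⟨S.filter fun m => 2 ≤ m, x + S.count 1, fun _ => 0⟩, ⟨?_, ?_⟩, rfl,
    Nat.le_add_right _ _, ?_, ?_⟩
  · intro m hm
    have hm' := Multiset.mem_filter.1 hm
    exact ⟨hm'.2, hS m hm'.1⟩
  · intro l y hy
    exact absurd hy (Multiset.notMem_zero y)
  · have h1 := MainPA_sum L S
    have h2 : flT L (0 : Multiset (ℕ × ℕ)) = 0 := by simp [flT]
    unfold szP nszP
    simp only [h2, Finset.sum_const_zero, add_zero]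
    rw [h1]
    omega
  · intro h
    have h1 := MainPA_one Y k (S.filter fun m => 2 ≤ m) (fun _ => 0) (S.count 1) x h
    refine Y.mono k ⟨(S.filter fun m => 2 ≤ m) + Multiset.replicate (S.count 1) 1, x, fun _ => 0⟩
      ⟨S, x, fun _ => 0⟩ (MainPA_le S) le_rfl (fun _ => le_rfl) h1

theorem near_of_path (H : NumP L Y E kt P) (j0 jE : ℕ) (hj : j0 ≤ jE) (hkt : jE ≤ kt)
    (hj0 : ∀ l, M ≤ ct Y.dir l j0) (hjE : ∀ l, ct Y.dir l j0 < ct Y.dir l jE) (S : Multiset ℕ)
    (hS : ∀ m ∈ S, m ≤ M) (x : ℕ) (hx : Y.R jE + L.hi M + 1 ≤ x)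
    (hsum : Y.R kt ≤ (S.map L.hi).sum + x) : Y.K kt ⟨S, x, fun _ => 0⟩ := by
  by_cases hR : Y.R kt ≤ x
  · have h1 : Y.K kt ⟨0, x, fun _ => 0⟩ :=
      Y.full kt 0 x (fun _ => 0) (fun m hm => absurd hm (Multiset.notMem_zero m)) (by simpa using hR)
    exact Y.mono kt ⟨0, x, fun _ => 0⟩ ⟨S, x, fun _ => 0⟩ (Multiset.zero_le _) le_rfl
      (fun _ => le_rfl) h1
  · push Not at hR
    obtain ⟨S₁, hS₁, h1, h2, -⟩ := exists_drop L.hi (L.hi M) (Y.R kt - x) S
      (fun m hm => L.hi_mono (hS m hm)) (by omega)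
    obtain ⟨c, hc, hcΦ, hcs, hcsz, hcK⟩ := of_multisetP L Y kt S₁
      (fun m hm => hS m (Multiset.mem_of_le hS₁ hm)) x
    have h3 : Y.K kt c := by
      refine endAP H j0 jE hj hj0 hjE kt hkt le_rfl c hc ?_ ?_ ?_
      · intro l
        rw [hcΦ]
        simp [trT]
      · rw [hcsz]
        omega
      · rw [hcsz]
        omega
    exact Y.mono kt ⟨S₁, x, fun _ => 0⟩ ⟨S, x, fun _ => 0⟩ hS₁ le_rfl (fun _ => le_rfl) (hcK h3)

end Pool.Agent.H18.Tk
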