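import Pool.Agent.H18.Tk.NumS
import Pool.Agent.H18.Tk.MainPA
import Pool.Agent.H18.Tk.Slab

/-!
# Module C6 (TK): near-exactness, a third long coordinate

Normalised region: `w i ≤ w o`, `w i ≤ σ`, `2 σ ≤ ∑ w`; `l, o, u` distinct.  The path of `sysC` with `Λ = Unit`,
`δ () = l`, `dir` constant, `w₀ = update w l k0`, `k0 = bK q M E' D'`, `kt = w l - k0`, `σ₀ = σ - kt` (`≥ k0`): its state `kt` is
`Rg σ w` (`wS j = update w l (k0 + j)`, `wS_succ`), `ct dir () j = j`.
* `num_sysC` with `E := E'`, `D := D'`, `u () = u`: `hlo` is `w l ≤ w o`; `hmar`: `margin_nrm`, `w u ≥ 2 k0`; `hwin`: `ct` is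
  injective, so `i = j` and the difference is `1`, `2 q³ E' ≤ k0`; `hex`: `update (update w l _) l 0 = update w l 0`.
* `near_of_path` with `j0 = M`, `jE = M + 1`; `hi m = Lx w m` for `m ≤ M` (`hi_wS` at the state `kt`); the result is
  `GM (Rg σ w) (kindsS δ ⟨S, x, 0⟩)`.
* `R jE + hi M + 1 ≤ x₀`: `R jE` is `slab` with `t = kt - jE`, `w l - t = k0 + M + 1`:
  `2 R jE * w l ≤ 4 q² (k0 + M + 2) card ≤ 4 q² (k0 + M + 2) E x₀ ≤ w l * x₀`; `hi M + 1 ≤ cE L ≤ F kt = fc σ w l` (`NumP.floor`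
  and `top` at `kt`), and `2 fc * w l ≤ 4 q² card ≤ 4 q² E x₀ ≤ w l * x₀` (`facet_le`).
-/

namespace Pool.Agent.H18.Tk

open Finset Function Pool.Agent.H18.Ex Pool.Agent.H18.Tj

variable {ι : Type} [Fintype ι] [DecidableEq ι]

/-- The bound of the run. -/
def dG (q M E E' D' : ℕ) : ℕ :=
  4 * q ^ 2 * (bK q M E' D' + M + 2) * E + 4 * bK q M E' D' + 4 * M + 8

private theorem NearG_le_cE {M : ℕ} (L : Lens M) (hM : 1 ≤ M) : L.hi M + 1 ≤ cE L := by
  unfold cE
  have h1 : 0 < M := hM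
  have h2 : 1 ≤ 64 * M * (M + 1) * (L.lo M + 1) ^ 2 := Nat.succ_le_of_lt (by positivity)
  calc L.hi M + 1 = 1 * (L.hi M + 1) := (one_mul _).symm
    _ ≤ _ := Nat.mul_le_mul_right _ h2

private theorem NearG_ct (j : ℕ) : ct (fun _ => ()) () j = j := by
  unfold ct
  rw [filter_true_of_mem (fun _ _ => rfl), card_range]

private theorem NearG_wS (l : ι) (w : ι → ℕ) (k0 j : ℕ) :
    wS (fun _ : Unit => l) (fun _ => ()) (update w l k0) j = update w l (k0 + j) := by
  induction j with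
  | zero => rw [wS_zero, Nat.add_zero]
  | succ j ih => rw [wS_succ, ih, update_idem, update_self, Nat.add_assoc]

private theorem NearG_kinds (l : ι) (S : Multiset ℕ) (x : ℕ) :
    kindsS (fun _ : Unit => l) ⟨S, x, fun _ => 0⟩ =
      (S + Multiset.replicate x 1).map Kind.free := by
  unfold kindsS
  simp only [Multiset.map_add, Multiset.map_replicate, Multiset.map_zero, sum_const_zero, add_zero]

private theorem NearG_div {a b c w x E : ℕ} (hw : 0 < w) (h : a * w ≤ b * c) (hc : c ≤ E * x)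
    (hb : 2 * (b * E) ≤ w) : 2 * a ≤ x := by
  have h1 : 2 * a * w ≤ x * w := by
    calc 2 * a * w = 2 * (a * w) := by ring
      _ ≤ 2 * (b * c) := Nat.mul_le_mul_left _ h
      _ ≤ 2 * (b * (E * x)) := Nat.mul_le_mul_left _ (Nat.mul_le_mul_left _ hc)
      _ = 2 * (b * E) * x := by ring
      _ ≤ w * x := Nat.mul_le_mul_right _ hb
      _ = x * w := Nat.mul_comm _ _
  exact Nat.le_of_mul_le_mul_right h1 hw

theorem near_runG {q M E E' D' : ℕ} (hq : Fintype.card ι ≤ q) (hM : 1 ≤ M) (l o u : ι)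
    (hlo : l ≠ o) (huo : u ≠ o) (hul : u ≠ l) (w : ι → ℕ) (σ : ℕ) (hwo : ∀ i, w i ≤ w o)
    (hwσ : ∀ i, w i ≤ σ) (h2 : 2 * σ ≤ ∑ i, w i) (hE' : 2 * cQ q M ≤ E')
    (hu : 2 * bK q M E' D' ≤ w u) (hl : dG q M E E' D' ≤ w l)
    (hex : NEr M E' D' (update w l 0)) (x₀ : ℕ) (hcard : (Rg σ w).card ≤ E * x₀) :
    NE M x₀ σ w := by
  intro S hS x hx hsum
  set k0 := bK q M E' D' with hk0
  have hk0' : k0 = 4 * q ^ 3 * E' + cQ q M + M + D' + 2 := rfl
  have hdG : dG q M E E' D' = 4 * q ^ 2 * (k0 + M + 2) * E + 4 * k0 + 4 * M + 8 := rfl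
  have hol : o ≠ l := fun h => hlo h.symm
  have hwl : 4 * q ^ 2 * (k0 + M + 2) * E + 4 * k0 + 4 * M + 8 ≤ w l := by rw [← hdG]; exact hl
  have hq1 : 1 ≤ q := le_trans (Fintype.card_pos_iff.2 ⟨l⟩) hq
  obtain ⟨kt, hkt⟩ : ∃ kt, w l = k0 + kt := Nat.exists_eq_add_of_le (by omega)
  have hwlσ : w l ≤ σ := hwσ l
  have hwlo : w l ≤ w o := hwo l
  obtain ⟨σ₀, hσ₀⟩ : ∃ σ₀, σ = σ₀ + kt := ⟨σ - kt, by omega⟩
  set w₀ := update w l k0 with hw₀
  set δ : Unit → ι := fun _ => l with hδdef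
  have hδ : Injective δ := fun a b _ => Subsingleton.elim a b
  have hw₀o : w₀ o = w o := update_of_ne hol _ _
  have hw₀u : w₀ u = w u := update_of_ne hul _ _
  have hw₀l : w₀ l = k0 := update_self _ _ _
  have hwS : ∀ j, wS δ (fun _ => ()) w₀ j = update w l (k0 + j) := fun j => NearG_wS l w k0 j
  have hwSkt : wS δ (fun _ => ()) w₀ kt = w := by
    rw [hwS, ← hkt, update_eq_self]
  have h1 : M ≤ update w₀ (δ ()) 0 o := by
    change M ≤ update w₀ l 0 o
    rw [update_of_ne hol, hw₀o]; omega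
  have h2' : M ≤ update w₀ (δ ()) 0 u := by
    change M ≤ update w₀ l 0 u
    rw [update_of_ne hul, hw₀u]; omega
  have hmarg := margin_nrm l o hlo σ w hwo h2 u huo hul
  have H := num_sysC (E := E') (D := D') (kt := kt) hq hM (by simp) δ hδ (fun _ => ()) σ₀ w₀ ()
    o (fun _ => u) (fun _ => hlo) (fun _ => huo.symm) (fun _ => hul) hE' (by omega)
    (by rw [hw₀o]; omega) (fun _ => by rw [hw₀u]; omega)
    (fun _ => by change _ ≤ w₀ l; rw [hw₀l])
    (fun _ => by rw [hwSkt, hw₀o]; exact hwlo)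
    (fun _ => by
      rw [hwSkt]
      change σ₀ + kt + k0 ≤ ∑ i, update w l 0 i
      omega)
    (fun j _ i _ hij l' => by
      have e1 : i = j := by
        have h3 := NearG_ct i
        have h4 := NearG_ct j
        have h5 : ct (fun _ => ()) () i = ct (fun _ => ()) () j := hij
        omega
      have e2 : ct (fun _ => ()) l' (j + 1) - ct (fun _ => ()) l' i = 1 := by
        have h3 := NearG_ct (j + 1)
        have h4 := NearG_ct i
        have h5 : ct (fun _ => ()) l' (j + 1) = j + 1 := h3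
        have h6 : ct (fun _ => ()) l' i = i := h4
        omega
      have e3 : 2 * q ^ 3 * E' ≤ 4 * q ^ 3 * E' := Nat.mul_le_mul_right _ (by omega)
      rw [e2, mul_one]
      refine ⟨?_, by omega⟩
      change _ ≤ w₀ l
      rw [hw₀l]; omega)
    (fun j _ => by
      rw [hwS]
      change NEr M E' D' (update (update w l (k0 + (j + 1))) l 0)
      rw [update_idem]
      exact hex)
    h1 h2'
  set L := lensOf M (update w₀ (δ ()) 0) o u huo.symm h1 h2' with hL
  have hhi : ∀ m, m ≤ M → L.hi m = Lx w m := by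
    intro m hm
    have h3 := hi_wS hδ (fun _ => ()) w₀ (M := M) (m := m)
      (fun _ => by change M ≤ w₀ l; rw [hw₀l]; omega) hm () kt o u huo.symm h1 h2'
    rw [hwSkt] at h3
    exact h3
  have hwpos : 0 < w l := by omega
  -- the end of the path
  have hR : 2 * (sysC δ hδ (fun _ => ()) σ₀ w₀).R (M + 1) ≤ x₀ := by
    obtain ⟨t, ht⟩ : ∃ t, kt = t + (M + 1) := ⟨kt - (M + 1), by omega⟩
    have e1 : w l - t = k0 + (M + 1) := by omega
    have e2 : σ - t = σ₀ + (M + 1) := by omega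
    have h3 := slab hq l σ w t (by omega) hwlσ h2 (by omega)
    have e3 : (sysC δ hδ (fun _ => ()) σ₀ w₀).R (M + 1) =
        (Rg (σ - t) (update w l (w l - t))).card := by
      change (Rg (σ₀ + (M + 1)) (wS δ (fun _ => ()) w₀ (M + 1))).card = _
      rw [hwS, e1, e2]
    rw [e3]
    refine NearG_div hwpos h3 hcard ?_
    have e4 : 2 * (2 * q ^ 2 * (w l - t + 1) * E) = 4 * q ^ 2 * (k0 + M + 2) * E := by
      have e5 : w l - t + 1 = k0 + M + 2 := by omega
      rw [e5]; ring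
    omega
  have hFf : (sysC δ hδ (fun _ => ()) σ₀ w₀).F kt = fc σ w l := by
    change (Rg (σ₀ + kt) (update (wS δ (fun _ => ()) w₀ kt) l 0)).card = _
    rw [hwSkt, ← hσ₀]
    rfl
  have hhiM : L.hi M + 1 ≤ fc σ w l := by
    obtain ⟨k', hk'⟩ : ∃ k', kt = k' + 1 := ⟨kt - 1, by omega⟩
    have h3 := H.floor () kt le_rfl
    have h4 := H.top k' (by omega)
    rw [← hk'] at h4
    have h5 : pS δ (fun _ => ()) σ₀ w₀ () kt = (sysC δ hδ (fun _ => ()) σ₀ w₀).F kt := h4
    rw [h5, hFf] at h3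
    exact le_trans (NearG_le_cE L hM) h3
  have hfc : 2 * fc σ w l ≤ x₀ := by
    have h3 := facet_le q hq1 σ w l (w l)
      (le_trans (card_le_univ _) (le_trans hq (Nat.le_succ _))) le_rfl hwlσ (by omega)
    refine NearG_div hwpos h3 hcard ?_
    have e1 : 4 * q ^ 2 * 1 * E ≤ 4 * q ^ 2 * (k0 + M + 2) * E :=
      Nat.mul_le_mul_right _ (Nat.mul_le_mul_left _ (by omega))
    have e2 : 2 * (2 * q ^ 2 * E) = 4 * q ^ 2 * 1 * E := by ring
    omega
  have hxx : (sysC δ hδ (fun _ => ()) σ₀ w₀).R (M + 1) + L.hi M + 1 ≤ x := by omega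
  have hRkt : (sysC δ hδ (fun _ => ()) σ₀ w₀).R kt = (Rg σ w).card := by
    change (Rg (σ₀ + kt) (wS δ (fun _ => ()) w₀ kt)).card = _
    rw [hwSkt, ← hσ₀]
  have hsum2 : (sysC δ hδ (fun _ => ()) σ₀ w₀).R kt ≤ (S.map L.hi).sum + x := by
    rw [hRkt, Multiset.map_congr rfl fun m hm => hhi m (hS m hm)]
    exact hsum
  have hres := near_of_path H M (M + 1) (Nat.le_succ _) (by omega)
    (fun l' => by
      have h3 : ct (fun _ => ()) l' M = M := NearG_ct M
      exact h3.ge)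
    (fun l' => by
      have h3 : ct (fun _ => ()) l' M = M := NearG_ct M
      have h4 : ct (fun _ => ()) l' (M + 1) = M + 1 := NearG_ct (M + 1)
      change ct (fun _ => ()) l' M < ct (fun _ => ()) l' (M + 1)
      omega) S hS x hxx hsum2
  change GM (Rg (σ₀ + kt) (wS δ (fun _ => ()) w₀ kt)) (kindsS δ ⟨S, x, fun _ => 0⟩) at hres
  rw [hwSkt, ← hσ₀, NearG_kinds] at hres
  exact hres

end Pool.Agent.H18.Tk
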