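import Pool.Agent.H18.Tk.LxC
import Pool.Agent.H18.Ex.Norm

/-!
# Module C7 (TK): normalisation

`NE_trunc`: `Rg_trunc` and `Lx_congr` (`m ≤ M ≤ σ`).  `NE_reflect`: `GM.reflect`, `card_reflect`.
`normalise`: put `w₁ = min w σ`; `∑ w₁ ≥ σ + D`: if `w i ≤ σ` for all `i` then `w₁ = w`, otherwise `w₁ i = σ` for some `i` and
another coordinate among `h`, `c` has `w₁ ≥ D`.  If `2 σ ≤ ∑ w₁` take `(σ, w₁)`.  Otherwise put `σ' = ∑ w₁ - σ < σ`, `σ' ≥ D`,
and `w' = min w₁ σ'`: `∑ w' ≥ 2 σ'`: if all `w₁ i ≤ σ'` then `∑ w' = ∑ w₁ = σ + σ' ≥ 2 σ'`; if `w₁ i > σ'` for two indices this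
is clear; if `w₁ i > σ'` for exactly one index `i` then `∑_{j ≠ i} w₁ j = σ + σ' - w₁ i ≥ σ'` since `w₁ i ≤ σ`.
(Compare `exa_of_fat` in `Pool/Agent/H18/Ex/Norm.lean`.)
-/

namespace Pool.Agent.H18.Tk

open Finset Function Pool.Agent.H18.Ex Pool.Agent.H18.Tj

variable {ι : Type} [Fintype ι] [DecidableEq ι]

theorem NE_trunc {M x₀ σ : ℕ} {w : ι → ℕ} (hM : M ≤ σ) (h : NE M x₀ σ fun i => min (w i) σ) :
    NE M x₀ σ w := by
  intro S hS x hx hc
  have h1 : S.map (Lx fun i => min (w i) σ) = S.map (Lx w) := by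
    apply Multiset.map_congr rfl
    intro m hm
    apply Lx_congr
    intro i
    have := hS m hm
    omega
  have h2 := h S hS x hx
  rw [Rg_trunc, h1] at h2
  exact h2 hc

theorem NE_reflect {M x₀ σ : ℕ} {w : ι → ℕ} (hσ : σ ≤ ∑ i, w i)
    (h : NE M x₀ (∑ i, w i - σ) w) : NE M x₀ σ w := by
  intro S hS x hx hc
  refine GM.reflect σ w hσ _ (h S hS x hx ?_)
  rw [card_reflect σ w hσ]
  exact hc

theorem normalise {M D : ℕ} (hMD : M ≤ D) (hD : 1 ≤ D) (h c : ι) (hhc : h ≠ c) (σ : ℕ)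
    (w : ι → ℕ) (hσ : D ≤ σ) (hh : D ≤ w h) (hc : D ≤ w c) (hs : σ + D ≤ ∑ i, w i) :
    ∃ (σ' : ℕ) (w' : ι → ℕ), D ≤ σ' ∧ (∀ i, w' i ≤ σ') ∧ 2 * σ' ≤ ∑ i, w' i ∧
      (∀ i, w' i ≤ w i) ∧ (∀ i, D ≤ w i → D ≤ w' i) ∧
      (Rg σ' w').card = (Rg σ w).card ∧ ∀ x₀, NE M x₀ σ' w' → NE M x₀ σ w := by
  set w1 : ι → ℕ := fun i => min (w i) σ with hw1
  have hw1σ : ∀ i, w1 i ≤ σ := fun i => min_le_right _ _
  have hw1w : ∀ i, w1 i ≤ w i := fun i => min_le_left _ _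
  have hw1D : ∀ i, D ≤ w i → D ≤ w1 i := fun i hi => le_min hi hσ
  have hother : ∀ a, ∃ b, b ≠ a ∧ D ≤ w b := by
    intro a
    by_cases ha : h = a
    · exact ⟨c, by rw [← ha]; exact hhc.symm, hc⟩
    · exact ⟨h, ha, hh⟩
  have hsum1 : σ + D ≤ ∑ i, w1 i := by
    by_cases hall : ∀ i, w i ≤ σ
    · have : ∑ i, w1 i = ∑ i, w i := sum_congr rfl fun i _ => min_eq_left (hall i)
      rw [this]
      exact hs
    · push Not at hall
      obtain ⟨a, ha⟩ := hall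
      obtain ⟨b, hb, hb'⟩ := hother a
      have h1 := two_le_sum w1 (Ne.symm hb)
      have h2 : w1 a = σ := min_eq_right ha.le
      have h3 := hw1D b hb'
      omega
  by_cases h2 : 2 * σ ≤ ∑ i, w1 i
  · refine ⟨σ, w1, hσ, hw1σ, h2, hw1w, hw1D, ?_, fun x₀ hx => NE_trunc (hMD.trans hσ) hx⟩
    rw [hw1, Rg_trunc]
  · push Not at h2
    set τ := ∑ i, w1 i - σ with hτ
    have hτσ : τ < σ := by omega
    have hτD : D ≤ τ := by omega
    set w2 : ι → ℕ := fun i => min (w1 i) τ with hw2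
    have hsum2 : 2 * τ ≤ ∑ i, w2 i := by
      by_cases hall : ∀ i, w1 i ≤ τ
      · have : ∑ i, w2 i = ∑ i, w1 i := sum_congr rfl fun i _ => min_eq_left (hall i)
        omega
      · push Not at hall
        obtain ⟨a, ha⟩ := hall
        have h3 : w2 a = τ := min_eq_right ha.le
        by_cases hb : ∃ b, b ≠ a ∧ τ ≤ w1 b
        · obtain ⟨b, hb, hb'⟩ := hb
          have h4 := two_le_sum w2 (Ne.symm hb)
          have h5 : w2 b = τ := min_eq_right hb'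
          omega
        · push Not at hb
          have h4 : ∑ i ∈ univ.erase a, w2 i = ∑ i ∈ univ.erase a, w1 i :=
            sum_congr rfl fun i hi => min_eq_left (hb i (ne_of_mem_erase hi)).le
          have h5 := add_sum_erase univ w2 (mem_univ a)
          have h6 := add_sum_erase univ w1 (mem_univ a)
          have h7 := hw1σ a
          omega
    refine ⟨τ, w2, hτD, fun i => min_le_right _ _, hsum2,
      fun i => (min_le_left _ _).trans (hw1w i), fun i hi => le_min (hw1D i hi) hτD, ?_, ?_⟩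
    · rw [hw2, Rg_trunc, hτ, card_reflect σ w1 (by omega), hw1, Rg_trunc]
    · intro x₀ hx
      refine NE_trunc (hMD.trans hσ) (NE_reflect (w := w1) (by omega) ?_)
      exact NE_trunc (hMD.trans hτD) hx

end Pool.Agent.H18.Tk
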