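import Pool.Agent.H18.Tk.PolyK
import Pool.Agent.H18.Tk.NormK
import Pool.Agent.H18.Tk.ThinG

/-!
# Module C13 (TK): near-exactness in general

Induction on `n` (see `near_all` in `Pool/Agent/H18/Tj/NearAll.lean`).  Given `E`: let `E' = 2 cQ q`, `D'` the function of the
induction hypothesis for `E'` (`D' = 0` for `n = 0`), `θ = 2 bK q M E' D' + 1`, `K = kT q θ (M ^ q) n`.  `D` is the sum of
`dG q M (E M) (E' M) (D' M)`, `(n + 2) θ`, `2 K E²`, `θ`, `M`, `D'`, `1`.
Let `h, c, w, σ, x₀` be given.  `normalise` (it keeps `D ≤ w h`, `D ≤ w c`, the number of the exponents; the number of the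
active coordinates does not increase since `w' ≤ w`) reduces to `w i ≤ σ`, `2 σ ≤ ∑ w`.  Let `o` be a coordinate with
`w o` maximal.
* (A) some `u ≠ h, c` has `θ ≤ w u`.  Choose `(l, u')`: `(c, u)` if `o = h`; `(h, u)` if `o = c`; `(c, h)` otherwise.  `near_runG` with
  `l, o, u'`; the hypothesis `NEr M E' D' (update w l 0)` is the induction hypothesis for the pair `(o, u')`: the active
  coordinates of `update w l 0` other than `o`, `u'` are at most `(n + 2) - 3` (`l`, `o`, `u'` are active, and `w` has at most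
  `n + 2` active coordinates).
* (B) all `w u < θ`: `thinG`; `K (card + 1) ≤ 2 K card ≤ 2 K E x₀ ≤ x₀²` as `x₀ ≥ 2 K E`: otherwise
  `card ≤ E x₀ < 2 K E²`, but `card ≥ D + 1` (`card_ge` with `h`, `c`, `b = D`; `σ + D ≤ ∑ w` since `σ ≥ D`).
For `n = 0` the case (A) is impossible.
-/

namespace Pool.Agent.H18.Tk

open Finset Function Pool.Agent.H18.Ex Pool.Agent.H18.Pr Pool.Agent.H18.Tj

variable {ι : Type} [Fintype ι] [DecidableEq ι]

private theorem NearGen_act {h c : ι} {n : ℕ} {w : ι → ℕ}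
    (hcnt : (univ.filter fun i => i ≠ h ∧ i ≠ c ∧ 0 < w i).card ≤ n) :
    (univ.filter fun i => 0 < w i).card ≤ n + 2 := by
  have h1 : (univ.filter fun i => 0 < w i) ⊆
      insert h (insert c (univ.filter fun i => i ≠ h ∧ i ≠ c ∧ 0 < w i)) := by
    intro i hi
    have hi' := (mem_filter.mp hi).2
    rw [mem_insert, mem_insert, mem_filter]
    by_cases h1 : i = h
    · exact Or.inl h1
    · by_cases h2 : i = c
      · exact Or.inr (Or.inl h2)
      · exact Or.inr (Or.inr ⟨mem_univ _, h1, h2, hi'⟩)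
  have h2 := card_le_card h1
  have h3 := card_insert_le h (insert c (univ.filter fun i => i ≠ h ∧ i ≠ c ∧ 0 < w i))
  have h4 := card_insert_le c (univ.filter fun i => i ≠ h ∧ i ≠ c ∧ 0 < w i)
  omega

private theorem NearGen_three {l o u : ι} (hlo : l ≠ o) (huo : u ≠ o) (hul : u ≠ l) {w : ι → ℕ}
    (hl : 0 < w l) (ho : 0 < w o) (hu : 0 < w u) :
    (univ.filter fun i => i ≠ o ∧ i ≠ u ∧ 0 < update w l 0 i).card + 3 ≤
      (univ.filter fun i => 0 < w i).card := by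
  obtain ⟨A, hA⟩ : ∃ A, A = univ.filter fun i => 0 < w i := ⟨_, rfl⟩
  have hmem : ∀ i, i ∈ A ↔ 0 < w i := by
    intro i
    rw [hA, mem_filter]
    exact ⟨fun h => h.2, fun h => ⟨mem_univ _, h⟩⟩
  have h1 : (univ.filter fun i => i ≠ o ∧ i ≠ u ∧ 0 < update w l 0 i) ⊆
      ((A.erase l).erase o).erase u := by
    intro i hi
    obtain ⟨-, hio, hiu, hi0⟩ := mem_filter.mp hi
    have hil : i ≠ l := by
      rintro rfl
      rw [update_self] at hi0
      exact lt_irrefl _ hi0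
    rw [update_of_ne hil] at hi0
    exact mem_erase.mpr ⟨hiu, mem_erase.mpr ⟨hio, mem_erase.mpr ⟨hil, (hmem i).2 hi0⟩⟩⟩
  have h2 := card_le_card h1
  have hlA : l ∈ A := (hmem l).2 hl
  have hoA : o ∈ A.erase l := mem_erase.mpr ⟨Ne.symm hlo, (hmem o).2 ho⟩
  have huA : u ∈ (A.erase l).erase o :=
    mem_erase.mpr ⟨huo, mem_erase.mpr ⟨hul, (hmem u).2 hu⟩⟩
  rw [card_erase_of_mem huA, card_erase_of_mem hoA, card_erase_of_mem hlA] at h2
  have h3 : 3 ≤ A.card := by
    have h4 := card_pos.mpr ⟨u, huA⟩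
    rw [card_erase_of_mem hoA, card_erase_of_mem hlA] at h4
    omega
  rw [← hA]
  omega

private theorem NearGen_step (q : ℕ) (hq : Fintype.card ι ≤ q) (n : ℕ) (E D' : ℕ → ℕ)
    (hE : Pr.PolyB E) (hD' : Pr.PolyB D')
    (H : ∀ M, 1 ≤ M → ∀ w : ι → ℕ, (univ.filter fun i => 0 < w i).card ≤ n + 2 →
      ∀ l o u : ι, l ≠ o → u ≠ o → u ≠ l → 0 < w l → 0 < w o → 0 < w u → D' M ≤ w o →
      D' M ≤ w u → NEr M (2 * cQ q M) (D' M) (update w l 0)) :
    ∃ D : ℕ → ℕ, Pr.PolyB D ∧ ∀ M, 1 ≤ M → ∀ (h c : ι), h ≠ c →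
    ∀ w : ι → ℕ, (univ.filter fun i => i ≠ h ∧ i ≠ c ∧ 0 < w i).card ≤ n →
    D M ≤ w h → D M ≤ w c → NEr M (E M) (D M) w := by
  have hE' : Pr.PolyB fun M => 2 * cQ q M := (Pr.PolyB.const 2).mul (polyB_cQ q)
  have hθ : Pr.PolyB fun M => 2 * bK q M (2 * cQ q M) (D' M) + 1 :=
    ((Pr.PolyB.const 2).mul (polyB_bK q hE' hD')).add (Pr.PolyB.const 1)
  have hV : Pr.PolyB fun M => M ^ q := Pr.PolyB.id.pow q
  have hK : Pr.PolyB fun M => kT q (2 * bK q M (2 * cQ q M) (D' M) + 1) (M ^ q) n :=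
    polyB_kT q n hθ hV
  refine ⟨fun M => dG q M (E M) (2 * cQ q M) (D' M) +
    (n + 2) * (2 * bK q M (2 * cQ q M) (D' M) + 1) +
    2 * kT q (2 * bK q M (2 * cQ q M) (D' M) + 1) (M ^ q) n * E M ^ 2 +
    (2 * bK q M (2 * cQ q M) (D' M) + 1) + M + D' M + 1, ?_, ?_⟩
  · exact ((((((polyB_dG q hE hE' hD').add ((Pr.PolyB.const (n + 2)).mul hθ)).add
      (((Pr.PolyB.const 2).mul hK).mul (hE.pow 2))).add hθ).add Pr.PolyB.id).add hD').add
      (Pr.PolyB.const 1)
  · intro M hM h c hhc w hcnt hh hc σ hσ hs x₀ hcard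
    simp only at hh hc hσ hs
    have hbD : D' M ≤ bK q M (2 * cQ q M) (D' M) := by
      unfold bK
      omega
    obtain ⟨b, hb⟩ : ∃ b, b = bK q M (2 * cQ q M) (D' M) := ⟨_, rfl⟩
    rw [← hb] at hbD hh hc hσ hs
    obtain ⟨θ, hθd⟩ : ∃ θ, θ = 2 * b + 1 := ⟨_, rfl⟩
    rw [← hθd] at hh hc hσ hs
    obtain ⟨K, hKd⟩ : ∃ K, K = kT q θ (M ^ q) n := ⟨_, rfl⟩
    rw [← hKd] at hh hc hσ hs
    obtain ⟨g, hg⟩ : ∃ g, g = dG q M (E M) (2 * cQ q M) (D' M) := ⟨_, rfl⟩
    rw [← hg] at hh hc hσ hs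
    obtain ⟨D, hD⟩ : ∃ D, D = g + (n + 2) * θ + 2 * K * E M ^ 2 + θ + M + D' M + 1 := ⟨_, rfl⟩
    rw [← hD] at hh hc hσ hs
    obtain ⟨σ', w', k1, k2, k3, k4, k5, k6, k7⟩ := normalise (M := M) (D := D)
      (by omega) (by omega) h c hhc σ w hσ hh hc hs
    refine k7 x₀ ?_
    rw [← k6] at hcard
    have hh' := k5 h hh
    have hc' := k5 c hc
    have hcnt' : (univ.filter fun i => i ≠ h ∧ i ≠ c ∧ 0 < w' i).card ≤ n := by
      refine (card_le_card fun i hi => ?_).trans hcnt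
      obtain ⟨h0, h1, h2, h3⟩ := mem_filter.mp hi
      exact mem_filter.mpr ⟨h0, h1, h2, lt_of_lt_of_le h3 (k4 i)⟩
    obtain ⟨o, -, ho⟩ := exists_max_image univ w' ⟨h, mem_univ h⟩
    have ho' : ∀ i, w' i ≤ w' o := fun i => ho i (mem_univ i)
    by_cases hA : ∃ u, u ≠ h ∧ u ≠ c ∧ θ ≤ w' u
    · obtain ⟨u, huh, huc, hu⟩ := hA
      have key : ∀ l u' : ι, l ≠ o → u' ≠ o → u' ≠ l → D ≤ w' l → θ ≤ w' u' →
          NE M x₀ σ' w' := by
        intro l u' hlo huo hul hl hu'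
        have hoh := ho' h
        refine near_runG (q := q) (E := E M) (E' := 2 * cQ q M) (D' := D' M) hq hM l o u' hlo huo
          hul w' σ' ho' k2 k3 le_rfl (by omega) (by omega) ?_ x₀ hcard
        exact H M hM w' (NearGen_act hcnt') l o u' hlo huo hul (by omega) (by omega) (by omega)
          (by omega) (by omega)
      by_cases hoh : o = h
      · exact key c u (by rw [hoh]; exact Ne.symm hhc) (by rw [hoh]; exact huh) huc hc' hu
      · by_cases hoc : o = c
        · exact key h u (by rw [hoc]; exact hhc) (by rw [hoc]; exact huc) huh hh' hu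
        · exact key c h (Ne.symm hoc) (Ne.symm hoh) hhc hc' (by omega)
    · push Not at hA
      intro S hS x hx hsum
      have hθσ : (n + 1) * θ ≤ σ' := by
        have : (n + 2) * θ = (n + 1) * θ + θ := by ring
        omega
      refine thinG (q := q) (M := M) (θ := θ) hq hM h c hhc n w' σ' hcnt' hθσ (by omega)
        (by omega) (by omega) (by omega) (fun i h1 h2 => hA i h1 h2) S hS x ?_ hsum
      rw [← hKd]
      have hcge := card_ge σ' w' D h c hhc hh' hc' k1 (by omega)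
      have hcard' : (Rg σ' w').card ≤ E M * x := hcard.trans (Nat.mul_le_mul_left _ hx)
      have h2 : 2 * K * E M ^ 2 < (Rg σ' w').card := by omega
      have h3 : 2 * K * E M ≤ x := by
        by_contra h3
        push Not at h3
        have h4 : E M * x ≤ E M * (2 * K * E M) := Nat.mul_le_mul_left _ h3.le
        have h5 : E M * (2 * K * E M) = 2 * K * E M ^ 2 := by ring
        omega
      have h6 : (Rg σ' w').card + 1 ≤ 2 * (Rg σ' w').card := by omega
      calc K * ((Rg σ' w').card + 1) ≤ K * (2 * (Rg σ' w').card) := Nat.mul_le_mul_left _ h6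
        _ ≤ K * (2 * (E M * x)) := Nat.mul_le_mul_left _ (Nat.mul_le_mul_left _ hcard')
        _ = (2 * K * E M) * x := by ring
        _ ≤ x * x := Nat.mul_le_mul_right _ h3
        _ = x ^ 2 := by ring

theorem near_gen (q : ℕ) (hq : Fintype.card ι ≤ q) (n : ℕ) :
    ∀ E : ℕ → ℕ, Pr.PolyB E → ∃ D : ℕ → ℕ, Pr.PolyB D ∧ ∀ M, 1 ≤ M → ∀ (h c : ι), h ≠ c →
    ∀ w : ι → ℕ, (univ.filter fun i => i ≠ h ∧ i ≠ c ∧ 0 < w i).card ≤ n →
    D M ≤ w h → D M ≤ w c → NEr M (E M) (D M) w := by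
  induction n with
  | zero =>
    intro E hE
    refine NearGen_step q hq 0 E (fun _ => 0) hE (Pr.PolyB.const 0) ?_
    intro M _ w hcnt l o u hlo huo hul hl ho hu _ _
    exfalso
    have h1 := NearGen_three hlo huo hul hl ho hu
    omega
  | succ n ih =>
    intro E hE
    obtain ⟨D', hD', H⟩ := ih (fun M => 2 * cQ q M) ((Pr.PolyB.const 2).mul (polyB_cQ q))
    refine NearGen_step q hq (n + 1) E D' hE hD' ?_
    intro M hM w hcnt l o u hlo huo hul hl ho hu hDo hDu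
    refine H M hM o u (Ne.symm huo) (update w l 0) ?_ ?_ ?_
    · have h1 := NearGen_three hlo huo hul hl ho hu
      omega
    · rw [update_of_ne (Ne.symm hlo)]
      exact hDo
    · rw [update_of_ne hul]
      exact hDu

end Pool.Agent.H18.Tk
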