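import Pool.Agent.H18.Tk.SysC
import Pool.Agent.H18.Tk.LxC
import Pool.Agent.H18.Ex.Ratio

/-!
# Module C4a (TK): numerical properties of the traces

* `hS_ratio`: `facet_ratio` (`Pool/Agent/H18/Ex/Ratio.lean`) with `N = q` at the state `j`, `k x = wS j x - wS i x`,
  which is `ct l' j - ct l' i` at `x = δ l'` and `0` at the other coordinates, `∑ k = j - i` (`sum_ct`).
* `hS_low`: `facet_le` (`Pool/Agent/H18/Ex/Frac.lean`) at the state `i`, `v` at most the width and the degree.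
* `hS_floor`: `card_ge` for the coordinates `o`, `u`.
The number of the active coordinates is at most `q ≤ q + 1`.
-/

namespace Pool.Agent.H18.Tk

open Finset Function Pool.Agent.H18.Ex Pool.Agent.H18.Tj

variable {Λ : Type} [Fintype Λ] [DecidableEq Λ] {ι : Type} [Fintype ι] [DecidableEq ι]

omit [Fintype Λ] in
private theorem NumC_sum (δ : Λ → ι) (dir : ℕ → Λ) (w₀ : ι → ℕ) (j : ℕ) :
    ∑ x, wS δ dir w₀ j x = ∑ x, w₀ x + j := by
  unfold wS
  rw [sum_add_distrib]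
  congr 1
  have h := card_eq_sum_card_fiberwise (f := fun t => δ (dir (t + 1))) (s := range j)
    (t := (univ : Finset ι)) (fun _ _ => mem_coe.2 (mem_univ _))
  rw [card_range] at h
  exact h.symm

omit [Fintype Λ] in
private theorem NumC_sumsub (δ : Λ → ι) (dir : ℕ → Λ) (w₀ : ι → ℕ) {i j : ℕ} (hij : i ≤ j) :
    ∑ x, (wS δ dir w₀ j x - wS δ dir w₀ i x) = j - i := by
  rw [sum_tsub_distrib _ (fun x _ => wS_mono δ dir w₀ hij x), NumC_sum, NumC_sum]
  omega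

omit [DecidableEq ι] in
private theorem NumC_card {q : ℕ} (hq : Fintype.card ι ≤ q) (w : ι → ℕ) :
    (univ.filter fun i => 0 < w i).card ≤ q + 1 := by
  have h := card_filter_le (univ : Finset ι) (fun i => 0 < w i)
  rw [card_univ] at h
  omega

theorem hS_ratio {q Q : ℕ} (hq : Fintype.card ι ≤ q) (hQ : 2 ≤ Q) {δ : Λ → ι}
    (hδ : Injective δ) (dir : ℕ → Λ) (σ₀ : ℕ) (w₀ : ι → ℕ) (o : ι) (ho : ∀ l, δ l ≠ o) (l : Λ)
    {i j : ℕ} (hij : i ≤ j) (hpos : 0 < w₀ (δ l)) (hlo : wS δ dir w₀ j (δ l) ≤ w₀ o)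
    (hk : ∀ l', Q * (ct dir l' j - ct dir l' i) ≤ w₀ (δ l'))
    (hk' : ∀ l', Q * (ct dir l' j - ct dir l' i) ≤ σ₀) :
    Q * hS δ dir σ₀ w₀ l j ≤ Q * hS δ dir σ₀ w₀ l i + 2 * q ^ 3 * hS δ dir σ₀ w₀ l j := by
  have hq1 : 1 ≤ q := by
    have h : 0 < Fintype.card ι := Fintype.card_pos_iff.2 ⟨o⟩
    omega
  have hkey : ∀ x : ι, (∃ l', δ l' = x ∧ wS δ dir w₀ j x - wS δ dir w₀ i x =
      ct dir l' j - ct dir l' i) ∨ wS δ dir w₀ j x - wS δ dir w₀ i x = 0 := by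
    intro x
    by_cases hx : ∃ l', δ l' = x
    · obtain ⟨l', hl'⟩ := hx
      left
      refine ⟨l', hl', ?_⟩
      rw [← hl', wS_apply hδ, wS_apply hδ]
      omega
    · right
      push Not at hx
      rw [wS_other dir w₀ hx, wS_other dir w₀ hx, Nat.sub_self]
  have hle := le_wS δ dir w₀ j
  have main := facet_ratio q hq1 o (δ l) (σ₀ + j) (wS δ dir w₀ j)
    (fun x => wS δ dir w₀ j x - wS δ dir w₀ i x) Q hQ (NumC_card hq _) (ho l)
    (lt_of_lt_of_le hpos (hle _)) (hlo.trans (hle o))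
    (by simp only [wS_other dir w₀ ho, Nat.sub_self])
    (by
      intro x
      rcases hkey x with ⟨l', hl', h⟩ | h
      · simp only [h]
        rw [← hl']
        exact (hk l').trans (hle _)
      · simp only [h, mul_zero]
        exact Nat.zero_le _)
    (by
      intro x
      rcases hkey x with ⟨l', hl', h⟩ | h
      · simp only [h]
        exact (hk' l').trans (Nat.le_add_right _ _)
      · simp only [h, mul_zero]
        exact Nat.zero_le _)
  rw [NumC_sumsub δ dir w₀ hij] at main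
  have e1 : σ₀ + j - (j - i) = σ₀ + i := by omega
  have e2 : (fun x => wS δ dir w₀ j x - (wS δ dir w₀ j x - wS δ dir w₀ i x)) =
      wS δ dir w₀ i := by
    funext x
    have := wS_mono δ dir w₀ hij x
    omega
  rw [e1, e2] at main
  exact main

theorem hS_low {q v : ℕ} (hq : Fintype.card ι ≤ q) (δ : Λ → ι) (dir : ℕ → Λ) (σ₀ : ℕ)
    (w₀ : ι → ℕ) (l : Λ) (i : ℕ) (hv : v ≤ w₀ (δ l)) (hvσ : v ≤ σ₀) (h2 : 2 ≤ v) :
    hS δ dir σ₀ w₀ l i * v ≤ 2 * q ^ 2 * (Rg (σ₀ + i) (wS δ dir w₀ i)).card := by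
  have hq1 : 1 ≤ q := by
    have h : 0 < Fintype.card ι := Fintype.card_pos_iff.2 ⟨δ l⟩
    omega
  exact facet_le q hq1 (σ₀ + i) (wS δ dir w₀ i) (δ l) v (NumC_card hq _)
    (hv.trans (le_wS δ dir w₀ i _)) (hvσ.trans (Nat.le_add_right _ _)) h2

theorem hS_floor (δ : Λ → ι) (dir : ℕ → Λ) (σ₀ : ℕ) (w₀ : ι → ℕ) (l : Λ) (i b : ℕ) {o u : ι}
    (huo : u ≠ o) (hol : δ l ≠ o) (hul : u ≠ δ l) (ho : b ≤ w₀ o) (hu : b ≤ w₀ u)
    (hσ : b ≤ σ₀) (hmar : σ₀ + i + b ≤ ∑ x, update (wS δ dir w₀ i) (δ l) 0 x) :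
    b + 1 ≤ hS δ dir σ₀ w₀ l i := by
  refine card_ge (σ₀ + i) (update (wS δ dir w₀ i) (δ l) 0) b o u huo.symm ?_ ?_
    (hσ.trans (Nat.le_add_right _ _)) hmar
  · rw [update_of_ne hol.symm]
    exact ho.trans (le_wS δ dir w₀ i _)
  · rw [update_of_ne hul]
    exact hu.trans (le_wS δ dir w₀ i _)

end Pool.Agent.H18.Tk
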