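import Pool.Agent.H18.Tk.NumC

/-!
# Module C4b (TK): the numerical properties of the concrete system

`B = bK q M E D`, `Q = 2 q³ E`.  All widths `w₀ (δ l)`, `w₀ o`, `w₀ (u l)` and `σ₀` are at least `B`.
* `floor`: `pS_spec`, `hS_floor` with `b = cQ q M` (`wS_margin`), `cE_le`.
* `low`: `pS_spec` (`pS l k = hS l i`, `i ≤ k`), `hS_low` with `v = B ≥ 2 q² E`, so `E hS l i ≤ R i ≤ R k` (`count_S`).
* `top`, `keep`: definition of `pS`.
* `slow`: `pS_spec` at `k` (`l = dir (k + 1)`: `pS l k = hS l i`, `ct l i = ct l k`), `hwin`, `hS_ratio` for `i ≤ k + 1` with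
  this `Q`; divide by `2 q³`.
* `gd`: `hex k` with `σ = σ₀ + (k + 1)` (margin: `wS_margin`), `x₀ = F / E + 1` (`F ≤ E (F / E + 1)`) and `x₀ ≤ x`;
  the lengths are `Lx_wS`.
-/

namespace Pool.Agent.H18.Tk

open Finset Function Pool.Agent.H18.Ex Pool.Agent.H18.Tj

variable {Λ : Type} [Fintype Λ] [DecidableEq Λ] {ι : Type} [Fintype ι] [DecidableEq ι]

/-- The lower bound of all relevant widths and degrees. -/
def bK (q M E D : ℕ) : ℕ := 4 * q ^ 3 * E + cQ q M + M + D + 2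

private theorem NumS_le (q M E D : ℕ) : cQ q M ≤ bK q M E D ∧ M ≤ bK q M E D ∧
    D ≤ bK q M E D ∧ 2 ≤ bK q M E D ∧ 4 * q ^ 3 * E ≤ bK q M E D := by
  unfold bK
  refine ⟨?_, ?_, ?_, ?_, ?_⟩ <;> omega

private theorem NumS_R (δ : Λ → ι) (dir : ℕ → Λ) (σ₀ : ℕ) (w₀ : ι → ℕ) {i k : ℕ} (h : i ≤ k) :
    (Rg (σ₀ + i) (wS δ dir w₀ i)).card ≤ (Rg (σ₀ + k) (wS δ dir w₀ k)).card := by
  induction k, h using Nat.le_induction with
  | base => exact le_rfl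
  | succ n _ ih =>
    rw [count_S]
    exact ih.trans (Nat.le_add_right _ _)

theorem num_sysC {q M E D kt : ℕ} (hq : Fintype.card ι ≤ q) (hM : 1 ≤ M)
    (hΛ : Fintype.card Λ ≤ 2) (δ : Λ → ι) (hδ : Injective δ) (dir : ℕ → Λ) (σ₀ : ℕ)
    (w₀ : ι → ℕ) (l₁ : Λ) (o : ι) (u : Λ → ι) (ho : ∀ l, δ l ≠ o) (huo : ∀ l, o ≠ u l)
    (huδ : ∀ l, u l ≠ δ l) (hE : 2 * cQ q M ≤ E) (hB : bK q M E D ≤ σ₀)
    (hBo : bK q M E D ≤ w₀ o) (hBu : ∀ l, bK q M E D ≤ w₀ (u l))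
    (hBδ : ∀ l, bK q M E D ≤ w₀ (δ l)) (hlo : ∀ l, wS δ dir w₀ kt (δ l) ≤ w₀ o)
    (hmar : ∀ l, σ₀ + kt + bK q M E D ≤ ∑ i, update (wS δ dir w₀ kt) (δ l) 0 i)
    (hwin : ∀ j, j + 1 ≤ kt → ∀ i, i ≤ j →
      ct dir (dir (j + 1)) i = ct dir (dir (j + 1)) j → ∀ l,
        2 * q ^ 3 * E * (ct dir l (j + 1) - ct dir l i) ≤ w₀ (δ l) ∧
        2 * q ^ 3 * E * (ct dir l (j + 1) - ct dir l i) ≤ σ₀)
    (hex : ∀ j, j + 1 ≤ kt →
      NEr M E D (update (wS δ dir w₀ (j + 1)) (δ (dir (j + 1))) 0))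
    (h1 : M ≤ update w₀ (δ l₁) 0 o) (h2 : M ≤ update w₀ (δ l₁) 0 (u l₁)) :
    NumP (lensOf M (update w₀ (δ l₁) 0) o (u l₁) (huo l₁) h1 h2)
      (sysC δ hδ dir σ₀ w₀) E kt (pS δ dir σ₀ w₀) := by
  obtain ⟨hb1, hb2, hb3, hb4, hb5⟩ := NumS_le q M E D
  have hq1 : 1 ≤ q := by
    have h : 0 < Fintype.card ι := Fintype.card_pos_iff.2 ⟨o⟩
    omega
  have hq3 : 0 < 2 * q ^ 3 := by positivity
  have hcQ : 1 ≤ cQ q M := by
    have h : 0 < cQ q M := by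
      unfold cQ
      positivity
    exact h
  have hE1 : 1 ≤ E := by omega
  refine ⟨hM, hΛ, ?_, ?_, ?_, ?_, ?_, ?_, ?_⟩
  · have h3 := cE_le hM hq (update w₀ (δ l₁) 0) o (u l₁) (huo l₁) h1 h2
    omega
  · intro l k hk
    obtain ⟨i, hi, he, -⟩ := pS_spec δ dir σ₀ w₀ l k
    rw [he]
    have h3 := cE_le hM hq (update w₀ (δ l₁) 0) o (u l₁) (huo l₁) h1 h2
    have h4 := wS_margin δ dir σ₀ w₀ l (bK q M E D) i kt (hi.trans hk) (hmar l)
    have h5 := hS_floor δ dir σ₀ w₀ l i (cQ q M) (huo l).symm (ho l) (huδ l)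
      (hb1.trans hBo) (hb1.trans (hBu l)) (hb1.trans hB) (by omega)
    omega
  · intro l k hk
    obtain ⟨i, hi, he, -⟩ := pS_spec δ dir σ₀ w₀ l k
    rw [he]
    refine le_trans ?_ (NumS_R δ dir σ₀ w₀ hi)
    have h3 := hS_low hq δ dir σ₀ w₀ l i (hBδ l) hB hb4
    have h4 : 2 * q ^ 2 * E ≤ bK q M E D := by
      refine le_trans ?_ hb5
      have h5 : q ^ 2 ≤ q ^ 3 := Nat.pow_le_pow_right hq1 (by norm_num)
      calc 2 * q ^ 2 * E ≤ 4 * q ^ 3 * E := by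
            gcongr
            norm_num
        _ = 4 * q ^ 3 * E := rfl
    have h6 : 2 * q ^ 2 * (E * hS δ dir σ₀ w₀ l i) ≤
        2 * q ^ 2 * (Rg (σ₀ + i) (wS δ dir w₀ i)).card := by
      calc 2 * q ^ 2 * (E * hS δ dir σ₀ w₀ l i) = hS δ dir σ₀ w₀ l i * (2 * q ^ 2 * E) := by ring
        _ ≤ hS δ dir σ₀ w₀ l i * bK q M E D := Nat.mul_le_mul_left _ h4
        _ ≤ _ := h3
    exact Nat.le_of_mul_le_mul_left h6 (by positivity)
  · intro k _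
    change (if dir (k + 1) = dir (k + 1) then hS δ dir σ₀ w₀ (dir (k + 1)) (k + 1)
      else pS δ dir σ₀ w₀ (dir (k + 1)) k) = _
    rw [if_pos rfl]
    rfl
  · intro l k _ hl
    change (if dir (k + 1) = l then hS δ dir σ₀ w₀ l (k + 1) else pS δ dir σ₀ w₀ l k) ≤ _
    rw [if_neg (fun h => hl h.symm)]
  · intro k hk
    obtain ⟨i, hi, he, hct⟩ := pS_spec δ dir σ₀ w₀ (dir (k + 1)) k
    change E * hS δ dir σ₀ w₀ (dir (k + 1)) (k + 1) ≤ E * pS δ dir σ₀ w₀ (dir (k + 1)) k +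
      hS δ dir σ₀ w₀ (dir (k + 1)) (k + 1)
    rw [he]
    have hw := hwin k hk i hi hct
    have h3 := hS_ratio (Q := 2 * q ^ 3 * E) hq
      (by
        have h4 : 1 ≤ q ^ 3 := Nat.one_le_pow _ _ hq1
        calc 2 = 2 * 1 * 1 := by norm_num
          _ ≤ 2 * q ^ 3 * E := Nat.mul_le_mul (Nat.mul_le_mul_left 2 h4) hE1)
      hδ dir σ₀ w₀ o ho (dir (k + 1)) (i := i) (j := k + 1) (by omega)
      (lt_of_lt_of_le (by omega) (hBδ _))
      ((wS_mono δ dir w₀ hk _).trans (hlo _)) (fun l' => (hw l').1) (fun l' => (hw l').2)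
    refine Nat.le_of_mul_le_mul_left ?_ hq3
    calc 2 * q ^ 3 * (E * hS δ dir σ₀ w₀ (dir (k + 1)) (k + 1)) =
          2 * q ^ 3 * E * hS δ dir σ₀ w₀ (dir (k + 1)) (k + 1) := by ring
      _ ≤ _ := h3
      _ = _ := by ring
  · intro k hk S hS x hx hF
    change GM (Rg (σ₀ + (k + 1)) (update (wS δ dir w₀ (k + 1)) (δ (dir (k + 1))) 0))
      ((S + Multiset.replicate x 1).map Kind.free)
    have h4 := wS_margin δ dir σ₀ w₀ (dir (k + 1)) (bK q M E D) (k + 1) kt hk (hmar _)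
    refine hex k hk (σ₀ + (k + 1)) (by omega) (by omega) _ ?_ S hS x hx ?_
    · exact (Nat.lt_mul_div_succ _ hE1).le
    · refine hF.trans (Nat.add_le_add_right (le_of_eq ?_) _)
      congr 1
      refine Multiset.map_congr rfl fun m hm => ?_
      exact (Lx_wS hδ dir w₀ (fun l => hb2.trans (hBδ l)) (hS m hm) (dir (k + 1)) l₁ (k + 1)).symm

end Pool.Agent.H18.Tk
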