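import Pool.Agent.H18.Tk.Defs
import Pool.Agent.H18.Tj.PeelT

/-!
# Module P1 (TK): one Horace step for configurations

Adapt the proof of `peelL` in `Pool/Agent/H18/Tj/PeelT.lean` (same system with one direction), with `d = Y.dir (k + 1)`
and `c.Φ d` in place of `c.Φ`:
`c' = ⟨c.N - I - replicate t μ, c.s - u, update c.Φ d (shf (c.Φ d) + I.map (m ↦ (m - 1, 1)) + replicate t (μ, 2))⟩`.
For the total length split the sum over the directions at `d` (`Finset.add_sum_erase`).
-/

namespace Pool.Agent.H18.Tk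

open Finset Function Pool.Agent.H18.Ex Pool.Agent.H18.Tj

variable {Λ : Type} [Fintype Λ] [DecidableEq Λ]

/-- The new configuration. -/
private def PeelP_c (c : Cfg Λ) (d : Λ) (I : Multiset ℕ) (μ t u : ℕ) : Cfg Λ :=
  ⟨c.N - I - Multiset.replicate t μ, c.s - u,
    update c.Φ d (shf (c.Φ d) + I.map (fun m => (m - 1, 1)) + Multiset.replicate t (μ, 2))⟩

omit [Fintype Λ] in
private theorem PeelP_self (c : Cfg Λ) (d : Λ) (I : Multiset ℕ) (μ t u : ℕ) :
    (PeelP_c c d I μ t u).Φ d =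
      shf (c.Φ d) + I.map (fun m => (m - 1, 1)) + Multiset.replicate t (μ, 2) := by
  unfold PeelP_c
  exact update_self _ _ _

omit [Fintype Λ] in
private theorem PeelP_ne (c : Cfg Λ) (d : Λ) (I : Multiset ℕ) (μ t u : ℕ) (l : Λ) (hl : l ≠ d) :
    (PeelP_c c d I μ t u).Φ l = c.Φ l := by
  unfold PeelP_c
  exact update_of_ne hl _ _

omit [Fintype Λ] in
private theorem PeelP_OK {M : ℕ} {c : Cfg Λ} (hc : c.OK M) (d : Λ) {I : Multiset ℕ}
    (hI : I ≤ c.N) {μ t u : ℕ} (hμ : t ≠ 0 → 2 ≤ μ ∧ μ ≤ M) : (PeelP_c c d I μ t u).OK M := by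
  refine ⟨fun m hm => hc.hN m ?_, fun l x hx => ?_⟩
  · exact Multiset.mem_of_le (le_trans tsub_le_self tsub_le_self) hm
  · by_cases hl : l = d
    · subst hl
      rw [PeelP_self, Multiset.mem_add, Multiset.mem_add] at hx
      rcases hx with (hx | hx) | hx
      · exact shf_ok (hc.hΦ l) x hx
      · obtain ⟨m, hm, rfl⟩ := Multiset.mem_map.1 hx
        have h2 := hc.hN m (Multiset.mem_of_le hI hm)
        refine ⟨le_rfl, by norm_num, ?_, ?_⟩
        · change 1 ≤ m - 1
          omega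
        · change m - 1 ≤ M
          omega
      · have h1 := Multiset.mem_replicate.1 hx
        have h2 := hμ h1.1
        rw [h1.2]
        exact ⟨by norm_num, le_rfl, h2.1, h2.2⟩
    · rw [PeelP_ne c d I μ t u l hl] at hx
      exact hc.hΦ l x hx

omit [Fintype Λ] in
private theorem PeelP_K {M : ℕ} (L : Lens M) (Y : SysP Λ) (w k : ℕ) (hE : GxP L Y w (k + 1))
    (c : Cfg Λ) (hc : c.OK M) {I : Multiset ℕ} (hI : I ≤ c.N) {μ t u : ℕ} (hμ1 : 1 ≤ μ)
    (ht : Multiset.replicate t μ ≤ c.N - I) (hu : u ≤ c.s) (hw : w ≤ t + u)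
    (hsum : trT L (c.Φ (Y.dir (k + 1))) + (I.map L.lo).sum + t + u = Y.F (k + 1))
    (h : Y.K k (PeelP_c c (Y.dir (k + 1)) I μ t u)) : Y.K (k + 1) c := by
  have h1 : (c.N - I - Multiset.replicate t μ) + I + Multiset.replicate t μ = c.N := by
    rw [add_right_comm, tsub_add_cancel_of_le ht, tsub_add_cancel_of_le hI]
  have h2 : c.s - u + u = c.s := Nat.sub_add_cancel hu
  have h3 := Y.step k (c.N - I - Multiset.replicate t μ) I μ t (c.s - u) u c.Φ hμ1
    (fun x hx => (hc.hΦ _ x hx).2.2.1)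
    (hE ((c.Φ (Y.dir (k + 1))).map Prod.fst + I) ?_ (t + u) hw ?_) h
  · rw [h1, h2] at h3
    exact h3
  · intro m hm
    rcases Multiset.mem_add.1 hm with hm | hm
    · obtain ⟨x, hx, rfl⟩ := Multiset.mem_map.1 hm
      exact (hc.hΦ _ x hx).2.2.2
    · exact (hc.hN m (Multiset.mem_of_le hI hm)).2
  · rw [Multiset.map_add, Multiset.sum_add, Multiset.map_map]
    have h4 : ((c.Φ (Y.dir (k + 1))).map (L.lo ∘ Prod.fst)).sum =
      trT L (c.Φ (Y.dir (k + 1))) := rfl
    rw [h4]
    omega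

omit [Fintype Λ] in
private theorem PeelP_tr {M : ℕ} (L : Lens M) {c : Cfg Λ} (hc : c.OK M) (d : Λ)
    {I : Multiset ℕ} (hI : I ≤ c.N) (μ t u : ℕ) :
    M * trT L ((PeelP_c c d I μ t u).Φ d) ≤ (M - 1) * (trT L (c.Φ d) + (I.map L.lo).sum) +
      M * (t * L.lo μ) := by
  have h1 : trT L ((PeelP_c c d I μ t u).Φ d) = trT L (shf (c.Φ d)) +
      trT L (I.map (fun m => (m - 1, 1))) + trT L (Multiset.replicate t (μ, 2)) := by
    rw [PeelP_self, trT_add, trT_add]
  have h2 : trT L (Multiset.replicate t (μ, 2)) = t * L.lo μ := by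
    unfold trT
    rw [Multiset.map_replicate, Multiset.sum_replicate, smul_eq_mul]
  have h3 := trT_shf L (c.Φ d) (fun x hx => hc.hΦ d x hx)
  have h5 : M * trT L (I.map (fun m => (m - 1, 1))) ≤ (M - 1) * (I.map L.lo).sum := by
    have h6 : ∀ m ∈ I, 2 ≤ m ∧ m ≤ M := fun m hm => hc.hN m (Multiset.mem_of_le hI hm)
    clear h1 h2 h3 hI
    unfold trT
    rw [Multiset.map_map]
    induction I using Multiset.induction_on with
    | empty => simp
    | cons m I ih =>
      have ih' := ih fun m' hm' => h6 m' (Multiset.mem_cons_of_mem hm')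
      have h7 := h6 m (Multiset.mem_cons_self m I)
      rw [Multiset.map_cons, Multiset.map_cons, Multiset.sum_cons, Multiset.sum_cons,
        Nat.mul_add, Nat.mul_add]
      have h8 := L.ratioM (c := m - 1) (by omega)
      have h9 : m - 1 + 1 = m := by omega
      rw [h9] at h8
      exact Nat.add_le_add h8 ih'
  rw [h1, h2, Nat.mul_add, Nat.mul_add, Nat.mul_add]
  omega

omit [Fintype Λ] in
private theorem PeelP_sumN {M : ℕ} (L : Lens M) (c : Cfg Λ) {I : Multiset ℕ} (hI : I ≤ c.N)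
    {μ t : ℕ} (ht : Multiset.replicate t μ ≤ c.N - I) :
    (c.N.map L.hi).sum = ((c.N - I - Multiset.replicate t μ).map L.hi).sum +
      (I.map L.hi).sum + t * L.hi μ := by
  have h1 : c.N = (c.N - I - Multiset.replicate t μ) + I + Multiset.replicate t μ := by
    rw [add_right_comm, tsub_add_cancel_of_le ht, tsub_add_cancel_of_le hI]
  conv_lhs => rw [h1]
  rw [Multiset.map_add, Multiset.map_add, Multiset.sum_add, Multiset.sum_add,
    Multiset.map_replicate, Multiset.sum_replicate, smul_eq_mul]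

private theorem PeelP_sz {M : ℕ} (L : Lens M) {c : Cfg Λ} (hc : c.OK M) (d : Λ)
    {I : Multiset ℕ} (hI : I ≤ c.N) {μ t u : ℕ} (hμ1 : 1 ≤ μ)
    (ht : Multiset.replicate t μ ≤ c.N - I) (hu : u ≤ c.s) :
    szP L (PeelP_c c d I μ t u) + (trT L (c.Φ d) + (I.map L.lo).sum + t + u) = szP L c := by
  have h1 : flT L ((PeelP_c c d I μ t u).Φ d) = flT L (shf (c.Φ d)) +
      flT L (I.map (fun m => (m - 1, 1))) + flT L (Multiset.replicate t (μ, 2)) := by
    rw [PeelP_self, flT_add, flT_add]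
  have h2 : flT L (Multiset.replicate t (μ, 2)) + t = t * L.hi μ := by
    unfold flT
    rw [Multiset.map_replicate, Multiset.sum_replicate, smul_eq_mul]
    have h3 := L.hi_pos hμ1
    change t * (L.hi μ + 1 - 2) + t = t * L.hi μ
    have h4 : L.hi μ = (L.hi μ + 1 - 2) + 1 := by omega
    conv_rhs => rw [h4]
    ring
  have h3 := flT_shf L (c.Φ d) (fun x hx => hc.hΦ d x hx)
  have h5 : flT L (I.map (fun m => (m - 1, 1))) + (I.map L.lo).sum = (I.map L.hi).sum := by
    have h6 : ∀ m ∈ I, 2 ≤ m ∧ m ≤ M := fun m hm => hc.hN m (Multiset.mem_of_le hI hm)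
    clear h1 h2 h3 hI ht
    unfold flT
    rw [Multiset.map_map]
    induction I using Multiset.induction_on with
    | empty => simp
    | cons m I ih =>
      have ih' := ih fun m' hm' => h6 m' (Multiset.mem_cons_of_mem hm')
      have h7 := h6 m (Multiset.mem_cons_self m I)
      rw [Multiset.map_cons, Multiset.map_cons, Multiset.map_cons, Multiset.sum_cons,
        Multiset.sum_cons, Multiset.sum_cons, ← ih']
      have h8 := L.hi_succ (m - 1)
      have h9 : m - 1 + 1 = m := by omega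
      rw [h9] at h8
      simp only [Function.comp_apply]
      omega
  have h8 := PeelP_sumN L c hI ht
  have h9 : nszP L (PeelP_c c d I μ t u) =
      ((c.N - I - Multiset.replicate t μ).map L.hi).sum + (c.s - u) := rfl
  have h10 : nszP L c = (c.N.map L.hi).sum + c.s := rfl
  have h11 : ∑ l, flT L ((PeelP_c c d I μ t u).Φ l) =
      flT L ((PeelP_c c d I μ t u).Φ d) + ∑ l ∈ univ.erase d, flT L (c.Φ l) := by
    rw [← Finset.add_sum_erase univ (fun l => flT L ((PeelP_c c d I μ t u).Φ l)) (mem_univ d)]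
    congr 1
    refine Finset.sum_congr rfl fun l hl => ?_
    rw [PeelP_ne c d I μ t u l (Finset.ne_of_mem_erase hl)]
  have h12 : ∑ l, flT L (c.Φ l) = flT L (c.Φ d) + ∑ l ∈ univ.erase d, flT L (c.Φ l) :=
    (Finset.add_sum_erase univ (fun l => flT L (c.Φ l)) (mem_univ d)).symm
  unfold szP
  rw [h9, h10, h11, h12]
  omega

private theorem PeelP_sum_le {g : ℕ → ℕ} {C : ℕ} {I : Multiset ℕ}
    (hI : ∀ m ∈ I, g m ≤ C) : (I.map g).sum ≤ C * I.card := by
  induction I using Multiset.induction_on with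
  | empty => simp
  | cons m I ih =>
    have ih' := ih fun m' hm' => hI m' (Multiset.mem_cons_of_mem hm')
    have h7 := hI m (Multiset.mem_cons_self m I)
    rw [Multiset.card_cons, Multiset.map_cons, Multiset.sum_cons, Nat.mul_add, Nat.mul_one]
    omega

private theorem PeelP_card_le {M : ℕ} (L : Lens M) {I : Multiset ℕ}
    (hI : ∀ m ∈ I, 2 ≤ m ∧ m ≤ M) : I.card ≤ (I.map L.lo).sum := by
  induction I using Multiset.induction_on with
  | empty => simp
  | cons m I ih =>
    have ih' := ih fun m' hm' => hI m' (Multiset.mem_cons_of_mem hm')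
    have h7 := hI m (Multiset.mem_cons_self m I)
    rw [Multiset.card_cons, Multiset.map_cons, Multiset.sum_cons]
    have h8 := L.lo_pos (m := m) (by omega) h7.2
    omega

theorem peelP {M : ℕ} (L : Lens M) (hM : 1 ≤ M) (Y : SysP Λ) (w k : ℕ) (hE : GxP L Y w (k + 1))
    (c : Cfg Λ) (hc : c.OK M) (I₀ : Multiset ℕ) (hI₀ : I₀ ≤ c.N)
    (hroom : trT L (c.Φ (Y.dir (k + 1))) + (I₀.map L.lo).sum + w ≤ Y.F (k + 1))
    (hav : L.hi M * (Y.F (k + 1) + g0T L w) + Y.F (k + 1) ≤ nszP L c) :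
    ∃ c' : Cfg Λ, c'.OK M ∧ (Y.K k c' → Y.K (k + 1) c) ∧
      M * trT L (c'.Φ (Y.dir (k + 1))) ≤ (M - 1) * Y.F (k + 1) + M * ((L.lo M + w) * L.lo M) ∧
      (∀ l, l ≠ Y.dir (k + 1) → c'.Φ l = c.Φ l) ∧
      szP L c' + Y.F (k + 1) = szP L c ∧
      (c'.s = c.s ∨ c'.N.card < g0T L w) ∧
      c'.N.card ≤ c.N.card ∧
      (c.N.card * L.lo M + trT L (c.Φ (Y.dir (k + 1))) + w ≤ Y.F (k + 1) → c'.N = 0) ∧
      (c.N = 0 → c'.N = 0 ∧ c'.Φ (Y.dir (k + 1)) = shf (c.Φ (Y.dir (k + 1)))) ∧
      shf (c.Φ (Y.dir (k + 1))) + I₀.map (fun m => (m - 1, 1)) ≤ c'.Φ (Y.dir (k + 1)) ∧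
      c'.s ≤ c.s := by
  set d := Y.dir (k + 1) with hd
  set f := Y.F (k + 1) with hf
  obtain ⟨I, hI1, hI2, hI3, hI4⟩ := exists_maximal_fill c.N I₀ L.lo (f - trT L (c.Φ d) - w) hI₀
    (by omega)
  set ρ := f - trT L (c.Φ d) - (I.map L.lo).sum with hρ
  have hρw : w ≤ ρ := by omega
  have hIN : ∀ m ∈ I, 2 ≤ m ∧ m ≤ M := fun m hm => hc.hN m (Multiset.mem_of_le hI2 hm)
  have hcard := PeelP_card_le L hIN
  have hlo1 : 1 ≤ L.lo M := L.lo_pos hM le_rfl
  have hg0 : 1 ≤ g0T L w := by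
    unfold g0T
    exact Nat.mul_pos (by omega) (by omega)
  have hsub : (c.N - I).card = c.N.card - I.card := Multiset.card_sub hI2
  have hIc : I.card ≤ c.N.card := Multiset.card_le_card hI2
  have hmapI : shf (c.Φ d) + I₀.map (fun m => (m - 1, 1)) ≤
      shf (c.Φ d) + I.map (fun m => (m - 1, 1)) := by
    gcongr
  -- the output (7)
  have hall : c.N.card * L.lo M + trT L (c.Φ d) + w ≤ f → c.N - I = 0 := by
    intro h
    by_contra hne
    obtain ⟨m, hm⟩ := Multiset.exists_mem_of_ne_zero hne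
    have h1 := hI4 m hm
    have hmN := hc.hN m (Multiset.mem_of_le tsub_le_self hm)
    have h2 := L.lo_mono hmN.2 le_rfl
    have h3 : (I.map L.lo).sum ≤ L.lo M * I.card :=
      PeelP_sum_le fun m' hm' => L.lo_mono (hIN m' hm').2 le_rfl
    have h4 : 0 < (c.N - I).card := Multiset.card_pos.2 hne
    have h5 : I.card + 1 ≤ c.N.card := by omega
    have h6 : L.lo M * (I.card + 1) ≤ L.lo M * c.N.card := Nat.mul_le_mul_left _ h5
    rw [Nat.mul_add, Nat.mul_one] at h6
    rw [Nat.mul_comm (L.lo M) c.N.card] at h6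
    omega
  by_cases hcase : g0T L w ≤ (c.N - I).card
  · -- case (i)
    have hNI : ∀ m ∈ c.N - I, 1 ≤ m ∧ m ≤ M := by
      intro m hm
      have := hc.hN m (Multiset.mem_of_le tsub_le_self hm)
      omega
    obtain ⟨μ, hμ, hrep⟩ := exists_replicate_le (c.N - I) M (L.lo M + w) hNI hcase hM (by omega)
    have hμ2 := hc.hN μ (Multiset.mem_of_le tsub_le_self hμ)
    have hρle : ρ ≤ L.lo M + w := by
      have h1 := hI4 μ hμ
      have h2 := L.lo_mono hμ2.2 le_rfl
      omega
    have ht : Multiset.replicate ρ μ ≤ c.N - I :=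
      le_trans (Multiset.replicate_le_replicate μ |>.2 hρle) hrep
    have hsum : trT L (c.Φ d) + (I.map L.lo).sum + ρ + 0 = f := by omega
    refine ⟨PeelP_c c d I μ ρ 0, PeelP_OK hc d hI2 (fun _ => hμ2),
      PeelP_K L Y w k hE c hc hI2 (by omega) ht (Nat.zero_le _) (by omega) hsum,
      ?_, fun l hl => PeelP_ne c d I μ ρ 0 l hl, ?_, Or.inl rfl, ?_, ?_, ?_, ?_, Nat.sub_le _ _⟩
    · refine le_trans (PeelP_tr L hc d hI2 μ ρ 0) (Nat.add_le_add ?_ ?_)
      · exact Nat.mul_le_mul_left _ (by omega)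
      · apply Nat.mul_le_mul_left
        exact Nat.mul_le_mul hρle (L.lo_mono hμ2.2 le_rfl)
    · have h1 := PeelP_sz L hc d hI2 (by omega : 1 ≤ μ) ht (Nat.zero_le c.s)
      rw [hsum] at h1
      exact h1
    · exact Multiset.card_le_card (le_trans tsub_le_self tsub_le_self)
    · intro h
      have h1 := hall h
      rw [h1, Multiset.card_zero] at hcase
      omega
    · intro h
      rw [h] at hcase hsub
      rw [hsub] at hcase
      simp at hcase
      omega
    · rw [PeelP_self]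
      exact le_trans hmapI (Multiset.le_add_right _ _)
  · -- case (ii)
    push Not at hcase
    have hρs : ρ ≤ c.s := by
      have h1 : nszP L c ≤ L.hi M * c.N.card + c.s := by
        unfold nszP
        exact Nat.add_le_add_right
          (PeelP_sum_le fun m hm => L.hi_mono (hc.hN m hm).2) _
      have h2 : L.hi M * c.N.card ≤ L.hi M * (f + g0T L w) :=
        Nat.mul_le_mul_left _ (by omega)
      omega
    have hsum : trT L (c.Φ d) + (I.map L.lo).sum + 0 + ρ = f := by omega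
    have ht : Multiset.replicate 0 1 ≤ c.N - I := Multiset.zero_le _
    have hNeq : (PeelP_c c d I 1 0 ρ).N = c.N - I := by
      change c.N - I - Multiset.replicate 0 1 = c.N - I
      rw [Multiset.replicate_zero, tsub_zero]
    refine ⟨PeelP_c c d I 1 0 ρ, PeelP_OK hc d hI2 (fun h => absurd rfl h),
      PeelP_K L Y w k hE c hc hI2 le_rfl ht hρs (by omega) hsum,
      ?_, fun l hl => PeelP_ne c d I 1 0 ρ l hl, ?_, Or.inr ?_, ?_, ?_, ?_, ?_, Nat.sub_le _ _⟩
    · refine le_trans (PeelP_tr L hc d hI2 1 0 ρ) (Nat.add_le_add ?_ ?_)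
      · exact Nat.mul_le_mul_left _ (by omega)
      · rw [zero_mul, mul_zero]
        exact Nat.zero_le _
    · have h1 := PeelP_sz L hc d hI2 (le_refl 1) ht hρs
      rw [hsum] at h1
      exact h1
    · rw [hNeq]
      exact hcase
    · rw [hNeq]
      exact Multiset.card_le_card tsub_le_self
    · intro h
      rw [hNeq]
      exact hall h
    · intro h
      have hI0 : I = 0 := by
        rw [h] at hI2
        exact Multiset.le_zero.1 hI2
      refine ⟨?_, ?_⟩
      · rw [hNeq, h, hI0]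
        rfl
      · rw [PeelP_self, hI0]
        simp
    · rw [PeelP_self]
      exact le_trans hmapI (Multiset.le_add_right _ _)

end Pool.Agent.H18.Tk
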