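import Pool.Agent.H18.Tk.NearG
import Pool.Agent.H18.Tk.ChooseN
import Pool.Agent.H18.Tj.PolyT

/-!
# Module C8 (TK): the bounds are polynomial

Unfold the definitions; see `Pool/Agent/H18/Tj/PolyT.lean`.
-/

namespace Pool.Agent.H18.Tk

open Finset Function Pool.Agent.H18.Ex Pool.Agent.H18.Pr Pool.Agent.H18.Tj

theorem polyB_bK (q : ℕ) {E D : ℕ → ℕ} (hE : PolyB E) (hD : PolyB D) :
    PolyB fun M => bK q M (E M) (D M) := by
  unfold bK
  exact (((((PolyB.const (4 * q ^ 3)).mul hE).add (polyB_cQ q)).add PolyB.id).add hD).add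
    (PolyB.const 2)

theorem polyB_dG (q : ℕ) {E E' D' : ℕ → ℕ} (hE : PolyB E) (hE' : PolyB E') (hD' : PolyB D') :
    PolyB fun M => dG q M (E M) (E' M) (D' M) := by
  have hb := polyB_bK q hE' hD'
  unfold dG
  exact (((((PolyB.const (4 * q ^ 2)).mul ((hb.add PolyB.id).add (PolyB.const 2))).mul hE).add
    ((PolyB.const 4).mul hb)).add ((PolyB.const 4).mul PolyB.id)).add (PolyB.const 8)

theorem polyB_dC {B C X : ℕ → ℕ} (hB : PolyB B) (hC : PolyB C) (hX : PolyB X) :
    PolyB fun M => dC (B M) (C M) (X M) := by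
  unfold dC
  exact (((((PolyB.const 3000).mul hC).mul (hB.pow 2)).add
    (((PolyB.const 2).mul hC).mul hX)).add ((PolyB.const 100).mul hB)).add (PolyB.const 8)

end Pool.Agent.H18.Tk
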