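import Pool.Agent.H18.Tk.PeelP
import Pool.Agent.H18.Tj.PhaseA

/-!
# Module P2 (TK): one step, keeping the invariants

Adapt `step_inv` and `room_zero` in `Pool/Agent/H18/Tj/PhaseA.lean`.  Write `a = lo M`, `b = hi M`, `F = F (k + 1)`,
`d = dir (k + 1)`, `w = F / E + 1`; `E ≥ 2 cE L`, `F = P d (k + 1) ≥ cE L`, `cE L = 64 M (M + 1) (a + 1)^2 (b + 1)`.
* room: `2 M (F - tr) ≥ F ≥ 2 M w` (`top`);
* availability: `nsz ≥ R (k + 1) - M ∑_l trT (Φ l) ≥ R - M ∑_l P l (k + 1) ≥ R - 2 M R / E ≥ R / 2` (`flT_le`, `hΛ`, `low`),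
  and `R / 2 ≥ (E / 2) F ≥ (2 b + 1) F ≥ b (F + g0) + F` since `g0 = M (a + w) ≤ F`;
* new invariant in the direction `d`: `M tr' ≤ (M - 1) F + M (a + w) a`; `2 M (a + w) a ≤ F / 16`,
  `P d k ≥ (1 - 1 / E) F` (`slow`); in the other directions `Φ` is unchanged and `keep`;
* `4 M a card N' ≤ 4 M a M (a + w) ≤ F / 4 ≤ P d k`.
There is no upper bound of `P d k` in terms of `F` (distinguish the cases `F ≤ P d k` and `F > P d k`).
-/

namespace Pool.Agent.H18.Tk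

open Finset Function Pool.Agent.H18.Ex Pool.Agent.H18.Tj

variable {Λ : Type} [Fintype Λ] [DecidableEq Λ]

variable {M : ℕ} {L : Lens M} {Y : SysP Λ} {E kt : ℕ} {P : Λ → ℕ → ℕ}

/-- the numerical facts -/
private theorem StepP_num (M a b W F E : ℕ) (hM : 1 ≤ M) (ha : 1 ≤ a) (hb : 1 ≤ b)
    (hE : 2 * (64 * M * (M + 1) * (a + 1) ^ 2 * (b + 1)) ≤ E)
    (hF : 64 * M * (M + 1) * (a + 1) ^ 2 * (b + 1) ≤ F) (hW : W = F / E + 1) :
    4 * M * W ≤ F ∧ M * (a + W) ≤ F ∧ 64 * (M * ((a + W) * a)) ≤ F ∧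
      16 * (M * M * (a * (a + W))) ≤ F ∧ 2 * (M + 2 * b + 1) ≤ E ∧ 32 * (2 * M) ≤ E := by
  have hW1 : 1 ≤ W := by rw [hW]; exact Nat.le_add_left _ _
  have haW : a + W ≤ 2 * (a * W) := by nlinarith
  have hE1 : 64 * M * (M + 1) * (a + 1) ^ 2 * (b + 1) ≤ E := by omega
  have hWF : 32 * M * (M + 1) * (a + 1) ^ 2 * (b + 1) * W ≤ F := by
    have h1 : E * (F / E) ≤ F := Nat.mul_div_le F E
    have h2 : 64 * M * (M + 1) * (a + 1) ^ 2 * (b + 1) * (F / E) ≤ F :=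
      (Nat.mul_le_mul_right _ hE1).trans h1
    have h3 : 64 * M * (M + 1) * (a + 1) ^ 2 * (b + 1) * (F / E + 1) ≤ 2 * F := by
      rw [mul_add, mul_one]
      omega
    rw [← hW] at h3
    have h4 : 64 * M * (M + 1) * (a + 1) ^ 2 * (b + 1) * W =
        2 * (32 * M * (M + 1) * (a + 1) ^ 2 * (b + 1) * W) := by ring
    omega
  have ha2 : a ≤ (a + 1) ^ 2 := by nlinarith
  have ha3 : a * a ≤ (a + 1) ^ 2 := by nlinarith
  have ha4 : 1 ≤ (a + 1) ^ 2 := Nat.one_le_pow _ _ (Nat.succ_pos _)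
  have hM1 : 1 ≤ M + 1 := Nat.le_add_left _ _
  have hM2 : 2 ≤ M + 1 := by omega
  have hb1 : 1 ≤ b + 1 := Nat.le_add_left _ _
  have hb2 : 2 ≤ b + 1 := by omega
  refine ⟨?_, ?_, ?_, ?_, ?_, ?_⟩
  · refine le_trans ?_ hWF
    calc 4 * M * W = 4 * M * 1 * 1 * 1 * W := by ring
      _ ≤ 32 * M * (M + 1) * (a + 1) ^ 2 * (b + 1) * W := by
        gcongr
        norm_num
  · refine le_trans ?_ hWF
    calc M * (a + W) ≤ M * (2 * (a * W)) := Nat.mul_le_mul_left _ haW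
      _ = 2 * M * 1 * a * 1 * W := by ring
      _ ≤ 32 * M * (M + 1) * (a + 1) ^ 2 * (b + 1) * W := by
        gcongr
        norm_num
  · refine le_trans ?_ hWF
    calc 64 * (M * ((a + W) * a)) ≤ 64 * (M * ((2 * (a * W)) * a)) := by gcongr
      _ = 32 * M * 2 * (a * a) * 2 * W := by ring
      _ ≤ 32 * M * (M + 1) * (a + 1) ^ 2 * (b + 1) * W := by gcongr
  · refine le_trans ?_ hWF
    calc 16 * (M * M * (a * (a + W))) ≤ 16 * (M * M * (a * (2 * (a * W)))) := by gcongr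
      _ = 32 * M * M * (a * a) * 1 * W := by ring
      _ ≤ 32 * M * (M + 1) * (a + 1) ^ 2 * (b + 1) * W := by
        gcongr
        exact Nat.le_succ M
  · refine le_trans ?_ hE
    refine Nat.mul_le_mul_left 2 ?_
    have h1 : 64 * M * 2 * 1 * (b + 1) ≤ 64 * M * (M + 1) * (a + 1) ^ 2 * (b + 1) := by gcongr
    have h2 : b + 1 ≤ M * (b + 1) := Nat.le_mul_of_pos_left _ hM
    have h3 : M ≤ M * (b + 1) := Nat.le_mul_of_pos_right _ hb1
    have h4 : 64 * M * 2 * 1 * (b + 1) = 128 * (M * (b + 1)) := by ring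
    omega
  · refine le_trans ?_ hE1
    calc 32 * (2 * M) = 64 * M * 1 * 1 * 1 := by ring
      _ ≤ 64 * M * (M + 1) * (a + 1) ^ 2 * (b + 1) := by gcongr

private theorem StepP_all (H : NumP L Y E kt P) (k : ℕ) (hkt : k + 1 ≤ kt) :
    1 ≤ L.lo M ∧ 1 ≤ L.hi M ∧ 4 * M * (Y.F (k + 1) / E + 1) ≤ Y.F (k + 1) ∧
      M * (L.lo M + (Y.F (k + 1) / E + 1)) ≤ Y.F (k + 1) ∧
      64 * (M * ((L.lo M + (Y.F (k + 1) / E + 1)) * L.lo M)) ≤ Y.F (k + 1) ∧
      16 * (M * M * (L.lo M * (L.lo M + (Y.F (k + 1) / E + 1)))) ≤ Y.F (k + 1) ∧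
      2 * (M + 2 * L.hi M + 1) ≤ E ∧ 32 * (2 * M) ≤ E := by
  have ha := L.lo_pos H.hM le_rfl
  have hb := ha.trans (L.lo_le_hi M)
  have hE := H.hE
  have hF := H.floor (Y.dir (k + 1)) (k + 1) hkt
  rw [H.top k hkt] at hF
  unfold cE at hE hF
  exact ⟨ha, hb, StepP_num M (L.lo M) (L.hi M) _ _ E H.hM ha hb hE hF rfl⟩

/-- The forced conditions have at most half of the total length. -/
private theorem StepP_fl (H : NumP L Y E kt P) (k : ℕ) (hkt : k + 1 ≤ kt) (c : Cfg Λ)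
    (hc : c.OK M) (htr : InvP L P (k + 1) c) :
    2 * ∑ l, flT L (c.Φ l) ≤ Y.R (k + 1) := by
  obtain ⟨-, -, -, -, -, -, -, h6⟩ := StepP_all H k hkt
  have hM := H.hM
  have h1 : ∀ l, E * flT L (c.Φ l) ≤ M * Y.R (k + 1) := by
    intro l
    have e1 := flT_le L (c.Φ l) (hc.hΦ l)
    have e2 := htr l
    have e3 : trT L (c.Φ l) ≤ P l (k + 1) := by
      have e4 : 2 * M * trT L (c.Φ l) ≤ 2 * M * P l (k + 1) :=
        e2.trans (Nat.mul_le_mul_right _ (Nat.sub_le _ _))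
      exact Nat.le_of_mul_le_mul_left e4 (by omega)
    have e5 := H.low l (k + 1) hkt
    calc E * flT L (c.Φ l) ≤ E * (M * P l (k + 1)) :=
          Nat.mul_le_mul_left _ (e1.trans (Nat.mul_le_mul_left _ e3))
      _ = M * (E * P l (k + 1)) := by ring
      _ ≤ M * Y.R (k + 1) := Nat.mul_le_mul_left _ e5
  have h2 : E * ∑ l, flT L (c.Φ l) ≤ 2 * (M * Y.R (k + 1)) := by
    rw [Finset.mul_sum]
    refine (Finset.sum_le_card_nsmul univ _ (M * Y.R (k + 1)) fun l _ => h1 l).trans ?_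
    rw [smul_eq_mul]
    exact Nat.mul_le_mul_right _ H.hΛ
  have h3 : 32 * (2 * M) * ∑ l, flT L (c.Φ l) ≤ E * ∑ l, flT L (c.Φ l) :=
    Nat.mul_le_mul_right _ h6
  have h4 : 2 * M * (32 * ∑ l, flT L (c.Φ l)) ≤ 2 * M * Y.R (k + 1) := by
    have e1 : 2 * M * (32 * ∑ l, flT L (c.Φ l)) = 32 * (2 * M) * ∑ l, flT L (c.Φ l) := by ring
    have e2 : 2 * (M * Y.R (k + 1)) = 2 * M * Y.R (k + 1) := by ring
    omega
  have h5 := Nat.le_of_mul_le_mul_left h4 (by omega)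
  omega

theorem step_invP (H : NumP L Y E kt P) (k : ℕ) (hkt : k + 1 ≤ kt) (c : Cfg Λ)
    (hc : c.OK M) (htr : InvP L P (k + 1) c)
    (hsz : Y.R (k + 1) ≤ szP L c) (I₀ : Multiset ℕ) (hI₀ : I₀ ≤ c.N)
    (hroom : trT L (c.Φ (Y.dir (k + 1))) + (I₀.map L.lo).sum + (Y.F (k + 1) / E + 1) ≤
      Y.F (k + 1)) :
    ∃ c' : Cfg Λ, c'.OK M ∧ (Y.K k c' → Y.K (k + 1) c) ∧
      InvP L P k c' ∧ Y.R k ≤ szP L c' ∧
      szP L c' + Y.F (k + 1) = szP L c ∧
      (c'.s = c.s ∨ 4 * M * L.lo M * c'.N.card ≤ P (Y.dir (k + 1)) k) ∧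
      (4 * M * L.lo M * c.N.card ≤ Y.F (k + 1) → c'.N = 0) ∧
      (c.N = 0 → c'.N = 0 ∧ c'.Φ (Y.dir (k + 1)) = shf (c.Φ (Y.dir (k + 1)))) ∧
      shf (c.Φ (Y.dir (k + 1))) + I₀.map (fun m => (m - 1, 1)) ≤ c'.Φ (Y.dir (k + 1)) ∧
      (∀ l, l ≠ Y.dir (k + 1) → c'.Φ l = c.Φ l) ∧
      c'.N.card ≤ c.N.card ∧ c'.s ≤ c.s := by
  obtain ⟨ha, hb, h1, h2, h3, h4, h5, h6⟩ := StepP_all H k hkt
  have hM := H.hM
  have hslow := H.slow k hkt
  have hlow := H.low (Y.dir (k + 1)) (k + 1) hkt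
  rw [H.top k hkt] at hlow
  have hcount := Y.count k
  have hfl := StepP_fl H k hkt c hc htr
  have hsz' : szP L c = nszP L c + ∑ l, flT L (c.Φ l) := rfl
  have hg0 : g0T L (Y.F (k + 1) / E + 1) = M * (L.lo M + (Y.F (k + 1) / E + 1)) := rfl
  have htrd := htr (Y.dir (k + 1))
  rw [H.top k hkt] at htrd
  obtain ⟨w, hw⟩ : ∃ w, w = Y.F (k + 1) / E + 1 := ⟨_, rfl⟩
  rw [← hw] at h1 h2 h3 h4 hroom hg0
  obtain ⟨F', hF'⟩ : ∃ F', F' = Y.F (k + 1) := ⟨_, rfl⟩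
  rw [← hF'] at h1 h2 h3 h4 hroom hslow hlow hcount htrd
  obtain ⟨F, hF⟩ : ∃ F, F = P (Y.dir (k + 1)) k := ⟨_, rfl⟩
  rw [← hF] at hslow
  have htr2 : 2 * M * trT L (c.Φ (Y.dir (k + 1))) + F' ≤ 2 * M * F' := by
    have e : (2 * M - 1) * F' + F' = 2 * M * F' := by
      rw [← Nat.succ_mul]
      congr 1
      omega
    omega
  have hav : L.hi M * (Y.F (k + 1) + g0T L w) + Y.F (k + 1) ≤ nszP L c := by
    rw [← hF', hg0]
    have e1 : L.hi M * (F' + M * (L.lo M + w)) ≤ L.hi M * (2 * F') :=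
      Nat.mul_le_mul_left _ (by omega)
    have e3 : 2 * (M + 2 * L.hi M + 1) * F' ≤ E * F' := Nat.mul_le_mul_right _ h5
    have e4 : 2 * (M + 2 * L.hi M + 1) * F' = 2 * (M * F' + L.hi M * (2 * F') + F') := by ring
    omega
  obtain ⟨c', hc', hK, htr', hΦl, hszc, hs, hNc, hN, hN0, hΦ, hss⟩ :=
    peelP L hM Y w k (by rw [hw]; exact H.gd k hkt) c hc I₀ hI₀
      (by rw [← hF']; exact hroom) hav
  rw [← hF'] at htr' hszc hN ⊢
  rw [← hF]
  have hslow2 : F' ≤ 2 * F := by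
    by_contra hlt
    push Not at hlt
    have e1 : 2 ≤ E := by omega
    have e2 : 2 * (F' - F) ≤ E * (F' - F) := Nat.mul_le_mul_right _ e1
    have e3 : E * (F' - F) = E * F' - E * F := Nat.mul_sub _ _ _
    omega
  refine ⟨c', hc', hK, ?_, ?_, hszc, ?_, ?_, hN0, hΦ, hΦl, hNc, hss⟩
  · intro l
    by_cases hl : l = Y.dir (k + 1)
    · subst hl
      rw [← hF]
      obtain ⟨m, rfl⟩ : ∃ m, M = m + 1 := ⟨M - 1, by omega⟩
      have e5 : 2 * (m + 1) - 1 = 2 * m + 1 := by omega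
      have e6 : m + 1 - 1 = m := by omega
      rw [e5]
      rw [e6] at htr'
      have e7 : 2 * (m + 1) * trT L (c'.Φ (Y.dir (k + 1))) =
          2 * ((m + 1) * trT L (c'.Φ (Y.dir (k + 1)))) := by ring
      rw [e7]
      rcases Nat.le_total F' F with hle | hle
      · have e1 : m * F' ≤ m * F := Nat.mul_le_mul_left _ hle
        have e2 : (2 * m + 1) * F = 2 * (m * F) + F := by ring
        rw [e2]
        omega
      · have e1 : E * (F' - F) ≤ F' := by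
          rw [Nat.mul_sub]
          omega
        have e2 : 32 * (2 * (m + 1)) * (F' - F) ≤ E * (F' - F) := Nat.mul_le_mul_right _ h6
        obtain ⟨d, hd⟩ : ∃ d, F' = F + d := ⟨F' - F, by omega⟩
        have hd' : F' - F = d := by omega
        rw [hd'] at e1 e2
        have e8 : 32 * (2 * (m + 1)) * d = 64 * (m * d) + 64 * d := by ring
        have e9 : m * F' = m * F + m * d := by rw [hd]; ring
        have e10 : (2 * m + 1) * F = 2 * (m * F) + F := by ring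
        rw [e10]
        omega
    · rw [hΦl l hl]
      exact (htr l).trans (Nat.mul_le_mul_left _ (H.keep l k hkt hl))
  · omega
  · rcases hs with h | h
    · exact Or.inl h
    · right
      rw [hg0] at h
      have e1 : 4 * M * L.lo M * c'.N.card ≤ 4 * M * L.lo M * (M * (L.lo M + w)) :=
        Nat.mul_le_mul_left _ h.le
      have e2 : 4 * (4 * M * L.lo M * (M * (L.lo M + w))) =
          16 * (M * M * (L.lo M * (L.lo M + w))) := by ring
      omega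
  · intro h
    refine hN ?_
    have e1 : 4 * M * L.lo M * c.N.card = 2 * (2 * M * (c.N.card * L.lo M)) := by ring
    have e2 : 4 * M * w = 2 * (2 * M * w) := by ring
    have e3 : 2 * M * (c.N.card * L.lo M + trT L (c.Φ (Y.dir (k + 1))) + w) ≤ 2 * M * F' := by
      rw [mul_add, mul_add]
      omega
    exact Nat.le_of_mul_le_mul_left e3 (by omega)

/-- The room for `I₀ = 0`. -/
theorem room_zeroP (H : NumP L Y E kt P) (k : ℕ) (hkt : k + 1 ≤ kt) (c : Cfg Λ)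
    (htr : InvP L P (k + 1) c) :
    trT L (c.Φ (Y.dir (k + 1))) + (Y.F (k + 1) / E + 1) ≤ Y.F (k + 1) := by
  obtain ⟨ha, hb, h1, h2, h3, h4, h5, h6⟩ := StepP_all H k hkt
  have hM := H.hM
  have htrd := htr (Y.dir (k + 1))
  rw [H.top k hkt] at htrd
  have e : (2 * M - 1) * Y.F (k + 1) + Y.F (k + 1) = 2 * M * Y.F (k + 1) := by
    rw [← Nat.succ_mul]
    congr 1
    omega
  have e2 : 4 * M * (Y.F (k + 1) / E + 1) = 2 * (2 * M * (Y.F (k + 1) / E + 1)) := by ring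
  have e3 : 2 * M * (trT L (c.Φ (Y.dir (k + 1))) + (Y.F (k + 1) / E + 1)) ≤
      2 * M * Y.F (k + 1) := by
    rw [mul_add]
    omega
  exact Nat.le_of_mul_le_mul_left e3 (by omega)

end Pool.Agent.H18.Tk
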