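import Pool.Agent.H18.Tk.WS
import Pool.Agent.H18.Tj.SysT

/-!
# Module C2 (TK): the concrete Horace system

Adapt `step_Rg`, `bridge_Rg`, `full_Rg` in `Pool/Agent/H18/Tj/SysT.lean`: the forced conditions in the directions
`l ≠ d`, `d = dir (k + 1)`, keep the role `stay` (`NotAt (δ d)` as `δ` is injective); split the sum over the
directions at `d`.  `σ`, `w` are the degree and the widths of the lower state, `x = w (δ d)`:
`update w (δ d) (x + 1)`, resp. `update w (δ d) x = w`.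
-/

namespace Pool.Agent.H18.Tk

open Finset Function Pool.Agent.H18.Ex Pool.Agent.H18.Tj

variable {Λ : Type} [Fintype Λ] [DecidableEq Λ] {ι : Type} [Fintype ι] [DecidableEq ι]

/-- The forced conditions in the other directions. -/
private def SysC_ot (δ : Λ → ι) (d : Λ) (Φ : Λ → Multiset (ℕ × ℕ)) : Multiset (Kind ι) :=
  ∑ l ∈ univ.erase d, (Φ l).map fun x => Kind.forced (δ l) x.1 x.2

omit [Fintype ι] [DecidableEq ι] in
private theorem SysC_split (δ : Λ → ι) (d : Λ) (Φ : Λ → Multiset (ℕ × ℕ)) :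
    ∑ l, (Φ l).map (fun x => Kind.forced (δ l) x.1 x.2) =
      (Φ d).map (fun x => Kind.forced (δ d) x.1 x.2) + SysC_ot δ d Φ :=
  (Finset.add_sum_erase univ (fun l => (Φ l).map fun x => Kind.forced (δ l) x.1 x.2)
    (mem_univ d)).symm

omit [Fintype ι] [DecidableEq ι] in
private theorem SysC_ot_update (δ : Λ → ι) (d : Λ) (Φ : Λ → Multiset (ℕ × ℕ))
    (X : Multiset (ℕ × ℕ)) : SysC_ot δ d (update Φ d X) = SysC_ot δ d Φ := by
  unfold SysC_ot
  refine Finset.sum_congr rfl fun l hl => ?_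
  rw [update_of_ne (ne_of_mem_erase hl)]

omit [Fintype ι] [DecidableEq ι] in
private theorem SysC_kinds (δ : Λ → ι) (d : Λ) (N : Multiset ℕ) (s : ℕ)
    (Φ : Λ → Multiset (ℕ × ℕ)) : kindsS δ (⟨N, s, Φ⟩ : Cfg Λ) =
      N.map Kind.free + Multiset.replicate s (Kind.free 1) +
        ((Φ d).map (fun x => Kind.forced (δ d) x.1 x.2) + SysC_ot δ d Φ) := by
  unfold kindsS
  rw [SysC_split δ d]

omit [Fintype ι] [DecidableEq ι] in
private theorem SysC_kinds_update (δ : Λ → ι) (d : Λ) (N : Multiset ℕ) (s : ℕ)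
    (Φ : Λ → Multiset (ℕ × ℕ)) (X : Multiset (ℕ × ℕ)) :
    kindsS δ (⟨N, s, update Φ d X⟩ : Cfg Λ) =
      N.map Kind.free + Multiset.replicate s (Kind.free 1) +
        (X.map (fun x => Kind.forced (δ d) x.1 x.2) + SysC_ot δ d Φ) := by
  rw [SysC_kinds δ d, SysC_ot_update, update_self]

theorem kindsS_mono (δ : Λ → ι) {c c' : Cfg Λ} (h1 : c.N ≤ c'.N) (h2 : c.s ≤ c'.s)
    (h3 : ∀ l, c.Φ l ≤ c'.Φ l) : kindsS δ c ≤ kindsS δ c' := by
  unfold kindsS
  have h4 : Multiset.replicate c.s (Kind.free 1 : Kind ι) ≤ Multiset.replicate c'.s (Kind.free 1) :=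
    Multiset.replicate_le_replicate _ |>.2 h2
  have h5 := Multiset.map_le_map (f := (Kind.free : ℕ → Kind ι)) h1
  have h6 : ∑ l, (c.Φ l).map (fun x : ℕ × ℕ => Kind.forced (δ l) x.1 x.2) ≤
      ∑ l, (c'.Φ l).map (fun x : ℕ × ℕ => Kind.forced (δ l) x.1 x.2) :=
    Finset.sum_le_sum fun l _ => Multiset.map_le_map (h3 l)
  exact add_le_add (add_le_add h5 h4) h6

theorem kindsS_one (δ : Λ → ι) (N : Multiset ℕ) (s : ℕ) (Φ : Λ → Multiset (ℕ × ℕ)) :
    kindsS δ (⟨1 ::ₘ N, s, Φ⟩ : Cfg Λ) = kindsS δ (⟨N, s + 1, Φ⟩ : Cfg Λ) := by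
  unfold kindsS
  change (1 ::ₘ N).map Kind.free + Multiset.replicate s (Kind.free 1) +
      ∑ l, (Φ l).map (fun x => Kind.forced (δ l) x.1 x.2) = N.map Kind.free +
      Multiset.replicate (s + 1) (Kind.free 1) +
      ∑ l, (Φ l).map (fun x => Kind.forced (δ l) x.1 x.2)
  rw [Multiset.map_cons, Multiset.replicate_succ, Multiset.cons_add, Multiset.add_cons]

/-- The roles of the conditions. -/
private def SysC_roles (ot : Multiset (Kind ι)) (N I : Multiset ℕ) (t s u : ℕ)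
    (Φ : Multiset (ℕ × ℕ)) : Multiset (Role ι) :=
  N.map (fun m => Role.stay (Kind.free m)) +
    Multiset.replicate s (Role.stay (Kind.free 1)) +
    Φ.map (fun x => Role.here x.1 x.2) + I.map (fun m => Role.ord m) +
    Multiset.replicate t Role.dif + Multiset.replicate u (Role.ord 1) + ot.map Role.stay

omit [Fintype ι] [DecidableEq ι] in
private theorem SysC_before (l : ι) (ot : Multiset (Kind ι)) (N I : Multiset ℕ) (μ t s u : ℕ)
    (Φ : Multiset (ℕ × ℕ)) :
    (SysC_roles ot N I t s u Φ).map (Role.before l μ) =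
      (N + I + Multiset.replicate t μ).map Kind.free + Multiset.replicate (s + u) (Kind.free 1) +
        (Φ.map (fun x => Kind.forced l x.1 x.2) + ot) := by
  unfold SysC_roles
  simp only [Multiset.map_add, Multiset.map_map, Multiset.map_replicate,
    Function.comp_def, Role.before, Multiset.replicate_add, Multiset.map_id']
  abel

omit [Fintype ι] in
private theorem SysC_after (l : ι) (ot : Multiset (Kind ι)) (N I : Multiset ℕ) (μ t s u : ℕ)
    (Φ : Multiset (ℕ × ℕ)) :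
    N.map Kind.free + Multiset.replicate s (Kind.free 1) +
        ((shf Φ + I.map (fun m => (m - 1, 1)) + Multiset.replicate t (μ, 2)).map
          (fun x : ℕ × ℕ => Kind.forced l x.1 x.2) + ot) ≤
      (SysC_roles ot N I t s u Φ).map (Role.after l μ) := by
  have h5 : (shf Φ).map (fun x => Kind.forced l x.1 x.2) ≤
      Φ.map (fun x => Kind.forced l (x.1 - 1) x.2) := by
    have h6 : shf Φ ≤ Φ.map fun x => (x.1 - 1, x.2) := Multiset.filter_le _ _
    have h7 := Multiset.map_le_map (f := fun x : ℕ × ℕ => Kind.forced l x.1 x.2) h6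
    rw [Multiset.map_map] at h7
    exact h7
  unfold SysC_roles
  simp only [Multiset.map_add, Multiset.map_map, Multiset.map_replicate,
    Function.comp_def, Role.after, Multiset.map_id']
  calc N.map Kind.free + Multiset.replicate s (Kind.free 1) +
        ((shf Φ).map (fun x => Kind.forced l x.1 x.2) +
          I.map (fun m => Kind.forced l (m - 1) 1) +
          Multiset.replicate t (Kind.forced l μ 2) + ot)
      ≤ N.map Kind.free + Multiset.replicate s (Kind.free 1) +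
        (Φ.map (fun x => Kind.forced l (x.1 - 1) x.2) +
          I.map (fun m => Kind.forced l (m - 1) 1) +
          Multiset.replicate t (Kind.forced l μ 2) + ot) := by
        gcongr
    _ = N.map (fun m => Kind.free m) + Multiset.replicate s (Kind.free 1) +
      Φ.map (fun x => Kind.forced l (x.1 - 1) x.2) +
      I.map (fun m => Kind.forced l (m - 1) 1) +
      Multiset.replicate t (Kind.forced l μ 2) + ot := by abel
    _ ≤ N.map (fun m => Kind.free m) + Multiset.replicate s (Kind.free 1) +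
      Φ.map (fun x => Kind.forced l (x.1 - 1) x.2) +
      I.map (fun m => Kind.forced l (m - 1) 1) +
      Multiset.replicate t (Kind.forced l μ 2) + ot +
      Multiset.replicate u (Kind.forced l (1 - 1) 1) := Multiset.le_add_right _ _
    _ = _ := by abel

omit [Fintype ι] [DecidableEq ι] in
private theorem SysC_layer (ot : Multiset (Kind ι)) (N I : Multiset ℕ) (t s u : ℕ)
    (Φ : Multiset (ℕ × ℕ)) (hΦ : ∀ x ∈ Φ, x.2 ≤ x.1) :
    (Φ.map Prod.fst + I + Multiset.replicate (t + u) 1).map (Kind.free : ℕ → Kind ι) ≤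
      (SysC_roles ot N I t s u Φ).map (fun r => Kind.free r.layer) := by
  have h1 : Φ.map (fun x : ℕ × ℕ => (Kind.free (if x.2 ≤ x.1 then x.1 else 0) : Kind ι)) =
      Φ.map (fun x => Kind.free x.1) :=
    Multiset.map_congr rfl fun x hx => by rw [if_pos (hΦ x hx)]
  unfold SysC_roles
  simp only [Multiset.map_add, Multiset.map_map, Multiset.map_replicate,
    Function.comp_def, Role.layer, Multiset.replicate_add]
  rw [h1]
  calc Φ.map (fun x => (Kind.free x.1 : Kind ι)) + I.map Kind.free +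
        (Multiset.replicate t (Kind.free 1) + Multiset.replicate u (Kind.free 1))
      ≤ (N.map (fun _ => Kind.free 0) + Multiset.replicate s (Kind.free 0) +
          ot.map (fun _ => Kind.free 0)) +
        (Φ.map (fun x => (Kind.free x.1 : Kind ι)) + I.map Kind.free +
        (Multiset.replicate t (Kind.free 1) + Multiset.replicate u (Kind.free 1))) :=
        Multiset.le_add_left _ _
    _ = _ := by abel

omit [Fintype ι] [DecidableEq ι] in
private theorem SysC_notAt (l : ι) (ot : Multiset (Kind ι)) (hot : ∀ k ∈ ot, k.NotAt l)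
    (N I : Multiset ℕ) (t s u : ℕ) (Φ : Multiset (ℕ × ℕ))
    (k : Kind ι) (hk : Role.stay k ∈ SysC_roles ot N I t s u Φ) : k.NotAt l := by
  unfold SysC_roles at hk
  simp only [Multiset.mem_add] at hk
  rcases hk with (((((h | h) | h) | h) | h) | h) | h
  · obtain ⟨m, _, hm⟩ := Multiset.mem_map.1 h
    cases hm
    trivial
  · have h1 := (Multiset.mem_replicate.1 h).2
    cases h1
    trivial
  · obtain ⟨m, _, hm⟩ := Multiset.mem_map.1 h
    cases hm
  · obtain ⟨m, _, hm⟩ := Multiset.mem_map.1 h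
    cases hm
  · have h1 := (Multiset.mem_replicate.1 h).2
    cases h1
  · have h1 := (Multiset.mem_replicate.1 h).2
    cases h1
  · obtain ⟨k', hk', hm⟩ := Multiset.mem_map.1 h
    cases hm
    exact hot k hk'

omit [Fintype ι] [DecidableEq ι] in
private theorem SysC_mem_ot (δ : Λ → ι) (d : Λ) (Φ : Λ → Multiset (ℕ × ℕ)) {k : Kind ι}
    (hk : k ∈ SysC_ot δ d Φ) : ∃ l c e, l ≠ d ∧ k = Kind.forced (δ l) c e := by
  unfold SysC_ot at hk
  rw [Multiset.mem_sum] at hk
  obtain ⟨l, hl, h⟩ := hk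
  obtain ⟨x, _, hx⟩ := Multiset.mem_map.1 h
  exact ⟨l, x.1, x.2, ne_of_mem_erase hl, hx.symm⟩

omit [Fintype ι] [DecidableEq ι] in
private theorem SysC_ot_notAt {δ : Λ → ι} (hδ : Injective δ) (d : Λ)
    (Φ : Λ → Multiset (ℕ × ℕ)) : ∀ k ∈ SysC_ot δ d Φ, k.NotAt (δ d) := by
  intro k hk
  obtain ⟨l, c, e, hl, rfl⟩ := SysC_mem_ot δ d Φ hk
  exact fun h => hl (hδ h)

private theorem SysC_resid (l : ι) (σ : ℕ) (w : ι → ℕ) (a : ι → ℕ) :
    a ∈ Rg σ w ↔
      Function.update a l (a l + 1) ∈ Rg (σ + 1) (update w l (w l + 1)) := by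
  have h := Rg_resid (σ + 1) (update w l (w l + 1)) l (by omega)
    (by rw [Function.update_self]; omega) a
  rw [Function.update_self, Function.update_idem, Nat.add_sub_cancel, Nat.add_sub_cancel,
    Function.update_eq_self] at h
  exact h

private theorem SysC_zero (l : ι) (σ : ℕ) (w : ι → ℕ) :
    (Rg (σ + 1) (update w l (w l + 1))).filter (fun a => a l = 0) =
      Rg (σ + 1) (update w l 0) := by
  rw [Rg_layer, Function.update_idem]

theorem step_S {δ : Λ → ι} (hδ : Injective δ) (d : Λ) (σ : ℕ) (w : ι → ℕ) (N I : Multiset ℕ)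
    (μ t s u : ℕ) (Φ : Λ → Multiset (ℕ × ℕ)) (hμ : 1 ≤ μ) (hΦ : ∀ x ∈ Φ d, x.2 ≤ x.1)
    (h0 : GM (Rg (σ + 1) (update w (δ d) 0))
      (((Φ d).map Prod.fst + I + Multiset.replicate (t + u) 1).map Kind.free))
    (h1 : GM (Rg σ w) (kindsS δ (⟨N, s, update Φ d (shf (Φ d) + I.map (fun m => (m - 1, 1)) +
      Multiset.replicate t (μ, 2))⟩ : Cfg Λ))) :
    GM (Rg (σ + 1) (update w (δ d) (w (δ d) + 1)))
      (kindsS δ (⟨N + I + Multiset.replicate t μ, s + u, Φ⟩ : Cfg Λ)) := by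
  rw [SysC_kinds δ d, ← SysC_before (δ d) (SysC_ot δ d Φ) N I μ t s u (Φ d)]
  rw [SysC_kinds_update] at h1
  refine GM.step _ (Rg σ w) (δ d) (SysC_resid (δ d) σ w) μ hμ _
    (fun k' hk' => SysC_notAt (δ d) _ (SysC_ot_notAt hδ d Φ) N I t s u (Φ d) k' hk') ?_ ?_
  · rw [SysC_zero]
    exact GM.mono (SysC_layer _ N I t s u (Φ d) hΦ) h0
  · exact GM.mono (SysC_after (δ d) _ N I μ t s u (Φ d)) h1

theorem bridge_S {δ : Λ → ι} (hδ : Injective δ) (d : Λ) (σ : ℕ) (w : ι → ℕ) (N : Multiset ℕ)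
    (s s₀ : ℕ) (Φ : Λ → Multiset (ℕ × ℕ))
    (h1 : GM (Rg (σ + 1) (update w (δ d) (w (δ d) + 1)))
      (kindsS δ (⟨N, s + s₀, Φ⟩ : Cfg Λ)))
    (h2 : GM (Rg σ w) (kindsS δ (⟨N, s, update Φ d (shf (Φ d))⟩ : Cfg Λ))) :
    GM (Rg (σ + 1) (update w (δ d) (w (δ d) + 1)))
      (kindsS δ (⟨N, s, update Φ d (Φ d + Multiset.replicate s₀ (1, 1))⟩ : Cfg Λ)) := by
  have e1 : kindsS δ (⟨N, s, update Φ d (Φ d + Multiset.replicate s₀ (1, 1))⟩ : Cfg Λ) =
      kindsS δ (⟨N, s, Φ⟩ : Cfg Λ) + Multiset.replicate s₀ (Kind.forced (δ d) 1 1) := by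
    rw [SysC_kinds_update, SysC_kinds δ d]
    simp only [Multiset.map_add, Multiset.map_replicate]
    abel
  have e2 : kindsS δ (⟨N, s + s₀, Φ⟩ : Cfg Λ) =
      kindsS δ (⟨N, s, Φ⟩ : Cfg Λ) + Multiset.replicate s₀ (Kind.free 1) := by
    rw [SysC_kinds δ d, SysC_kinds δ d]
    simp only [Multiset.replicate_add]
    abel
  have e3 : kindsS δ (⟨N, s, update Φ d (shf (Φ d))⟩ : Cfg Λ) ≤
      (kindsS δ (⟨N, s, Φ⟩ : Cfg Λ)).map (Kind.dn (δ d)) := by
    have h5 : (shf (Φ d)).map (fun x => Kind.forced (δ d) x.1 x.2) ≤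
        (Φ d).map (fun x => Kind.forced (δ d) (x.1 - 1) x.2) := by
      have h6 : shf (Φ d) ≤ (Φ d).map fun x => (x.1 - 1, x.2) := Multiset.filter_le _ _
      have h7 := Multiset.map_le_map (f := fun x : ℕ × ℕ => Kind.forced (δ d) x.1 x.2) h6
      rw [Multiset.map_map] at h7
      exact h7
    have h8 : (SysC_ot δ d Φ).map (Kind.dn (δ d)) = SysC_ot δ d Φ := by
      conv_rhs => rw [← Multiset.map_id (SysC_ot δ d Φ)]
      refine Multiset.map_congr rfl fun k hk => ?_
      obtain ⟨l, c, e, hl, rfl⟩ := SysC_mem_ot δ d Φ hk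
      change (if δ l = δ d then Kind.forced (δ l) (c - 1) e else Kind.forced (δ l) c e) = _
      rw [if_neg (fun h => hl (hδ h))]
      rfl
    rw [SysC_kinds_update, SysC_kinds δ d]
    simp only [Multiset.map_add, Multiset.map_map, Multiset.map_replicate, Function.comp_def,
      Kind.dn, if_true]
    refine add_le_add le_rfl (add_le_add h5 ?_)
    exact le_of_eq h8.symm
  rw [e1]
  rw [e2] at h1
  exact GM.bridge _ (Rg σ w) (δ d) (SysC_resid (δ d) σ w) _ s₀ h1 (GM.mono e3 h2)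

theorem full_S (δ : Λ → ι) (σ : ℕ) (w : ι → ℕ) (N : Multiset ℕ) (s : ℕ)
    (Φ : Λ → Multiset (ℕ × ℕ)) (hN : ∀ m ∈ N, 1 ≤ m) (h : (Rg σ w).card ≤ N.card + s) :
    GM (Rg σ w) (kindsS δ (⟨N, s, Φ⟩ : Cfg Λ)) := by
  have e1 : kindsS δ (⟨N, s, Φ⟩ : Cfg Λ) = (N + Multiset.replicate s 1).map Kind.free +
      ∑ l, (Φ l).map fun x => Kind.forced (δ l) x.1 x.2 := by
    unfold kindsS
    simp only [Multiset.map_add, Multiset.map_replicate]
  rw [e1]
  refine GM.of_card _ _ _ (fun m hm => ?_) ?_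
  · rcases Multiset.mem_add.1 hm with h1 | h1
    · exact hN m h1
    · rw [(Multiset.mem_replicate.1 h1).2]
  · rw [Multiset.card_add, Multiset.card_replicate]
    exact h

theorem count_S (δ : Λ → ι) (dir : ℕ → Λ) (σ₀ : ℕ) (w₀ : ι → ℕ) (k : ℕ) :
    (Rg (σ₀ + (k + 1)) (wS δ dir w₀ (k + 1))).card = (Rg (σ₀ + k) (wS δ dir w₀ k)).card +
      (Rg (σ₀ + (k + 1)) (update (wS δ dir w₀ (k + 1)) (δ (dir (k + 1))) 0)).card := by
  rw [wS_succ, Function.update_idem]
  have h := cnt_succ (δ (dir (k + 1))) (σ₀ + k) (wS δ dir w₀ k)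
    (wS δ dir w₀ k (δ (dir (k + 1))))
  rw [Function.update_eq_self] at h
  exact h

/-- The concrete system. -/
noncomputable def sysC (δ : Λ → ι) (hδ : Injective δ) (dir : ℕ → Λ) (σ₀ : ℕ) (w₀ : ι → ℕ) :
    SysP Λ where
  K j c := GM (Rg (σ₀ + j) (wS δ dir w₀ j)) (kindsS δ c)
  dir := dir
  F j := (Rg (σ₀ + j) (update (wS δ dir w₀ j) (δ (dir j)) 0)).card
  R j := (Rg (σ₀ + j) (wS δ dir w₀ j)).card
  tr j S := GM (Rg (σ₀ + j) (update (wS δ dir w₀ j) (δ (dir j)) 0)) (S.map Kind.free)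
  mono := fun _ _ _ h1 h2 h3 h => GM.mono (kindsS_mono δ h1 h2 h3) h
  one := fun _ N s Φ h => by rw [kindsS_one]; exact h
  count := fun k => count_S δ dir σ₀ w₀ k
  step := fun k N I μ t s u Φ hμ hΦ h0 h1 => by
    rw [wS_succ] at h0 ⊢
    rw [update_idem] at h0
    exact step_S hδ (dir (k + 1)) (σ₀ + k) (wS δ dir w₀ k) N I μ t s u Φ hμ hΦ h0 h1
  bridge := fun k N s s₀ Φ h1 h2 => by
    rw [wS_succ] at h1 ⊢
    exact bridge_S hδ (dir (k + 1)) (σ₀ + k) (wS δ dir w₀ k) N s s₀ Φ h1 h2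
  full := fun _ N s Φ hN h => full_S δ _ _ N s Φ hN h

end Pool.Agent.H18.Tk
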