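import Pool.Agent.H18.Tk.EndP

/-!
# Module C1 (TK): the states of the concrete system

Everything by induction on `j` (`ct_succ`, `wS_succ`); `pS_spec`: the last step along `l` below `j`.
`wS_margin`: in the step from `j` to `j + 1` the degree grows by one and the sum by at most one.
-/

namespace Pool.Agent.H18.Tk

open Finset Function Pool.Agent.H18.Ex Pool.Agent.H18.Tj

variable {Λ : Type} [DecidableEq Λ] {ι : Type} [DecidableEq ι]

theorem sum_ct [Fintype Λ] (dir : ℕ → Λ) (j : ℕ) : ∑ l, ct dir l j = j := by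
  have h := Finset.card_eq_sum_card_fiberwise (f := fun i => dir (i + 1)) (s := range j)
    (t := (univ : Finset Λ)) (fun x _ => Finset.mem_coe.2 (Finset.mem_univ _))
  rw [Finset.card_range] at h
  unfold ct
  exact h.symm

theorem wS_zero (δ : Λ → ι) (dir : ℕ → Λ) (w₀ : ι → ℕ) : wS δ dir w₀ 0 = w₀ := by
  funext i
  simp [wS]

theorem wS_succ (δ : Λ → ι) (dir : ℕ → Λ) (w₀ : ι → ℕ) (j : ℕ) :
    wS δ dir w₀ (j + 1) = update (wS δ dir w₀ j) (δ (dir (j + 1)))
      (wS δ dir w₀ j (δ (dir (j + 1))) + 1) := by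
  funext i
  by_cases h : i = δ (dir (j + 1))
  · subst h
    rw [update_self]
    unfold wS
    rw [Finset.range_add_one, Finset.filter_insert, if_pos rfl, Finset.card_insert_of_notMem]
    · ring
    · simp
  · rw [update_of_ne h]
    unfold wS
    rw [Finset.range_add_one, Finset.filter_insert, if_neg (fun e => h e.symm)]

theorem wS_apply {δ : Λ → ι} (hδ : Injective δ) (dir : ℕ → Λ) (w₀ : ι → ℕ) (l : Λ) (j : ℕ) :
    wS δ dir w₀ j (δ l) = w₀ (δ l) + ct dir l j := by
  unfold wS ct
  congr 2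
  apply Finset.filter_congr
  intro t _
  exact hδ.eq_iff

theorem wS_other {δ : Λ → ι} (dir : ℕ → Λ) (w₀ : ι → ℕ) {i : ι} (hi : ∀ l, δ l ≠ i) (j : ℕ) :
    wS δ dir w₀ j i = w₀ i := by
  unfold wS
  rw [Finset.filter_false_of_mem (fun t _ => hi _), Finset.card_empty, Nat.add_zero]

theorem wS_mono (δ : Λ → ι) (dir : ℕ → Λ) (w₀ : ι → ℕ) {i j : ℕ} (h : i ≤ j) (x : ι) :
    wS δ dir w₀ i x ≤ wS δ dir w₀ j x := by
  unfold wS
  apply Nat.add_le_add_left
  apply Finset.card_le_card
  apply Finset.filter_subset_filter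
  exact Finset.range_mono h

theorem le_wS (δ : Λ → ι) (dir : ℕ → Λ) (w₀ : ι → ℕ) (j : ℕ) (x : ι) :
    w₀ x ≤ wS δ dir w₀ j x := by
  unfold wS
  exact Nat.le_add_right _ _

theorem wS_margin [Fintype ι] (δ : Λ → ι) (dir : ℕ → Λ) (σ₀ : ℕ) (w₀ : ι → ℕ) (l : Λ)
    (B j kt : ℕ) (hj : j ≤ kt)
    (h : σ₀ + kt + B ≤ ∑ i, update (wS δ dir w₀ kt) (δ l) 0 i) :
    σ₀ + j + B ≤ ∑ i, update (wS δ dir w₀ j) (δ l) 0 i := by
  have step : ∀ i, ∑ x, update (wS δ dir w₀ (i + 1)) (δ l) 0 x
      ≤ ∑ x, update (wS δ dir w₀ i) (δ l) 0 x + 1 := by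
    intro i
    calc ∑ x, update (wS δ dir w₀ (i + 1)) (δ l) 0 x
        ≤ ∑ x, (update (wS δ dir w₀ i) (δ l) 0 x + if x = δ (dir (i + 1)) then 1 else 0) := by
          apply Finset.sum_le_sum
          intro x _
          by_cases hx : x = δ l
          · subst hx
            simp
          · rw [update_of_ne hx, update_of_ne hx, wS_succ]
            by_cases hy : x = δ (dir (i + 1))
            · subst hy
              simp
            · rw [update_of_ne hy]
              exact Nat.le_add_right _ _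
      _ = ∑ x, update (wS δ dir w₀ i) (δ l) 0 x + 1 := by
          rw [Finset.sum_add_distrib, Finset.sum_ite_eq' univ (δ (dir (i + 1)))]
          simp
  have key : ∀ d, ∀ i, i + d = kt → σ₀ + i + B ≤ ∑ x, update (wS δ dir w₀ i) (δ l) 0 x := by
    intro d
    induction d with
    | zero =>
      intro i hi
      have e : i = kt := by omega
      subst e
      exact h
    | succ d ih =>
      intro i hi
      have h1 := ih (i + 1) (by omega)
      have h2 := step i
      omega
  exact key (kt - j) j (by omega)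

theorem pS_spec [Fintype ι] (δ : Λ → ι) (dir : ℕ → Λ) (σ₀ : ℕ) (w₀ : ι → ℕ) (l : Λ) (j : ℕ) :
    ∃ i ≤ j, pS δ dir σ₀ w₀ l j = hS δ dir σ₀ w₀ l i ∧ ct dir l i = ct dir l j := by
  induction j with
  | zero => exact ⟨0, le_rfl, rfl, rfl⟩
  | succ j ih =>
    by_cases hd : dir (j + 1) = l
    · refine ⟨j + 1, le_rfl, ?_, rfl⟩
      simp only [pS, if_pos hd]
    · obtain ⟨i, hi, h1, h2⟩ := ih
      refine ⟨i, by omega, ?_, ?_⟩
      · simp only [pS, if_neg hd]
        exact h1
      · rw [h2]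
        unfold ct
        rw [Finset.range_add_one, Finset.filter_insert, if_neg hd]

end Pool.Agent.H18.Tk
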